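import Mathlib

set_option autoImplicit false

/-! Definability calculus (with parameters) over a definably complete expansion of an ordered
field. -/

namespace Pool.Agent.K3h92.OC

open FirstOrder FirstOrder.Language Set Filter Topology

variable {K : Type} {L : FirstOrder.Language.{0, 0}} [L.Structure K]

/-- Definability with parameters of a relation between elements of `K`. -/
def Df (L : FirstOrder.Language.{0, 0}) {K : Type} [L.Structure K] {α : Type}
    (P : (α → K) → Prop) : Prop :=
  (Set.univ : Set K).Definable L {v : α → K | P v}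

namespace Df

variable {α β γ : Type}

theorem congr {P Q : (α → K) → Prop} (h : Df L P) (e : ∀ w, P w ↔ Q w) : Df L Q := by
  have : P = Q := funext fun w => propext (e w)
  rwa [← this]

theorem and {P Q : (α → K) → Prop} (hP : Df L P) (hQ : Df L Q) :
    Df L (fun w => P w ∧ Q w) := Set.Definable.inter hP hQ

theorem or {P Q : (α → K) → Prop} (hP : Df L P) (hQ : Df L Q) :
    Df L (fun w => P w ∨ Q w) := Set.Definable.union hP hQ

theorem not {P : (α → K) → Prop} (hP : Df L P) :
    Df L (fun w => ¬ P w) := Set.Definable.compl hP

theorem imp {P Q : (α → K) → Prop} (hP : Df L P) (hQ : Df L Q) :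
    Df L (fun w => P w → Q w) :=
  (hP.not.or hQ).congr fun w => by tauto

theorem iff {P Q : (α → K) → Prop} (hP : Df L P) (hQ : Df L Q) :
    Df L (fun w => P w ↔ Q w) :=
  ((hP.imp hQ).and (hQ.imp hP)).congr fun w => by tauto

theorem all_fin {ι : Type} [Finite ι] {P : ι → (α → K) → Prop} (hP : ∀ i, Df L (P i)) :
    Df L (fun w => ∀ i, P i w) := by
  have := Set.definable_iInter_of_finite (A := (Set.univ : Set K)) (L := L) hP
  unfold Df
  convert this using 1
  ext v
  simp

theorem ex_fin {ι : Type} [Finite ι] {P : ι → (α → K) → Prop} (hP : ∀ i, Df L (P i)) :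
    Df L (fun w => ∃ i, P i w) := by
  have := Set.definable_iUnion_of_finite (A := (Set.univ : Set K)) (L := L) hP
  unfold Df
  convert this using 1
  ext v
  simp

theorem const (p : Prop) : Df L (fun _ : α → K => p) := by
  by_cases hp : p
  · have : Df L (fun _ : α → K => True) := by
      unfold Df
      convert Set.definable_univ (A := (Set.univ : Set K)) (L := L) (α := α) using 1
      ext; simp
    exact this.congr fun _ => by simp [hp]
  · have : Df L (fun _ : α → K => False) := by
      unfold Df
      convert Set.definable_empty (A := (Set.univ : Set K)) (L := L) (α := α) using 1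
      ext; simp
    exact this.congr fun _ => by simp [hp]

theorem relabel (σ : α → β) {P : (α → K) → Prop} (hP : Df L P) :
    Df L (fun w : β → K => P (fun i => w (σ i))) :=
  Set.Definable.preimage_comp σ hP

theorem ex [Finite α] [Finite γ] {P : (α ⊕ γ → K) → Prop} (hP : Df L P) :
    Df L (fun w : α → K => ∃ y : γ → K, P (Sum.elim w y)) := by
  have h := Set.Definable.image_comp (A := (Set.univ : Set K)) (L := L) hP
    (Sum.inl : α → α ⊕ γ)
  unfold Df
  convert h using 1
  ext v
  simp only [Set.mem_image, Set.mem_ofPred_eq]
  constructor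
  · rintro ⟨y, hy⟩
    refine ⟨Sum.elim v y, hy, ?_⟩
    funext p; rfl
  · rintro ⟨g, hg, rfl⟩
    refine ⟨fun c => g (Sum.inr c), ?_⟩
    convert hg using 1
    funext i
    cases i <;> rfl

theorem all [Finite α] [Finite γ] {P : (α ⊕ γ → K) → Prop} (hP : Df L P) :
    Df L (fun w : α → K => ∀ y : γ → K, P (Sum.elim w y)) :=
  (hP.not.ex.not).congr fun w => by push Not; rfl

/-- Quantifier over a tuple, functional form. -/
theorem exT [Finite α] [Finite γ] {Q : (γ → K) → (α → K) → Prop}
    (h : Df L (fun w : α ⊕ γ → K => Q (fun c => w (Sum.inr c)) (fun i => w (Sum.inl i)))) :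
    Df L (fun v : α → K => ∃ y : γ → K, Q y v) := h.ex

theorem allT [Finite α] [Finite γ] {Q : (γ → K) → (α → K) → Prop}
    (h : Df L (fun w : α ⊕ γ → K => Q (fun c => w (Sum.inr c)) (fun i => w (Sum.inl i)))) :
    Df L (fun v : α → K => ∀ y : γ → K, Q y v) := h.all

/-- Quantifier over one element, functional form. -/
theorem ex1 [Finite α] {Q : K → (α → K) → Prop}
    (h : Df L (fun w : Option α → K => Q (w none) (fun i => w (some i)))) :
    Df L (fun v : α → K => ∃ y, Q y v) := by
  have h1 := (h.relabel (fun o : Option α => (o.elim (Sum.inr ()) Sum.inl : α ⊕ Unit))).ex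
  refine h1.congr fun w => ?_
  constructor
  · rintro ⟨y, hy⟩
    exact ⟨y (), hy⟩
  · rintro ⟨a, ha⟩
    exact ⟨fun _ => a, ha⟩

theorem all1 [Finite α] {Q : K → (α → K) → Prop}
    (h : Df L (fun w : Option α → K => Q (w none) (fun i => w (some i)))) :
    Df L (fun v : α → K => ∀ y, Q y v) :=
  ((ex1 (Q := fun y v => ¬ Q y v) h.not).not).congr fun w => by push Not; rfl

end Df

/-- A definable function. -/
def DfF (L : FirstOrder.Language.{0, 0}) {K : Type} [L.Structure K] {α : Type}
    (f : (α → K) → K) : Prop :=
  Df L (fun w : Option α → K => w none = f (fun i => w (some i)))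

section

variable {α β : Type}

theorem df_eq_var (i j : α) : Df L (fun v : α → K => v i = v j) := by
  unfold Df
  rw [Set.Definable]
  refine ⟨Term.equal (Term.var i) (Term.var j), ?_⟩
  ext v
  simp [Formula.Realize, Term.equal]

theorem df_eq_const (i : α) (c : K) : Df L (fun v : α → K => v i = c) := by
  unfold Df
  rw [Set.Definable]
  refine ⟨Term.equal (Term.var i) ((L.con (⟨c, Set.mem_univ c⟩ : (Set.univ : Set K))).term), ?_⟩
  ext v
  simp [Formula.Realize, Term.equal]

namespace DfF

theorem graph {f : (α → K) → K} (h : DfF L f) {β : Type} (j : β) (σ : α → β) :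
    Df L (fun w : β → K => w j = f (fun i => w (σ i))) :=
  Df.relabel (fun o : Option α => o.elim j σ) h

theorem var (i : α) : DfF L (fun v : α → K => v i) := df_eq_var none (some i)

theorem const (c : K) : DfF L (fun _ : α → K => c) := df_eq_const none c

theorem relabel {f : (α → K) → K} (h : DfF L f) (σ : α → β) :
    DfF L (fun w : β → K => f (fun i => w (σ i))) :=
  h.graph none (fun i => some (σ i))

theorem congr {f g : (α → K) → K} (h : DfF L f) (e : ∀ v, f v = g v) : DfF L g := by
  have : f = g := funext e
  rwa [← this]

end DfF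

variable [Finite α]

/-- Substitution of a definable function into a definable relation. -/
theorem Df.subst {Q : K → (α → K) → Prop}
    (h : Df L (fun w : Option α → K => Q (w none) (fun i => w (some i))))
    {f : (α → K) → K} (hf : DfF L f) : Df L (fun v => Q (f v) v) := by
  have := Df.ex1 (Q := fun y v => y = f v ∧ Q y v) (Df.and hf h)
  refine this.congr fun v => ?_
  constructor
  · rintro ⟨y, rfl, hy⟩; exact hy
  · intro h; exact ⟨_, rfl, h⟩

theorem DfF.subst {F : K → (α → K) → K}
    (h : DfF L (fun w : Option α → K => F (w none) (fun i => w (some i))))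
    {f : (α → K) → K} (hf : DfF L f) : DfF L (fun v => F (f v) v) := by
  have h1 : Df L (fun w : Option (Option α) → K =>
      w (some none) = F (w none) (fun i => w (some (some i)))) :=
    h.graph (β := Option (Option α)) (some none)
      (fun o => o.elim none (fun i => some (some i)))
  exact Df.subst (Q := fun y (v : Option α → K) => v none = F y (fun i => v (some i))) h1
    (f := fun v : Option α → K => f (fun i => v (some i))) (hf.relabel some)

theorem Df.eq {f g : (α → K) → K} (hf : DfF L f) (hg : DfF L g) : Df L (fun v => f v = g v) :=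
  Df.subst (Q := fun y v => y = g v) hg hf

/-- A function whose graph is definable. -/
theorem DfF.of_graph {f : (α → K) → K} (h : Df L (fun w : Option α → K =>
    w none = f (fun i => w (some i)))) : DfF L f := h

/-- Substituting a tuple of definable functions in a definable relation. -/
theorem Df.substT [Finite β] {P : (β → K) → Prop} (h : Df L P) {f : β → (α → K) → K}
    (hf : ∀ j, DfF L (f j)) : Df L (fun v => P (fun j => f j v)) := by
  have h1 : Df L (fun v : α → K => ∃ y : β → K, (∀ j, y j = f j v) ∧ P y) := by
    refine Df.exT (Q := fun y v => (∀ j, y j = f j v) ∧ P y) ?_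
    refine (Df.all_fin fun j => ?_).and ?_
    · exact Df.eq (DfF.var _) ((hf j).relabel Sum.inl)
    · exact h.relabel Sum.inr
  refine h1.congr fun v => ?_
  constructor
  · rintro ⟨y, hy, hP⟩
    have : y = fun j => f j v := funext hy
    rwa [← this]
  · intro h
    exact ⟨_, fun j => rfl, h⟩

end

/-- The structure is a definably complete expansion of an ordered field. -/
class DC (L : FirstOrder.Language.{0, 0}) (K : Type) [Field K] [LinearOrder K]
    [IsStrictOrderedRing K] [L.Structure K] : Prop where
  add : (∅ : Set K).Definable L {v : Fin 3 → K | v 0 + v 1 = v 2}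
  mul : (∅ : Set K).Definable L {v : Fin 3 → K | v 0 * v 1 = v 2}
  lt : (∅ : Set K).Definable L {v : Fin 2 → K | v 0 < v 1}
  lub : ∀ X : Set K, (Set.univ : Set K).Definable L {v : Fin 1 → K | v 0 ∈ X} →
    X.Nonempty → BddAbove X → ∃ s, IsLUB X s

variable [Field K] [LinearOrder K] [IsStrictOrderedRing K] [DC L K]

/-- Definability of a subset of `K`. -/
def D1 (L : FirstOrder.Language.{0, 0}) {K : Type} [L.Structure K] (C : Set K) : Prop :=
  Df L (fun v : Unit → K => v () ∈ C)

section

variable {α β : Type} [Finite α]

omit [Field K] [LinearOrder K] [IsStrictOrderedRing K] [DC L K] in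
theorem Deq {f g : (α → K) → K} (hf : DfF L f) (hg : DfF L g) : Df L (fun v => f v = g v) :=
  Df.eq hf hg

omit [Finite α] in
theorem Dlt' (i j : α) : Df L (fun v : α → K => v i < v j) := by
  have h0 : Df L (fun v : Fin 2 → K => v 0 < v 1) :=
    Set.Definable.mono (DC.lt (L := L) (K := K)) (Set.empty_subset _)
  exact h0.relabel ![i, j]

theorem Dlt {f g : (α → K) → K} (hf : DfF L f) (hg : DfF L g) : Df L (fun v => f v < g v) := by
  have h1 : Df L (fun v : Option α → K => v none < g (fun i => v (some i))) :=
    Df.subst (Q := fun y (v : Option α → K) => v none < y) (Dlt' _ _) (hg.relabel some)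
  exact Df.subst (Q := fun y v => y < g v) h1 hf

theorem Dle {f g : (α → K) → K} (hf : DfF L f) (hg : DfF L g) : Df L (fun v => f v ≤ g v) :=
  (Dlt hg hf).not.congr fun _ => not_lt

theorem Dadd {f g : (α → K) → K} (hf : DfF L f) (hg : DfF L g) : DfF L (fun v => f v + g v) := by
  have h0 : Df L (fun v : Fin 3 → K => v 0 + v 1 = v 2) :=
    Set.Definable.mono (DC.add (L := L) (K := K)) (Set.empty_subset _)
  have h1 : Df L (fun v : Option (Option (Option α)) → K =>
      v (some (some none)) = v (some none) + v none) :=
    (h0.relabel (![some none, none, some (some none)] : Fin 3 → Option (Option (Option α)))).congr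
      fun v => by simp [eq_comm]
  have h2 : Df L (fun v : Option (Option α) → K =>
      v (some none) = v none + g (fun i => v (some (some i)))) :=
    Df.subst (Q := fun y (v : Option (Option α) → K) => v (some none) = v none + y) h1
      (hg.relabel (fun i => some (some i)))
  exact Df.subst (Q := fun y (v : Option α → K) => v none = y + g (fun i => v (some i))) h2
    (hf.relabel some)

theorem Dsub {f g : (α → K) → K} (hf : DfF L f) (hg : DfF L g) : DfF L (fun v => f v - g v) := by
  have h1 : Df L (fun v : Option α → K => v none + g (fun i => v (some i)) =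
      f (fun i => v (some i))) :=
    Df.eq (Dadd (DfF.var none) (hg.relabel some)) (hf.relabel some)
  exact h1.congr fun v => by constructor <;> intro h <;> linarith

theorem Dneg {f : (α → K) → K} (hf : DfF L f) : DfF L (fun v => - f v) := by
  have h := Dsub (DfF.const (L := L) (α := α) (0 : K)) hf
  simpa using h

theorem Dabs {f : (α → K) → K} (hf : DfF L f) : DfF L (fun v => |f v|) := by
  have hf' : DfF L (fun v : Option α → K => f (fun i => v (some i))) := hf.relabel some
  have h1 : Df L (fun v : Option α → K =>
      (0 ≤ f (fun i => v (some i)) ∧ v none = f (fun i => v (some i))) ∨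
      (f (fun i => v (some i)) < 0 ∧ v none = 0 - f (fun i => v (some i)))) :=
    (((Dle (DfF.const 0) hf').and (Df.eq (DfF.var none) hf'))).or
      ((Dlt hf' (DfF.const 0)).and
        (Df.eq (DfF.var none) (Dsub (DfF.const 0) hf')))
  refine h1.congr fun v => ?_
  show _ ↔ v none = |f fun i => v (some i)|
  rcases le_or_gt 0 (f fun i => v (some i)) with h | h
  · rw [abs_of_nonneg h]
    constructor
    · rintro (⟨-, h'⟩ | ⟨h', -⟩)
      · exact h'
      · exact absurd h (not_le.2 h')
    · exact fun h' => Or.inl ⟨h, h'⟩
  · rw [abs_of_neg h]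
    constructor
    · rintro (⟨h', -⟩ | ⟨-, h'⟩)
      · exact absurd h' (not_le.2 h)
      · rw [h']; ring
    · exact fun h' => Or.inr ⟨h, by rw [h']; ring⟩

theorem Dmul {f g : (α → K) → K} (hf : DfF L f) (hg : DfF L g) : DfF L (fun v => f v * g v) := by
  have h0 : Df L (fun v : Fin 3 → K => v 0 * v 1 = v 2) :=
    Set.Definable.mono (DC.mul (L := L) (K := K)) (Set.empty_subset _)
  have h1 : Df L (fun v : Option (Option (Option α)) → K =>
      v (some (some none)) = v (some none) * v none) :=
    (h0.relabel (![some none, none, some (some none)] : Fin 3 → Option (Option (Option α)))).congr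
      fun v => by simp [eq_comm]
  have h2 : Df L (fun v : Option (Option α) → K =>
      v (some none) = v none * g (fun i => v (some (some i)))) :=
    Df.subst (Q := fun y (v : Option (Option α) → K) => v (some none) = v none * y) h1
      (hg.relabel (fun i => some (some i)))
  exact Df.subst (Q := fun y (v : Option α → K) => v none = y * g (fun i => v (some i))) h2
    (hf.relabel some)

omit [Field K] [LinearOrder K] [IsStrictOrderedRing K] [DC L K] [Finite α] in
theorem Dvar (i : α) : DfF L (fun v : α → K => v i) := DfF.var i

omit [Field K] [LinearOrder K] [IsStrictOrderedRing K] [DC L K] [Finite α] in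
theorem Dconst (c : K) : DfF L (fun _ : α → K => c) := DfF.const c

omit [Field K] [LinearOrder K] [IsStrictOrderedRing K] [DC L K] in
theorem D1.mem {C : Set K} (h : D1 L C) {f : (α → K) → K} (hf : DfF L f) :
    Df L (fun v => f v ∈ C) :=
  Df.subst (Q := fun y _ => y ∈ C)
    (Df.relabel (fun _ => none : Unit → Option α) h) hf

end

omit [Field K] [LinearOrder K] [IsStrictOrderedRing K] [DC L K] in
theorem D1.of {C : Set K} {α : Type} (i : α) (h : Df L (fun v : α → K => v i ∈ C)) : D1 L C :=
  (h.relabel (fun _ => () : α → Unit)).congr fun _ => Iff.rfl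

end Pool.Agent.K3h92.OC
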