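import Mathlib
import Pool.Agent.K3h92.OC.Df

set_option autoImplicit false

/-! Definable topology over a definably complete expansion of an ordered field. -/

namespace Pool.Agent.K3h92.OC

open FirstOrder FirstOrder.Language Set Filter Topology

/-- Adjoin a coordinate. -/
def cons {K β : Type} (y : K) (x : β → K) : Option β → K := fun o => o.elim y x

@[simp] theorem cons_none {K β : Type} (y : K) (x : β → K) : cons y x none = y := rfl

@[simp] theorem cons_some {K β : Type} (y : K) (x : β → K) (i : β) : cons y x (some i) = x i := rfl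

theorem cons_eta {K β : Type} (v : Option β → K) : cons (v none) (fun i => v (some i)) = v := by
  funext o
  cases o <;> rfl

theorem comp_elim {K β δ : Type} (w : δ → K) (a : δ) (σ : β → δ) :
    (fun o : Option β => w (o.elim a σ)) = cons (w a) (fun i => w (σ i)) := by
  funext o
  cases o <;> rfl

theorem continuous_cons {K X β : Type} [TopologicalSpace K] [TopologicalSpace X] {y : X → K}
    {x : X → β → K} (hy : Continuous y) (hx : Continuous x) :
    Continuous (fun a => cons (y a) (x a)) := by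
  refine continuous_pi fun o => ?_
  cases o with
  | none => exact hy
  | some i => exact (continuous_apply i).comp hx

theorem isClosed_all {X ι : Type} [TopologicalSpace X] {p : ι → X → Prop}
    (h : ∀ i, IsClosed {x | p i x}) : IsClosed {x | ∀ i, p i x} := by
  rw [ofPred_forall]
  exact isClosed_iInter h

theorem isOpen_all_fin {X ι : Type} [Finite ι] [TopologicalSpace X] {p : ι → X → Prop}
    (h : ∀ i, IsOpen {x | p i x}) : IsOpen {x | ∀ i, p i x} := by
  rw [ofPred_forall]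
  exact isOpen_iInter_of_finite h

theorem isClosed_ex_fin {X ι : Type} [Finite ι] [TopologicalSpace X] {p : ι → X → Prop}
    (h : ∀ i, IsClosed {x | p i x}) : IsClosed {x | ∃ i, p i x} := by
  rw [ofPred_exists]
  exact isClosed_iUnion_of_finite h

section Boxes

variable {K : Type} [Field K] [LinearOrder K] [IsStrictOrderedRing K] [TopologicalSpace K]
  [OrderTopology K]

theorem nhds_ball (x : K) : (𝓝 x).HasBasis (fun r : K => 0 < r) (fun r => {y | |y - x| < r}) :=
  nhds_basis_abs_sub_lt x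

theorem nhds_box {β : Type} [Finite β] (x : β → K) :
    (𝓝 x).HasBasis (fun r : K => 0 < r) (fun r => {y | ∀ i, |y i - x i| < r}) := by
  have := Fintype.ofFinite β
  constructor
  intro U
  rw [nhds_pi]
  constructor
  · intro hU
    rw [Filter.mem_pi'] at hU
    obtain ⟨I, t, ht, hIt⟩ := hU
    have h1 : ∀ i, ∃ r : K, 0 < r ∧ {y | |y - x i| < r} ⊆ t i := fun i =>
      (nhds_ball (x i)).mem_iff.1 (ht i)
    choose r hr hrt using h1
    obtain ⟨M, hM, hM'⟩ : ∃ M : K, 0 < M ∧ ∀ i, M ≤ r i := by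
      rcases isEmpty_or_nonempty β with h | h
      · exact ⟨1, one_pos, fun i => (IsEmpty.false i).elim⟩
      · obtain ⟨i, hi⟩ := Finite.exists_min r
        exact ⟨r i, hr i, hi⟩
    refine ⟨M, hM, fun y hy => hIt ?_⟩
    intro i _
    exact hrt i (lt_of_lt_of_le (hy i) (hM' i))
  · rintro ⟨r, hr, h⟩
    refine Filter.mem_of_superset ?_ h
    have : {y : β → K | ∀ i, |y i - x i| < r} = Set.pi univ (fun i => {y | |y - x i| < r}) := by
      ext y; simp
    rw [this]
    exact Filter.pi_mem_pi Set.finite_univ (fun i _ => (nhds_ball (x i)).mem_of_mem hr)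

theorem ev_ball {x : K} {P : K → Prop} :
    (∀ᶠ y in 𝓝 x, P y) ↔ ∃ r > 0, ∀ y, |y - x| < r → P y :=
  (nhds_ball x).eventually_iff

theorem ev_box {β : Type} [Finite β] {x : β → K} {P : (β → K) → Prop} :
    (∀ᶠ y in 𝓝 x, P y) ↔ ∃ r > 0, ∀ y, (∀ i, |y i - x i| < r) → P y :=
  (nhds_box x).eventually_iff

theorem ev_prod {β : Type} [Finite β] {x : β → K} {y : K} {P : (β → K) × K → Prop} :
    (∀ᶠ p in 𝓝 (x, y), P p) ↔
      ∃ r > 0, ∀ x' y', (∀ i, |x' i - x i| < r) → |y' - y| < r → P (x', y') := by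
  rw [nhds_prod_eq, ((nhds_box x).prod (nhds_ball y)).eventually_iff]
  constructor
  · rintro ⟨⟨r, s⟩, ⟨hr, hs⟩, h⟩
    refine ⟨min r s, lt_min hr hs, fun x' y' hx hy => ?_⟩
    exact @h (x', y') ⟨fun i => (hx i).trans_le (min_le_left _ _), hy.trans_le (min_le_right _ _)⟩
  · rintro ⟨r, hr, h⟩
    exact ⟨(r, r), ⟨hr, hr⟩, fun p hp => h p.1 p.2 hp.1 hp.2⟩

theorem ev_box2 {β δ : Type} [Finite β] [Finite δ] {O : (β → K) × (δ → K) → Prop}
    {x : β → K} {w : δ → K} : (∀ᶠ p in 𝓝 (x, w), O p) ↔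
    ∃ r > 0, ∀ x' w', (∀ i, |x' i - x i| < r) → (∀ j, |w' j - w j| < r) → O (x', w') := by
  rw [nhds_prod_eq, ((nhds_box x).prod (nhds_box w)).eventually_iff]
  constructor
  · rintro ⟨⟨r, s⟩, ⟨hr, hs⟩, h⟩
    refine ⟨min r s, lt_min hr hs, fun x' y' hx hy => ?_⟩
    exact @h (x', y') ⟨fun i => (hx i).trans_le (min_le_left _ _),
      fun i => (hy i).trans_le (min_le_right _ _)⟩
  · rintro ⟨r, hr, h⟩
    exact ⟨(r, r), ⟨hr, hr⟩, fun p hp => h p.1 p.2 hp.1 hp.2⟩

theorem isOpen_box {β : Type} [Finite β] (x₁ : β → K) (r : K) :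
    IsOpen {x : β → K | ∀ i, |x i - x₁ i| < r} :=
  isOpen_all_fin fun i => isOpen_lt (by fun_prop) continuous_const

theorem isClosed_box {β : Type} (x₁ : β → K) (r : K) :
    IsClosed {x : β → K | ∀ i, |x i - x₁ i| ≤ r} :=
  isClosed_all fun i => isClosed_le (by fun_prop) continuous_const

theorem mem_closure_ball {S : Set K} {x : K} :
    x ∈ closure S ↔ ∀ ε, 0 < ε → ∃ y ∈ S, |y - x| < ε := by
  exact mem_closure_iff_nhds_basis' (nhds_ball x) |>.trans
    (forall₂_congr fun ε _ => ⟨fun ⟨y, h1, h2⟩ => ⟨y, h2, h1⟩, fun ⟨y, h1, h2⟩ => ⟨y, h2, h1⟩⟩)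

theorem mem_closure_box {β : Type} [Finite β] {S : Set (β → K)} {x : β → K} :
    x ∈ closure S ↔ ∀ ε, 0 < ε → ∃ y ∈ S, ∀ i, |y i - x i| < ε := by
  exact mem_closure_iff_nhds_basis' (nhds_box x) |>.trans
    (forall₂_congr fun ε _ => ⟨fun ⟨y, h1, h2⟩ => ⟨y, h2, h1⟩, fun ⟨y, h1, h2⟩ => ⟨y, h2, h1⟩⟩)

theorem mem_closure_box2 {β δ : Type} [Finite β] [Finite δ] {N : (β → K) → (δ → K) → Prop}
    {x : β → K} {w : δ → K} : (x, w) ∈ closure {p : (β → K) × (δ → K) | N p.1 p.2} ↔
    ∀ ε, 0 < ε → ∃ x' w', (∀ i, |x' i - x i| < ε) ∧ (∀ j, |w' j - w j| < ε) ∧ N x' w' := by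
  rw [mem_closure_iff_frequently]
  constructor
  · intro h ε hε
    by_contra hcon
    push Not at hcon
    apply h
    exact ev_box2.2 ⟨ε, hε, fun x' w' h1 h2 => hcon x' w' h1 h2⟩
  · intro h hev
    obtain ⟨r, hr, hbox⟩ := ev_box2.1 hev
    obtain ⟨x', w', h1, h2, h3⟩ := h r hr
    exact hbox x' w' h1 h2 h3

theorem isClosed_of_ball {S : Set K} (h : ∀ x, (∀ ε, 0 < ε → ∃ y ∈ S, |y - x| < ε) → x ∈ S) :
    IsClosed S := by
  rw [← closure_subset_iff_isClosed]
  intro x hx
  exact h x (mem_closure_ball.1 hx)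

theorem exists_notMem_of_interior {A : Set K} (hA : interior A = ∅) {a b : K} (hab : a < b) :
    ∃ z, a < z ∧ z < b ∧ z ∉ A := by
  by_contra hcon
  push Not at hcon
  have : Set.Ioo a b ⊆ interior A := interior_maximal (fun z hz => hcon z hz.1 hz.2) isOpen_Ioo
  rw [hA] at this
  exact this (⟨by linarith, by linarith⟩ : (a + b) / 2 ∈ Set.Ioo a b)

end Boxes

section

variable {K : Type} [Field K] [LinearOrder K] [IsStrictOrderedRing K]
variable {L : FirstOrder.Language.{0, 0}} [L.Structure K] [DC L K]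

theorem exists_lub {S : Set K} (hS : D1 L S) (hne : S.Nonempty) (hb : BddAbove S) :
    ∃ s, IsLUB S s :=
  DC.lub (L := L) S (hS.relabel (fun _ => 0 : Unit → Fin 1)) hne hb

theorem exists_glb {S : Set K} (hS : D1 L S) (hne : S.Nonempty) (hb : BddBelow S) :
    ∃ s, IsGLB S s := by
  obtain ⟨s, hs⟩ := exists_lub (L := L) (S := {x | -x ∈ S}) (by
    show Df L (fun v : Unit → K => -v () ∈ S)
    (repeat' (intros; beta_reduce; first | apply (hS.mem) | exact Dvar _ | exact Dconst _ | assumption | apply Dadd | apply Dsub | apply Dmul | apply Dneg | apply Dabs | apply Dlt | apply Dle | apply Deq | apply Df.and | apply Df.or | apply Df.not | apply Df.iff | apply Df.imp | apply Df.ex1 | apply Df.all1 | apply Df.exT | apply Df.allT | apply Df.all_fin | apply Df.ex_fin | exact Df.const _))) (by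
    obtain ⟨x, hx⟩ := hne
    exact ⟨-x, by simpa using hx⟩) (by
    obtain ⟨m, hm⟩ := hb
    refine ⟨-m, fun x hx => ?_⟩
    have := hm hx
    linarith)
  refine ⟨-s, fun x hx => ?_, fun m hm => ?_⟩
  · have := hs.1 (show -x ∈ {x | -x ∈ S} by simpa using hx)
    linarith
  · have := hs.2 (show -m ∈ upperBounds {x | -x ∈ S} from fun x hx => by
      have := hm hx
      linarith)
    linarith

variable [TopologicalSpace K] [OrderTopology K]

theorem exists_max {S : Set K} (hS : D1 L S) (hc : IsClosed S) (hne : S.Nonempty)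
    (hb : BddAbove S) : ∃ m ∈ S, ∀ x ∈ S, x ≤ m := by
  obtain ⟨s, hs⟩ := exists_lub hS hne hb
  exact ⟨s, hs.mem_of_isClosed hne hc, fun x hx => hs.1 hx⟩

theorem exists_min {S : Set K} (hS : D1 L S) (hc : IsClosed S) (hne : S.Nonempty)
    (hb : BddBelow S) : ∃ m ∈ S, ∀ x ∈ S, m ≤ x := by
  obtain ⟨s, hs⟩ := exists_glb hS hne hb
  exact ⟨s, hs.mem_of_isClosed hne hc, fun x hx => hs.1 hx⟩

omit [TopologicalSpace K] [OrderTopology K] in
/-- Definable connectedness of intervals. -/
theorem interval_induction {a b : K} (hab : a ≤ b) {P : K → Prop}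
    (hP : Df L (fun v : Unit → K => P (v ()))) (h0 : P a)
    (hl : ∀ x, a ≤ x → x ≤ b → ∃ ε > 0, ∀ y, a ≤ y → y ≤ b → |y - x| < ε → (P y ↔ P x)) :
    P b := by
  set S : Set K := {x | a ≤ x ∧ x ≤ b ∧ ∀ y, a ≤ y → y ≤ x → P y} with hS
  have hSd : D1 L S := by
    show Df L (fun v : Unit → K => a ≤ v () ∧ v () ≤ b ∧ ∀ y, a ≤ y → y ≤ v () → P y)
    have h1 : D1 L {x | P x} := hP
    (repeat' (intros; beta_reduce; first | apply (h1.mem) | exact Dvar _ | exact Dconst _ | assumption | apply Dadd | apply Dsub | apply Dmul | apply Dneg | apply Dabs | apply Dlt | apply Dle | apply Deq | apply Df.and | apply Df.or | apply Df.not | apply Df.iff | apply Df.imp | apply Df.ex1 | apply Df.all1 | apply Df.exT | apply Df.allT | apply Df.all_fin | apply Df.ex_fin | exact Df.const _))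
  have haS : a ∈ S := ⟨le_rfl, hab, fun y h1 h2 => by rwa [le_antisymm h2 h1]⟩
  obtain ⟨s, hs⟩ := exists_lub hSd ⟨a, haS⟩ ⟨b, fun x hx => hx.2.1⟩
  have has : a ≤ s := hs.1 haS
  have hsb : s ≤ b := hs.2 fun x hx => hx.2.1
  obtain ⟨ε, hε, hloc⟩ := hl s has hsb
  obtain ⟨x, hx, hsx⟩ : ∃ x ∈ S, s - ε < x := by
    by_contra hcon
    push Not at hcon
    have := hs.2 (show s - ε ∈ upperBounds S from fun x hx => hcon x hx)
    linarith
  have hxs : x ≤ s := hs.1 hx
  have hPs : P s := (hloc x hx.1 hx.2.1 (abs_lt.2 ⟨by linarith, by linarith⟩)).1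
    (hx.2.2 x hx.1 le_rfl)
  have hlt : ∀ y, a ≤ y → y < s + ε → y ≤ b → P y := by
    intro y h1 h2 h3
    rcases le_or_gt y x with h | h
    · exact hx.2.2 y h1 h
    · exact (hloc y h1 h3 (abs_lt.2 ⟨by linarith, by linarith⟩)).2 hPs
  by_contra hcon
  have hsb' : s < b := lt_of_le_of_ne hsb fun h => hcon (h ▸ hPs)
  have : min (s + ε / 2) b ∈ S := by
    refine ⟨le_min (by linarith) hab, min_le_right _ _, fun y h1 h2 => ?_⟩
    have h3 := h2.trans (min_le_left _ _)
    exact hlt y h1 (by linarith) (h2.trans (min_le_right _ _))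
  have h4 := hs.1 this
  rcases min_le_iff.1 h4 with h | h <;> linarith

theorem dcompact1 {β : Type} [Finite β] {P : (β → K) → K → Prop}
    (hP : Df L (fun w : Option β → K => P (fun i => w (some i)) (w none))) {x₀ : β → K} {a b : K}
    (h : ∀ y, a ≤ y → y ≤ b → ∀ᶠ p in 𝓝 (x₀, y), P p.1 p.2) :
    ∀ᶠ x in 𝓝 x₀, ∀ y, a ≤ y → y ≤ b → P x y := by
  rcases lt_or_ge b a with hab | hab
  · exact Eventually.of_forall fun x y h1 h2 => absurd (h1.trans h2) (not_le.2 hab)
  rw [ev_box]
  have hP' : ∀ {α : Type} [Finite α] {f : β → (α → K) → K} {g : (α → K) → K},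
      (∀ i, DfF L (f i)) → DfF L g → Df L (fun v => P (fun i => f i v) (g v)) := by
    intro α _ f g hf hg
    exact Df.substT (f := fun (o : Option β) (v : α → K) => o.elim (g v) (fun i => f i v)) hP (by
      rintro (_ | i)
      · exact hg
      · exact hf i)
  refine interval_induction (L := L) (P := fun s => ∃ ε > 0, ∀ x : β → K,
    (∀ i, |x i - x₀ i| < ε) → ∀ y, a ≤ y → y ≤ s → P x y) hab ?_ ?_ ?_
  · (repeat' (intros; beta_reduce; first | apply (hP') | exact Dvar _ | exact Dconst _ | assumption | apply Dadd | apply Dsub | apply Dmul | apply Dneg | apply Dabs | apply Dlt | apply Dle | apply Deq | apply Df.and | apply Df.or | apply Df.not | apply Df.iff | apply Df.imp | apply Df.ex1 | apply Df.all1 | apply Df.exT | apply Df.allT | apply Df.all_fin | apply Df.ex_fin | exact Df.const _))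
  · obtain ⟨r, hr, h'⟩ := ev_prod.1 (h a le_rfl hab)
    refine ⟨r, hr, fun x hx y h1 h2 => h' x y hx ?_⟩
    rw [le_antisymm h2 h1]
    simpa using hr
  · intro s has hsb
    obtain ⟨r, hr, h'⟩ := ev_prod.1 (h s has hsb)
    refine ⟨r, hr, fun y hay hyb hys => ?_⟩
    have key : ∀ u v : K, |u - s| < r → |v - s| < r → (∃ ε > 0, ∀ x : β → K,
        (∀ i, |x i - x₀ i| < ε) → ∀ y, a ≤ y → y ≤ u → P x y) → (∃ ε > 0, ∀ x : β → K,
        (∀ i, |x i - x₀ i| < ε) → ∀ y, a ≤ y → y ≤ v → P x y) := by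
      rintro u v hu hv ⟨ε, hε, h1⟩
      refine ⟨min ε r, lt_min hε hr, fun x hx y h2 h3 => ?_⟩
      rcases le_or_gt y u with h4 | h4
      · exact h1 x (fun i => (hx i).trans_le (min_le_left _ _)) y h2 h4
      · refine h' x y (fun i => (hx i).trans_le (min_le_right _ _)) ?_
        rw [abs_lt] at hu hv ⊢
        constructor <;> linarith
    have hss : |s - s| < r := by simpa using hr
    exact ⟨key y s hys hss, key s y hss hys⟩

theorem dcompact_aux (γ : Type) [Finite γ] : Finite γ → ∀ (β : Type) [Finite β]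
    (P : (β → K) → (γ → K) → Prop),
    Df L (fun w : β ⊕ γ → K => P (fun i => w (Sum.inl i)) (fun j => w (Sum.inr j))) →
    ∀ (x₀ : β → K) (t : K), (∀ w : γ → K, (∀ j, |w j| ≤ t) → ∀ᶠ p in 𝓝 (x₀, w), P p.1 p.2) →
    ∀ᶠ x in 𝓝 x₀, ∀ w : γ → K, (∀ j, |w j| ≤ t) → P x w := by
  induction γ using Finite.induction_empty_option with
  | @of_equiv γ₁ γ₂ e ih =>
    intro hγ β _ P hP x₀ t h
    have hγ' := Finite.of_equiv _ e.symm
    have h1 := ih hγ' β (fun x w => P x (fun j => w (e.symm j))) ?_ x₀ t ?_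
    · filter_upwards [h1] with x hx w hw
      have := hx (fun i => w (e i)) (fun i => hw _)
      simpa using this
    · exact (hP.relabel (Sum.map id e.symm)).congr fun w => Iff.rfl
    · intro w hw
      have h2 := h (fun j => w (e.symm j)) (fun j => hw _)
      rw [ev_box2] at h2 ⊢
      obtain ⟨r, hr, h3⟩ := h2
      exact ⟨r, hr, fun x' w' h4 h5 => h3 x' _ h4 fun j => h5 _⟩
  | h_empty =>
    intro _ β _ P hP x₀ t h
    have h2 := h (fun j => j.elim) (fun j => j.elim)
    rw [ev_box2] at h2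
    obtain ⟨r, hr, h3⟩ := h2
    rw [ev_box]
    exact ⟨r, hr, fun x hx w hw => h3 x w hx fun j => j.elim⟩
  | @h_option γ _ ih =>
    intro _ β _ P hP x₀ t h
    have hP' : ∀ {α : Type} [Finite α] {f : β → (α → K) → K} {g : Option γ → (α → K) → K},
        (∀ i, DfF L (f i)) → (∀ j, DfF L (g j)) →
        Df L (fun v => P (fun i => f i v) (fun j => g j v)) := by
      intro α _ f g hf hg
      exact Df.substT (f := fun (o : β ⊕ Option γ) (v : α → K) =>
        Sum.elim (fun i => f i v) (fun j => g j v) o) hP (by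
        rintro (i | j)
        · exact hf i
        · exact hg j)
    have h1 := dcompact1 (L := L) (P := fun (x : β → K) a => ∀ w' : γ → K, (∀ j, |w' j| ≤ t) →
      P x (cons a w')) ?_ (x₀ := x₀) (a := -t) (b := t) ?_
    · filter_upwards [h1] with x hx w hw
      have h2 := abs_le.1 (hw none)
      have h3 := hx (w none) h2.1 h2.2 (fun j => w (some j)) (fun j => hw _)
      rwa [cons_eta] at h3
    · refine Df.allT (Q := fun (w' : γ → K) (w : Option β → K) => (∀ j, |w' j| ≤ t) →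
        P (fun i => w (some i)) (cons (w none) w')) ?_
      refine Df.imp (by (repeat' (intros; beta_reduce; first | exact Dvar _ | exact Dconst _ | assumption | apply Dadd | apply Dsub | apply Dmul | apply Dneg | apply Dabs | apply Dlt | apply Dle | apply Deq | apply Df.and | apply Df.or | apply Df.not | apply Df.iff | apply Df.imp | apply Df.ex1 | apply Df.all1 | apply Df.exT | apply Df.allT | apply Df.all_fin | apply Df.ex_fin | exact Df.const _))) ?_
      refine hP' (f := fun i (w : Option β ⊕ γ → K) => w (Sum.inl (some i)))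
        (g := fun j (w : Option β ⊕ γ → K) => cons (w (Sum.inl none)) (fun i => w (Sum.inr i)) j)
        (fun i => Dvar _) ?_
      rintro (_ | j)
      · exact Dvar _
      · exact Dvar _
    · intro a ha1 ha2
      have h2 := ih inferInstance (Option β) (fun v w' => P (fun i => v (some i)) (cons (v none) w')) ?_
        (cons a x₀) t ?_
      · rw [ev_box] at h2
        obtain ⟨r, hr, h3⟩ := h2
        rw [ev_prod]
        refine ⟨r, hr, fun x' y' h4 h5 w' hw' => ?_⟩
        refine h3 (cons y' x') ?_ w' hw'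
        rintro (_ | i)
        · exact h5
        · exact h4 i
      · refine hP' (f := fun i (w : Option β ⊕ γ → K) => w (Sum.inl (some i)))
          (g := fun j (w : Option β ⊕ γ → K) => cons (w (Sum.inl none)) (fun i => w (Sum.inr i)) j)
          (fun i => Dvar _) ?_
        rintro (_ | j)
        · exact Dvar _
        · exact Dvar _
      · intro w' hw'
        have h3 := h (cons a w') (by
          rintro (_ | j)
          · exact abs_le.2 ⟨ha1, ha2⟩
          · exact hw' j)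
        rw [ev_box2] at h3 ⊢
        obtain ⟨r, hr, h4⟩ := h3
        refine ⟨r, hr, fun v u h5 h6 => h4 _ _ (fun i => h5 (some i)) ?_⟩
        rintro (_ | j)
        · exact h5 none
        · exact h6 j

/-- Definable compactness of boxes. -/
theorem dcompact {β γ : Type} [Finite β] [Finite γ] {P : (β → K) → (γ → K) → Prop}
    (hP : Df L (fun w : β ⊕ γ → K => P (fun i => w (Sum.inl i)) (fun j => w (Sum.inr j))))
    {x₀ : β → K} {t : K} (h : ∀ w : γ → K, (∀ j, |w j| ≤ t) → ∀ᶠ p in 𝓝 (x₀, w), P p.1 p.2) :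
    ∀ᶠ x in 𝓝 x₀, ∀ w : γ → K, (∀ j, |w j| ≤ t) → P x w :=
  dcompact_aux γ inferInstance β P hP x₀ t h

theorem proj_closed {β γ : Type} [Finite β] [Finite γ] {Y : (β → K) → (γ → K) → Prop}
    (hY : Df L (fun w : β ⊕ γ → K => Y (fun i => w (Sum.inl i)) (fun j => w (Sum.inr j))))
    (hc : IsClosed {p : (β → K) × (γ → K) | Y p.1 p.2}) (t : K) :
    IsClosed {x | ∃ w : γ → K, (∀ j, |w j| ≤ t) ∧ Y x w} := by
  rw [← isOpen_compl_iff, isOpen_iff_mem_nhds]
  intro x hx
  have hx' : ∀ w : γ → K, (∀ j, |w j| ≤ t) → ¬ Y x w := fun w hw h => hx ⟨w, hw, h⟩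
  have := dcompact (L := L) (P := fun x w => ¬ Y x w) hY.not (x₀ := x) (t := t)
    (fun w hw => hc.isOpen_compl.mem_nhds (hx' w hw))
  filter_upwards [this] with x' hx''
  rintro ⟨w, hw, h⟩
  exact hx'' w hw h

theorem proj_closed1 {β : Type} [Finite β] {Y : (β → K) → K → Prop}
    (hY : Df L (fun w : Option β → K => Y (fun i => w (some i)) (w none)))
    (hc : IsClosed {p : (β → K) × K | Y p.1 p.2}) (a b : K) :
    IsClosed {x | ∃ y, a ≤ y ∧ y ≤ b ∧ Y x y} := by
  rw [← isOpen_compl_iff, isOpen_iff_mem_nhds]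
  intro x hx
  have hx' : ∀ y, a ≤ y → y ≤ b → ¬ Y x y := fun w hw hw' h => hx ⟨w, hw, hw', h⟩
  have := dcompact1 (L := L) (P := fun x w => ¬ Y x w) hY.not (x₀ := x) (a := a) (b := b)
    (fun w hw hw' => hc.isOpen_compl.mem_nhds (hx' w hw hw'))
  filter_upwards [this] with x' hx''
  rintro ⟨w, hw, hw', h⟩
  exact hx'' w hw hw' h

/-- Decreasing families of closed bounded sets. -/
theorem nested {D : Set K} (hD : D1 L D) (hne : D.Nonempty) {V : K → K → Prop}
    (hV : Df L (fun w : Fin 2 → K => V (w 0) (w 1))) (hc : ∀ d ∈ D, IsClosed {y | V d y})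
    (hV0 : ∀ d ∈ D, ∃ y, V d y) (hm : ∀ d ∈ D, ∀ d' ∈ D, d ≤ d' → ∀ y, V d' y → V d y) (R : K)
    (hR : ∀ d ∈ D, ∀ y, V d y → |y| ≤ R) : ∃ y, ∀ d ∈ D, V d y := by
  have hV' : ∀ {α : Type} [Finite α] {f g : (α → K) → K}, DfF L f → DfF L g →
      Df L (fun v => V (f v) (g v)) := by
    intro α _ f g hf hg
    exact (Df.substT (f := fun (o : Fin 2) (v : α → K) => ![f v, g v] o) hV (by
      intro j
      fin_cases j
      · exact hf
      · exact hg)).congr fun v => Iff.rfl
  have hmin : ∀ d ∈ D, ∃ m, V d m ∧ ∀ y, V d y → m ≤ y := by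
    intro d hd
    have h1 : D1 L {y | V d y} := by
      show Df L (fun v : Unit → K => V d (v ()))
      (repeat' (intros; beta_reduce; first | apply (hV') | exact Dvar _ | exact Dconst _ | assumption | apply Dadd | apply Dsub | apply Dmul | apply Dneg | apply Dabs | apply Dlt | apply Dle | apply Deq | apply Df.and | apply Df.or | apply Df.not | apply Df.iff | apply Df.imp | apply Df.ex1 | apply Df.all1 | apply Df.exT | apply Df.allT | apply Df.all_fin | apply Df.ex_fin | exact Df.const _))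
    obtain ⟨m, hm, hm'⟩ := exists_min h1 (hc d hd) (hV0 d hd)
      ⟨-R, fun y hy => (abs_le.1 (hR d hd y hy)).1⟩
    exact ⟨m, hm, hm'⟩
  set S : Set K := {y | ∃ d ∈ D, V d y ∧ ∀ y', V d y' → y ≤ y'} with hS
  have hSd : D1 L S := by
    show Df L (fun v : Unit → K => ∃ d ∈ D, V d (v ()) ∧ ∀ y', V d y' → v () ≤ y')
    (repeat' (intros; beta_reduce; first | apply (hV') | apply (hD.mem) | exact Dvar _ | exact Dconst _ | assumption | apply Dadd | apply Dsub | apply Dmul | apply Dneg | apply Dabs | apply Dlt | apply Dle | apply Deq | apply Df.and | apply Df.or | apply Df.not | apply Df.iff | apply Df.imp | apply Df.ex1 | apply Df.all1 | apply Df.exT | apply Df.allT | apply Df.all_fin | apply Df.ex_fin | exact Df.const _))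
  obtain ⟨d₀, hd₀⟩ := hne
  obtain ⟨m₀, hm₀, hm₀'⟩ := hmin d₀ hd₀
  obtain ⟨s, hs⟩ := exists_lub hSd ⟨m₀, d₀, hd₀, hm₀, hm₀'⟩ ⟨R, by
    rintro y ⟨d, hd, hy, -⟩
    exact (abs_le.1 (hR d hd y hy)).2⟩
  refine ⟨s, fun d hd => ?_⟩
  have : s ∈ closure {y | V d y} := by
    rw [mem_closure_ball]
    intro ε hε
    obtain ⟨m, ⟨d', hd', hm1, hm2⟩, hlt⟩ : ∃ m ∈ S, s - ε < m := by
      by_contra hcon
      push Not at hcon
      have := hs.2 (show s - ε ∈ upperBounds S from fun x hx => hcon x hx)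
      linarith
    obtain ⟨d'', hd'', h1, h2⟩ : ∃ d'' ∈ D, d ≤ d'' ∧ d' ≤ d'' := by
      rcases le_total d d' with h | h
      · exact ⟨d', hd', h, le_rfl⟩
      · exact ⟨d, hd, le_rfl, h⟩
    obtain ⟨m'', hm1'', hm2''⟩ := hmin d'' hd''
    have h3 : m ≤ m'' := hm2 _ (hm d' hd' d'' hd'' h2 _ hm1'')
    have h4 : m'' ≤ s := hs.1 ⟨d'', hd'', hm1'', hm2''⟩
    exact ⟨m'', hm d hd d'' hd'' h1 _ hm1'', abs_lt.2 ⟨by linarith, by linarith⟩⟩
  rwa [(hc d hd).closure_eq] at this

/-- Finitely many scales below a bound. -/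
theorem ev_le {β : Type} [Finite β] {D : Set K} (hD : D1 L D)
    (hiso : ∀ t, ∃ ε > 0, ∀ t' ∈ D, |t' - t| < ε → t' = t) {A : K → (β → K) → Prop}
    (hA : Df L (fun w : Option β → K => A (w none) (fun i => w (some i)))) {x₀ : β → K}
    (h : ∀ d ∈ D, ∀ᶠ x in 𝓝 x₀, A d x) (a b : K) :
    ∀ᶠ x in 𝓝 x₀, ∀ d ∈ D, a ≤ d → d ≤ b → A d x := by
  have h1 := dcompact1 (L := L) (P := fun x d => d ∈ D → A d x) (x₀ := x₀) (a := a) (b := b)
    (Df.imp (hD.mem (Dvar _)) hA) ?_
  · filter_upwards [h1] with x hx d hd h1 h2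
    exact hx d h1 h2 hd
  · intro d _ _
    obtain ⟨ε, hε, hd⟩ := hiso d
    by_cases hdD : d ∈ D
    · obtain ⟨r, hr, h2⟩ := ev_box.1 (h d hdD)
      rw [ev_prod]
      refine ⟨min ε r, lt_min hε hr, fun x' y' h3 h4 h5 => ?_⟩
      rw [hd y' h5 (h4.trans_le (min_le_left _ _))]
      exact h2 x' fun i => (h3 i).trans_le (min_le_right _ _)
    · rw [ev_prod]
      refine ⟨ε, hε, fun x' y' h3 h4 h5 => ?_⟩
      rw [hd y' h5 h4] at h5
      exact absurd h5 hdD

end

end Pool.Agent.K3h92.OC
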