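import Mathlib
import Pool.Agent.K3h92.OC.Top

set_option autoImplicit false

/-! Definitions and statements for the open core of a restrained definably complete field. -/

namespace Pool.Agent.K3h92.OC

open FirstOrder FirstOrder.Language Set Filter Topology

section

variable (L : FirstOrder.Language.{0, 0}) (K : Type) [Field K] [LinearOrder K]
  [IsStrictOrderedRing K] [TopologicalSpace K] [L.Structure K]

/-- The structure is restrained. -/
def Restr : Prop :=
  ∀ (n : ℕ) (D : Set (Fin n → K)) (g : (Fin n → K) → K),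
    (Set.univ : Set K).Definable L D → DiscreteTopology ↥D →
    (Set.univ : Set K).Definable L
      {v : Fin (n + 1) → K | Fin.init v ∈ D ∧ v (Fin.last n) = g (Fin.init v)} →
    interior (closure (g '' D)) = ∅

/-- There is a definable unbounded discrete closed set. -/
def HasD : Prop :=
  ∃ D : Set K, D1 L D ∧ (∀ t, ∃ ε > 0, ∀ t' ∈ D, |t' - t| < ε → t' = t) ∧ ∀ R, ∃ d ∈ D, R < d

/-- In the absence of a definable unbounded discrete closed set, closed definable sets with empty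
interior are bounded and uniformly separated. -/
def Fine : Prop :=
  ∀ C : Set K, D1 L C → IsClosed C → interior C = ∅ →
    ∃ t > 0, (∀ y ∈ C, |y| ≤ t) ∧ ∀ y ∈ C, ∀ y' ∈ C, y < y' → 1 ≤ t * (y' - y)

/-- Unions of increasing definable families of closed sets with empty interior are nowhere
dense: subsets of `K`. -/
def SR1 : Prop :=
  ∀ F : K → K → Prop, Df L (fun w : Fin 2 → K => F (w 0) (w 1)) →
    (∀ t, IsClosed {y | F t y}) → (∀ t t' y, t ≤ t' → F t y → F t' y) →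
    (∀ t, interior {y | F t y} = ∅) → interior (closure {y | ∃ t, F t y}) = ∅

/-- Unions of increasing definable families of closed sets with empty interior are nowhere
dense: subsets of `K ^ β`. -/
def SR (β : Type) : Prop :=
  ∀ F : K → (β → K) → Prop, Df L (fun w : Option β → K => F (w none) (fun i => w (some i))) →
    (∀ t, IsClosed {x | F t x}) → (∀ t t' x, t ≤ t' → F t x → F t' x) →
    (∀ t, interior {x | F t x} = ∅) → interior (closure {x | ∃ t, F t x}) = ∅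

end

section

variable {K : Type} [Field K] [LinearOrder K] [IsStrictOrderedRing K] [TopologicalSpace K]
variable (L : FirstOrder.Language.{0, 0}) [L.Structure K]

/-- Closed nowhere dense definable sets. -/
structure Small {β : Type} (Z : Set (β → K)) : Prop where
  closed : IsClosed Z
  int : interior Z = ∅
  df : Df L (fun x => x ∈ Z)

/-- A definable family of subsets of `K` with closed graph without interior. -/
structure Nice {β : Type} (E : (β → K) → Set K) : Prop where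
  closed : IsClosed {p : (β → K) × K | p.2 ∈ E p.1}
  nd : interior {p : (β → K) × K | p.2 ∈ E p.1} = ∅
  df : Df L (fun w : Option β → K => w none ∈ E (fun i => w (some i)))

variable (K) in
/-- Scales. -/
structure Sc where
  D : Set K
  W : K → Set K → Set K
  hD : D1 L D
  iso : ∀ t, ∃ ε > 0, ∀ t' ∈ D, |t' - t| < ε → t' = t
  ne : D.Nonempty
  pos : ∀ d ∈ D, 0 < d
  sub : ∀ d C y, y ∈ W d C → y ∉ C
  sat : ∀ d C y y', IsClosed C → y ∈ W d C → (∀ z ∈ uIcc y y', z ∉ C) → y' ∈ W d C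
  mono : ∀ d d' C, d ≤ d' → W d C ⊆ W d' C
  anti : ∀ d C C', C ⊆ C' → W d C' ⊆ W d C
  exh : ∀ C y, IsClosed C → y ∉ C → ∃ d ∈ D, y ∈ W d C
  df : ∀ (α : Type) [Finite α] (C : (α → K) → Set K) (f g : (α → K) → K),
    Df L (fun w : Option α → K => w none ∈ C (fun i => w (some i))) → DfF L f → DfF L g →
    Df L (fun v => f v ∈ W (g v) (C v))

variable {L}

/-- Tameness of a family at a point. -/
structure TameAt (S : Sc K L) {β : Type} (E : (β → K) → Set K) (x₀ : β → K) : Prop where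
  nd : interior (E x₀) = ∅
  lsc : ∀ y ∈ E x₀, ∀ ε, 0 < ε → ∀ᶠ x in 𝓝 x₀, ∃ y' ∈ E x, |y' - y| < ε
  lcW : ∀ d ∈ S.D, ∀ y, y ∉ E x₀ →
    ∀ᶠ p : (β → K) × K in 𝓝 (x₀, y), (p.2 ∈ S.W d (E p.1) ↔ y ∈ S.W d (E x₀))
  bd : ∀ d ∈ S.D, ∃ η > 0, ∃ R, ∀ᶠ x in 𝓝 x₀, ∀ y ∈ S.W d (E x),
    ∃ y', (∀ z ∈ uIcc y y', z ∉ E x) ∧ |y'| ≤ R ∧ ∀ z, |z - y'| < η → z ∉ E x

/-- The family of `E` meets the set `A` in a box. -/
def TA {α β : Type} (A : (α → K) → Prop) (E : (β → K) → Set K) (x : β → K) (u v : α → K) : Prop :=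
  ∃ e, A e ∧ ∀ a, e a ∈ E x ∧ u a < e a ∧ e a < v a

/-- Systems of back-and-forth relations for the relation `P`. -/
structure Sys (S : Sc K L) {α β : Type} (P : (α → K) → Prop) (E : (β → K) → Set K)
    (Z : Set (β → K)) (Q : K → (β → K) → (α → K) → (β → K) → (α → K) → Prop) : Prop where
  df : Df L (fun w : Unit ⊕ (β ⊕ α) ⊕ (β ⊕ α) → K => Q (w (Sum.inl ()))
    (fun i => w (Sum.inr (Sum.inl (Sum.inl i)))) (fun i => w (Sum.inr (Sum.inl (Sum.inr i))))
    (fun i => w (Sum.inr (Sum.inr (Sum.inl i)))) (fun i => w (Sum.inr (Sum.inr (Sum.inr i)))))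
  refl : ∀ d x c, Q d x c x c
  symm : ∀ d x c x' c', Q d x c x' c' → Q d x' c' x c
  trans : ∀ d x c x' c' x'' c'', Q d x c x' c' → Q d x' c' x'' c'' → Q d x c x'' c''
  mono : ∀ d d' x c x' c', d ≤ d' → Q d' x c x' c' → Q d x c x' c'
  loc : ∀ x₀, x₀ ∉ Z → ∀ d ∈ S.D, ∃ η > 0, ∀ᶠ x in 𝓝 x₀, ∀ c₀ c : α → K,
    (∀ a, c₀ a ∈ E x₀) → (∀ a, c a ∈ E x) →
    (∀ a, ∀ y ∈ S.W d (E x₀), (∀ z ∈ E x₀, η ≤ |z - y|) → (c₀ a < y ↔ c a < y)) →
    Q d x₀ c₀ x c
  fin : ∀ x₀, x₀ ∉ Z → ∀ x₁, x₁ ∉ Z → ∀ c₀ c₁ : α → K,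
    (∀ a, c₀ a ∈ E x₀) → (∀ a, c₁ a ∈ E x₁) → (∀ d ∈ S.D, Q d x₀ c₀ x₁ c₁) → (P c₀ ↔ P c₁)

/-- Every nice family has a back-and-forth system for `P` off a small set. -/
def Loc (S : Sc K L) {α : Type} (P : (α → K) → Prop) : Prop :=
  ∀ (β : Type) [Finite β] (E : (β → K) → Set K), Nice L E → ∃ Z : Set (β → K), Small L Z ∧
    ∃ Q : K → (β → K) → (α → K) → (β → K) → (α → K) → Prop, Sys S P E Z Q

end

section

variable (L : FirstOrder.Language.{0, 0}) (K : Type) [Field K] [LinearOrder K]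
  [IsStrictOrderedRing K] [TopologicalSpace K] [L.Structure K]

/-- Locally product relations are locally constant off a small set. -/
def NB : Prop :=
  ∀ (β δ : Type) [Finite β] [Finite δ] (O T : (β → K) → (δ → K) → Prop),
    IsOpen {p : (β → K) × (δ → K) | O p.1 p.2} →
    Df L (fun w : β ⊕ δ → K => O (fun i => w (Sum.inl i)) (fun j => w (Sum.inr j))) →
    Df L (fun w : β ⊕ δ → K => T (fun i => w (Sum.inl i)) (fun j => w (Sum.inr j))) →
    (∀ x w, O x w → ¬ T x w → ∀ᶠ p in 𝓝 (x, w), ¬ T p.1 p.2) →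
    (∀ x w, O x w → ∀ᶠ w' in 𝓝 w, (T x w' ↔ T x w)) →
    ∃ Z : Set (β → K), Small L Z ∧
      ∀ x, x ∉ Z → ∀ w, O x w → ∀ᶠ p in 𝓝 (x, w), (T p.1 p.2 ↔ T x w)

/-- Off a small set the fibres of a nice family have empty interior and vary lower
semicontinuously. -/
def T01 : Prop :=
  ∀ (β : Type) [Finite β] (E : (β → K) → Set K), Nice L E → ∃ Z : Set (β → K), Small L Z ∧
    ∀ x, x ∉ Z → interior (E x) = ∅ ∧
      ∀ y ∈ E x, ∀ ε, 0 < ε → ∀ᶠ x' in 𝓝 x, ∃ y' ∈ E x', |y' - y| < ε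

/-- Meeting a closed set in a box is locally constant off a small set. -/
def TAz : Prop :=
  ∀ (α β : Type) [Finite α] [Finite β] (E : (β → K) → Set K), Nice L E →
    ∀ A : (α → K) → Prop, IsClosed {v | A v} → Df L A → ∃ Z : Set (β → K), Small L Z ∧
      ∀ x, x ∉ Z → ∀ u v : α → K, (∀ a, u a ∉ E x ∧ v a ∉ E x) →
        ∀ᶠ p in 𝓝 (x, (u, v)), (TA A E p.1 p.2.1 p.2.2 ↔ TA A E x u v)

variable {L K} in
/-- Every nice family is tame off a small set. -/
def TameFor (S : Sc K L) : Prop :=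
  ∀ (β : Type) [Finite β] (E : (β → K) → Set K), Nice L E →
    ∃ Z : Set (β → K), Small L Z ∧ ∀ x, x ∉ Z → TameAt S E x

end

end Pool.Agent.K3h92.OC
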