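import Mathlib
import Pool.Agent.K3h92.OC.Stm

set_option autoImplicit false

/-! From back-and-forth systems to sets definable in the open core. -/

namespace Pool.Agent.K3h92.OC

open FirstOrder FirstOrder.Language Set Filter Topology

variable {K : Type} [Field K] [LinearOrder K] [IsStrictOrderedRing K] [TopologicalSpace K]
  [OrderTopology K]
variable {L : FirstOrder.Language.{0, 0}} [L.Structure K] [DC L K]

namespace Fin'

section

variable {L' : FirstOrder.Language.{0, 0}} [L'.Structure K]

omit [Field K] [LinearOrder K] [IsStrictOrderedRing K] [TopologicalSpace K]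
  [OrderTopology K] in
theorem term_cases (hfun : ∀ n, IsEmpty (L'.Functions n)) {δ : Type}
    (t : (L'[[(Set.univ : Set K)]]).Term δ) :
    (∃ i, ∀ v : δ → K, t.realize v = v i) ∨ ∃ r : K, ∀ v : δ → K, t.realize v = r := by
  cases t with
  | var i => exact Or.inl ⟨i, fun v => rfl⟩
  | @func n f ts =>
    cases n with
    | zero =>
      refine Or.inr ⟨Structure.funMap f (fun i => i.elim0), fun v => ?_⟩
      rw [Term.realize]
      congr 1
      funext i
      exact i.elim0
    | succ n =>
      exfalso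
      rcases f with f | f
      · exact (hfun _).false f
      · cases f

omit [Field K] [LinearOrder K] [IsStrictOrderedRing K] [TopologicalSpace K]
  [OrderTopology K] [DC L K] in
theorem term_df (hfun : ∀ n, IsEmpty (L'.Functions n)) {δ : Type}
    (t : (L'[[(Set.univ : Set K)]]).Term δ) : DfF L (fun v : δ → K => t.realize v) := by
  rcases term_cases hfun t with ⟨i, hi⟩ | ⟨r, hr⟩
  · simp only [hi]
    exact Dvar i
  · simp only [hr]
    exact Dconst r

omit [Field K] [LinearOrder K] [IsStrictOrderedRing K] [OrderTopology K] in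
theorem term_cont (hfun : ∀ n, IsEmpty (L'.Functions n)) {δ : Type}
    (t : (L'[[(Set.univ : Set K)]]).Term δ) : Continuous (fun v : δ → K => t.realize v) := by
  rcases term_cases hfun t with ⟨i, hi⟩ | ⟨r, hr⟩
  · simp only [hi]
    exact continuous_apply i
  · simp only [hr]
    exact continuous_const

end

omit [IsStrictOrderedRing K] [OrderTopology K] [DC L K] in
theorem loc_congr {S : Sc K L} {α : Type} {P Q : (α → K) → Prop} (h : Loc S P)
    (e : ∀ w, P w ↔ Q w) : Loc S Q := by
  have : P = Q := funext fun w => propext (e w)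
  rwa [← this]

theorem loc_formula (S : Sc K L)
    (hcl : ∀ (α : Type) [Finite α] (A : (α → K) → Prop), IsClosed {v | A v} → Df L A → Loc S A)
    (hnot : ∀ (α : Type) [Finite α] (P : (α → K) → Prop), Loc S P → Loc S (fun c => ¬ P c))
    (hand : ∀ (α : Type) [Finite α] (P Q : (α → K) → Prop), Loc S P → Loc S Q →
      Loc S (fun c => P c ∧ Q c))
    (hrel : ∀ (α α' : Type) [Finite α] [Finite α'] (σ : α → α') (P : (α → K) → Prop),
      Loc S P → Loc S (fun c : α' → K => P (fun a => c (σ a))))
    (hex : ∀ (α : Type) [Finite α] (P : (Option α → K) → Prop), Loc S P →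
      Loc S (fun c : α → K => ∃ y, P (cons y c)))
    (L' : FirstOrder.Language.{0, 0}) [L'.Structure K] (hfun : ∀ n, IsEmpty (L'.Functions n))
    (h2 : ∀ (n : ℕ) (R : L'.Relations n),
      IsOpen {v : Fin n → K | Structure.RelMap R v} ∧
      (Set.univ : Set K).Definable L {v : Fin n → K | Structure.RelMap R v})
    {α : Type} [Finite α] {n : ℕ} (φ : (L'[[(Set.univ : Set K)]]).BoundedFormula α n) :
    Loc S (fun w : α ⊕ Fin n → K => φ.Realize (fun a => w (Sum.inl a))
      (fun j => w (Sum.inr j))) := by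
  have hw : ∀ {n : ℕ} (w : α ⊕ Fin n → K), Sum.elim (fun a => w (Sum.inl a))
      (fun j => w (Sum.inr j)) = w := fun w => by
    funext o
    cases o <;> rfl
  induction φ with
  | falsum =>
    refine loc_congr (hcl _ (fun _ => False) ?_ (Df.const False)) fun w => Iff.rfl
    simp
  | equal t₁ t₂ =>
    refine loc_congr (hcl _ (fun w => t₁.realize w = t₂.realize w) ?_ ?_) fun w => ?_
    · exact isClosed_eq (term_cont hfun t₁) (term_cont hfun t₂)
    · exact Deq (term_df hfun t₁) (term_df hfun t₂)
    · show _ ↔ t₁.realize (Sum.elim (fun a => w (Sum.inl a)) (fun j => w (Sum.inr j))) =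
        t₂.realize (Sum.elim (fun a => w (Sum.inl a)) (fun j => w (Sum.inr j)))
      rw [hw]
  | rel R ts =>
    rcases R with R | R
    · refine loc_congr (hnot _ _ (hcl _ (fun w => ¬ Structure.RelMap R
        (fun i => (ts i).realize w)) ?_ ?_)) fun w => ?_
      · exact ((h2 _ R).1.preimage (continuous_pi fun i => term_cont hfun (ts i))).isClosed_compl
      · exact Df.not (Df.substT (P := fun v => Structure.RelMap R v) (h2 _ R).2
          (fun i => term_df hfun (ts i)))
      · rw [not_not]
        show _ ↔ Structure.RelMap R (fun i => (ts i).realize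
          (Sum.elim (fun a => w (Sum.inl a)) (fun j => w (Sum.inr j))))
        rw [hw]
    · cases R
  | imp φ ψ g1 g2 =>
    refine loc_congr (hnot _ _ (hand _ _ _ g1 (hnot _ _ g2))) fun w => ?_
    rw [BoundedFormula.realize_imp]
    tauto
  | @all n φ h =>
    have h3 := hrel _ _ (Sum.elim (fun a => some (Sum.inl a))
        (fun j : Fin (n + 1) => Fin.lastCases none (fun k => some (Sum.inr k)) j) :
          α ⊕ Fin (n + 1) → Option (α ⊕ Fin n)) _ h
    have h4 := hnot _ _ (hex _ _ (hnot _ _ h3))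
    refine loc_congr h4 fun w => ?_
    rw [BoundedFormula.realize_all]
    push Not
    refine forall_congr' fun y => ?_
    have : (fun j : Fin (n + 1) => (cons y w : Option (α ⊕ Fin n) → K)
        (Sum.elim (fun a => some (Sum.inl a))
          (fun j : Fin (n + 1) => (Fin.lastCases none (fun k => some (Sum.inr k)) j :
            Option (α ⊕ Fin n))) (Sum.inr j))) =
          (Fin.snoc (fun j : Fin n => w (Sum.inr j)) y : Fin (n + 1) → K) := by
      funext j
      refine Fin.lastCases ?_ (fun k => ?_) j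
      · simp
      · simp
    rw [this]
    rfl

theorem nice_coord : Nice L (fun x : Fin 1 → K => {y | y = x 0}) where
  closed := isClosed_eq (by fun_prop) (by fun_prop)
  nd := by
    by_contra hne
    obtain ⟨⟨x₀, y₀⟩, h⟩ := nonempty_iff_ne_empty.2 hne
    have h1 : ∀ᶠ p in 𝓝 (x₀, y₀), p.2 ∈ {y | y = p.1 0} := by
      filter_upwards [isOpen_interior.mem_nhds h] with p hp
      exact (interior_subset hp : p ∈ {p : (Fin 1 → K) × K | p.2 ∈ {y | y = p.1 0}})
    obtain ⟨r, hr, h2⟩ := ev_prod.1 h1
    have h3 := h2 x₀ y₀ (fun i => by simpa using hr) (by simpa using hr)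
    have h4 := h2 x₀ (y₀ + r / 2) (fun i => by simpa using hr) (by
      rw [add_sub_cancel_left, abs_of_pos (by positivity)]
      linarith)
    simp only [Set.mem_ofPred_eq] at h3 h4
    rw [← h3] at h4
    linarith
  df := Deq (Dvar _) (Dvar _)

end Fin'

open Fin' in
theorem final (S : Sc K L)
    (hcl : ∀ (α : Type) [Finite α] (A : (α → K) → Prop), IsClosed {v | A v} → Df L A → Loc S A)
    (hnot : ∀ (α : Type) [Finite α] (P : (α → K) → Prop), Loc S P → Loc S (fun c => ¬ P c))
    (hand : ∀ (α : Type) [Finite α] (P Q : (α → K) → Prop), Loc S P → Loc S Q →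
      Loc S (fun c => P c ∧ Q c))
    (hrel : ∀ (α α' : Type) [Finite α] [Finite α'] (σ : α → α') (P : (α → K) → Prop),
      Loc S P → Loc S (fun c : α' → K => P (fun a => c (σ a))))
    (hex : ∀ (α : Type) [Finite α] (P : (Option α → K) → Prop), Loc S P →
      Loc S (fun c : α → K => ∃ y, P (cons y c)))
    (L' : FirstOrder.Language.{0, 0}) [L'.Structure K] (h1 : ∀ n, IsEmpty (L'.Functions n))
    (h2 : ∀ (n : ℕ) (R : L'.Relations n),
      IsOpen {v : Fin n → K | FirstOrder.Language.Structure.RelMap R v} ∧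
      (Set.univ : Set K).Definable L {v : Fin n → K | FirstOrder.Language.Structure.RelMap R v})
    (X : Set K) (hX : (Set.univ : Set K).Definable L' {v : Fin 1 → K | v 0 ∈ X}) :
    (interior X).Nonempty ∨ interior (closure X) = ∅ := by
  -- the set is `Loc`
  have hloc : Loc S (fun w : Fin 1 → K => w 0 ∈ X) := by
    obtain ⟨φ, hφ⟩ := hX
    have h := hrel _ _ (Sum.elim id (fun i : Fin 0 => i.elim0) : Fin 1 ⊕ Fin 0 → Fin 1) _
      (loc_formula S hcl hnot hand hrel hex L' h1 h2 (α := Fin 1) (n := 0) φ)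
    refine loc_congr h fun w => ?_
    have h3 : w 0 ∈ X ↔ φ.Realize w := by
      have : w ∈ {v : Fin 1 → K | v 0 ∈ X} ↔ w ∈ Set.ofPred φ.Realize := by rw [hφ]
      exact this
    rw [h3, Formula.Realize]
    exact iff_of_eq (congrArg (BoundedFormula.Realize φ w) (Subsingleton.elim _ _))
  obtain ⟨Z, hZ, Q, hQ⟩ := hloc (Fin 1) _ (nice_coord (K := K) (L := L))
  have hQd : ∀ {α : Type} [Finite α] {d a b c e : (α → K) → K}, DfF L d → DfF L a → DfF L b →
      DfF L c → DfF L e →
      Df L (fun v => Q (d v) (fun _ => a v) (fun _ => b v) (fun _ => c v) (fun _ => e v)) := by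
    intro α _ d a b c e hd ha hb hc he
    exact Df.substT (f := fun (o : Unit ⊕ (Fin 1 ⊕ Fin 1) ⊕ (Fin 1 ⊕ Fin 1)) (v : α → K) =>
      Sum.elim (fun _ => d v) (Sum.elim (Sum.elim (fun _ => a v) (fun _ => b v))
        (Sum.elim (fun _ => c v) (fun _ => e v))) o) hQ.df (by
      rintro (i | (i | i) | (i | i))
      · exact hd
      · exact ha
      · exact hb
      · exact hc
      · exact he)
  have key : ∀ a b : K, a ≤ b → (∀ s, a ≤ s → s ≤ b → (fun _ : Fin 1 => s) ∉ Z) →
      (a ∈ X ↔ b ∈ X) := by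
    intro a b hab hav
    refine hQ.fin (fun _ => a) (hav a le_rfl hab) (fun _ => b) (hav b hab le_rfl)
      (fun _ => a) (fun _ => b) (fun _ => rfl) (fun _ => rfl) fun d hd => ?_
    refine interval_induction (L := L)
      (P := fun s => Q d (fun _ => a) (fun _ => a) (fun _ => s) (fun _ => s)) hab ?_ ?_ ?_
    · exact hQd (Dconst _) (Dconst _) (Dconst _) (Dvar _) (Dvar _)
    · exact hQ.refl _ _ _
    · intro s h3 h4
      obtain ⟨η, hη, h5⟩ := hQ.loc (fun _ => s) (hav s h3 h4) d hd
      obtain ⟨r, hr, h6⟩ := ev_box.1 h5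
      refine ⟨min η r, lt_min hη hr, fun y _ _ hy => ?_⟩
      have h7 : Q d (fun _ => s) (fun _ => s) (fun _ => y) (fun _ => y) := by
        refine h6 (fun _ => y) (fun _ => hy.trans_le (min_le_right _ _)) (fun _ => s)
          (fun _ => y) (fun _ => rfl) (fun _ => rfl) fun _ u _ hu => ?_
        have h8 := hu s rfl
        have h9 := hy.trans_le (min_le_left η r)
        rw [abs_lt] at h9
        rcases le_abs.1 h8 with h10 | h10
        · constructor <;> intro h11 <;> linarith
        · constructor <;> intro h11 <;> linarith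
      exact ⟨fun h => hQ.trans _ _ _ _ _ _ _ h (hQ.symm _ _ _ _ _ h7),
        fun h => hQ.trans _ _ _ _ _ _ _ h h7⟩
  rcases eq_empty_or_nonempty (interior (closure X)) with hX0 | ⟨x₀, hx₀⟩
  · exact Or.inr hX0
  left
  obtain ⟨r, hr, hbox⟩ := (nhds_ball x₀).mem_iff.1 (isOpen_interior.mem_nhds hx₀)
  set V : Set (Fin 1 → K) := {v | ∀ i, |v i - x₀| < r} with hV
  have hVo : IsOpen V := isOpen_box (fun _ => x₀) r
  have hVne : V.Nonempty := ⟨fun _ => x₀, fun i => by simpa using hr⟩
  obtain ⟨v, hv, hvZ⟩ : ∃ v ∈ V, v ∉ Z := by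
    by_contra hcon
    push Not at hcon
    have := interior_maximal (fun v hv => hcon v hv) hVo
    rw [hZ.int] at this
    obtain ⟨v, hv⟩ := hVne
    exact this hv
  obtain ⟨ρ, hρ, hbox2⟩ := (nhds_box v).mem_iff.1
    ((hVo.inter hZ.closed.isOpen_compl).mem_nhds ⟨hv, hvZ⟩)
  have hc : v 0 ∈ closure X := interior_subset (hbox (hv 0))
  obtain ⟨x, hx, hxv⟩ := mem_closure_ball.1 hc ρ hρ
  refine ⟨v 0, mem_interior_iff_mem_nhds.2 ((nhds_ball (v 0)).mem_iff.2 ⟨ρ, hρ, fun y hy => ?_⟩)⟩
  have hin : ∀ s : K, |s - v 0| < ρ → (fun _ : Fin 1 => s) ∉ Z := by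
    intro s hs
    have h3 : (fun _ : Fin 1 => s) ∈ {y | ∀ i, |y i - v i| < ρ} := fun i => by
      rw [Subsingleton.elim i 0]
      exact hs
    exact (hbox2 h3).2
  simp only [Set.mem_ofPred_eq] at hy
  rw [abs_lt] at hy hxv
  rcases le_total x y with hxy | hxy
  · refine (key x y hxy fun s h3 h4 => hin s (abs_lt.2 ⟨by linarith, by linarith⟩)).1 hx
  · refine (key y x hxy fun s h3 h4 => hin s (abs_lt.2 ⟨by linarith, by linarith⟩)).2 hx

end Pool.Agent.K3h92.OC
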