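import Mathlib
import Pool.Agent.K3h92.OC.Stm

set_option autoImplicit false

/-! Approximate selection on an open set, by suprema. -/

namespace Pool.Agent.K3h92.OC

open FirstOrder FirstOrder.Language Set Filter Topology

variable {K : Type} [Field K] [LinearOrder K] [IsStrictOrderedRing K] [TopologicalSpace K]
  [OrderTopology K]
variable {L : FirstOrder.Language.{0, 0}} [L.Structure K] [DC L K]

theorem sel_aux (β : Type) [Finite β] (γ : Type) [Finite γ] : Finite γ →
    ∀ (C : (β → K) → (γ → K) → Prop), IsClosed {p : (β → K) × (γ → K) | C p.1 p.2} →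
    Df L (fun w : β ⊕ γ → K => C (fun i => w (Sum.inl i)) (fun j => w (Sum.inr j))) →
    ∀ (t ε : K), 0 < ε → ∀ U : Set (β → K), IsOpen U → U.Nonempty →
    (∀ x ∈ U, ∃ w : γ → K, (∀ j, |w j| ≤ t) ∧ C x w) →
    ∃ U' ⊆ U, IsOpen U' ∧ U'.Nonempty ∧ ∃ m : γ → K, ∀ x ∈ U', ∃ w : γ → K,
      (∀ j, |w j| ≤ t) ∧ (∀ j, |w j - m j| ≤ ε) ∧ C x w := by
  induction γ using Finite.induction_empty_option with
  | @of_equiv γ₁ γ₂ e ih =>
    intro hγ C hC hCd t ε hε U hU hne h
    have hγ' := Finite.of_equiv _ e.symm
    have hh := ih hγ' (fun x w => C x (fun j => w (e.symm j))) ?_ ?_ t ε hε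
      U hU hne ?_
    · obtain ⟨U', h1, h2, h3, m, h4⟩ := hh
      refine ⟨U', h1, h2, h3, fun j => m (e.symm j), fun x hx => ?_⟩
      obtain ⟨w, h5, h6, h7⟩ := h4 x hx
      exact ⟨fun j => w (e.symm j), fun j => h5 _, fun j => h6 _, h7⟩
    · exact hC.preimage (by fun_prop : Continuous fun p : (β → K) × (γ₁ → K) =>
        (p.1, fun j => p.2 (e.symm j)))
    · exact (hCd.relabel (Sum.map id e.symm)).congr fun w => Iff.rfl
    · intro x hx
      obtain ⟨w, h5, h6⟩ := h x hx
      refine ⟨fun j => w (e j), fun j => h5 _, ?_⟩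
      simpa using h6
  | h_empty =>
    intro _ C hC hCd t ε hε U hU hne h
    refine ⟨U, Subset.rfl, hU, hne, fun j => j.elim, fun x hx => ?_⟩
    obtain ⟨w, h5, h6⟩ := h x hx
    exact ⟨w, h5, fun j => j.elim, h6⟩
  | @h_option γ _ ih =>
    intro _ C hC hCd t ε hε U hU hne h
    have hC' : ∀ {α : Type} [Finite α] {f : β → (α → K) → K} {g : Option γ → (α → K) → K},
        (∀ i, DfF L (f i)) → (∀ j, DfF L (g j)) →
        Df L (fun v => C (fun i => f i v) (fun j => g j v)) := by
      intro α _ f g hf hg
      exact Df.substT (f := fun (o : β ⊕ Option γ) (v : α → K) =>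
        Sum.elim (fun i => f i v) (fun j => g j v) o) hCd (by
        rintro (i | j)
        · exact hf i
        · exact hg j)
    obtain ⟨x₁, hx₁⟩ := hne
    obtain ⟨r, hr, hbox⟩ := (nhds_box x₁).mem_iff.1 (hU.mem_nhds hx₁)
    -- lower bounds of the first coordinate
    set S : Set K := {a | ∃ x : β → K, (∀ i, |x i - x₁ i| < r) ∧ ∀ w : Option γ → K,
      (∀ j, |w j| ≤ t) → C x w → a ≤ w none} with hS
    have hSd : D1 L S := by
      show Df L (fun v : Unit → K => ∃ x : β → K, (∀ i, |x i - x₁ i| < r) ∧ ∀ w : Option γ → K,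
        (∀ j, |w j| ≤ t) → C x w → v () ≤ w none)
      (repeat' (intros; beta_reduce; first | apply (hC') | exact Dvar _ | exact Dconst _ | assumption | apply Dadd | apply Dsub | apply Dmul | apply Dneg | apply Dabs | apply Dlt | apply Dle | apply Deq | apply Df.and | apply Df.or | apply Df.not | apply Df.iff | apply Df.imp | apply Df.ex1 | apply Df.all1 | apply Df.exT | apply Df.allT | apply Df.all_fin | apply Df.ex_fin | exact Df.const _))
    have hbd : ∀ x : β → K, (∀ i, |x i - x₁ i| < r) → ∀ a : K, (∀ w : Option γ → K,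
      (∀ j, |w j| ≤ t) → C x w → a ≤ w none) → a ≤ t := by
      intro x hx a ha
      obtain ⟨w, h5, h6⟩ := h x (hbox hx)
      exact (ha w h5 h6).trans (abs_le.1 (h5 none)).2
    have hx₁r : ∀ i, |x₁ i - x₁ i| < r := fun i => by simpa using hr
    obtain ⟨s, hs⟩ := exists_lub hSd ⟨-t, x₁, hx₁r, fun w h5 _ => (abs_le.1 (h5 none)).1⟩
      ⟨t, by rintro a ⟨x, hx, ha⟩; exact hbd x hx a ha⟩
    obtain ⟨a, ⟨x₂, hx₂, ha⟩, has⟩ : ∃ a ∈ S, s - ε / 2 < a := by
      by_contra hcon
      push Not at hcon
      have := hs.2 (show s - ε / 2 ∈ upperBounds S from fun x hx => hcon x hx)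
      linarith
    -- near `x₂` the first coordinate is at least `s - ε`
    have hcl : IsClosed {x : β → K | ∃ w : Option γ → K, (∀ j, |w j| ≤ t) ∧ (C x w ∧
        w none ≤ s - ε)} := by
      refine proj_closed (L := L) (Y := fun x w => C x w ∧ w none ≤ s - ε) ?_ ?_ t
      · exact hCd.and (by (repeat' (intros; beta_reduce; first | exact Dvar _ | exact Dconst _ | assumption | apply Dadd | apply Dsub | apply Dmul | apply Dneg | apply Dabs | apply Dlt | apply Dle | apply Deq | apply Df.and | apply Df.or | apply Df.not | apply Df.iff | apply Df.imp | apply Df.ex1 | apply Df.all1 | apply Df.exT | apply Df.allT | apply Df.all_fin | apply Df.ex_fin | exact Df.const _)))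
      · exact hC.inter (isClosed_le (by fun_prop) continuous_const)
    set V : Set (β → K) := {x | ∀ i, |x i - x₁ i| < r} ∩ {x : β → K | ∃ w : Option γ → K,
      (∀ j, |w j| ≤ t) ∧ (C x w ∧ w none ≤ s - ε)}ᶜ with hV
    have hVo : IsOpen V := (isOpen_box x₁ r).inter hcl.isOpen_compl
    have hVne : V.Nonempty := by
      refine ⟨x₂, hx₂, ?_⟩
      rintro ⟨w, h5, h6, h7⟩
      have := ha w h5 h6
      linarith
    have hVU : V ⊆ U := fun x hx => hbox hx.1
    have hVs : ∀ x ∈ V, ∃ w : Option γ → K, (∀ j, |w j| ≤ t) ∧ |w none - s| ≤ ε ∧ C x w := by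
      intro x hx
      have h1 : s + ε ∉ S := fun h' => by
        have := hs.1 h'
        linarith
      have h2 : ∃ w : Option γ → K, (∀ j, |w j| ≤ t) ∧ C x w ∧ w none < s + ε := by
        by_contra hcon
        push Not at hcon
        exact h1 ⟨x, hx.1, fun w h5 h6 => hcon w h5 h6⟩
      obtain ⟨w, h5, h6, h7⟩ := h2
      refine ⟨w, h5, ?_, h6⟩
      have h8 : s - ε < w none := by
        by_contra hcon
        exact hx.2 ⟨w, h5, h6, not_lt.1 hcon⟩
      exact abs_le.2 ⟨by linarith, by linarith⟩
    -- the remaining coordinates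
    have hh := ih inferInstance
      (fun x w' => ∃ y, -t ≤ y ∧ y ≤ t ∧ (|y - s| ≤ ε ∧ C x (cons y w'))) ?_ ?_ t ε hε V hVo hVne ?_
    · obtain ⟨U', h1, h2, h3, m, h4⟩ := hh
      refine ⟨U', h1.trans hVU, h2, h3, cons s m, fun x hx => ?_⟩
      obtain ⟨w', h5, h6, y, h7, h8, h9, h10⟩ := h4 x hx
      refine ⟨cons y w', ?_, ?_, h10⟩
      · rintro (_ | j)
        · exact abs_le.2 ⟨h7, h8⟩
        · exact h5 j
      · rintro (_ | j)
        · exact h9
        · exact h6 j
    · -- closedness
      have hc1 : IsClosed {v : β ⊕ γ → K | ∃ y, -t ≤ y ∧ y ≤ t ∧ (|y - s| ≤ ε ∧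
          C (fun i => v (Sum.inl i)) (cons y (fun j => v (Sum.inr j))))} := by
        refine proj_closed1 (L := L) (Y := fun (v : β ⊕ γ → K) y => |y - s| ≤ ε ∧
          C (fun i => v (Sum.inl i)) (cons y (fun j => v (Sum.inr j)))) ?_ ?_ (-t) t
        · refine Df.and (by (repeat' (intros; beta_reduce; first | exact Dvar _ | exact Dconst _ | assumption | apply Dadd | apply Dsub | apply Dmul | apply Dneg | apply Dabs | apply Dlt | apply Dle | apply Deq | apply Df.and | apply Df.or | apply Df.not | apply Df.iff | apply Df.imp | apply Df.ex1 | apply Df.all1 | apply Df.exT | apply Df.allT | apply Df.all_fin | apply Df.ex_fin | exact Df.const _))) ?_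
          refine hC' (f := fun i (w : Option (β ⊕ γ) → K) => w (some (Sum.inl i)))
            (g := fun j (w : Option (β ⊕ γ) → K) => cons (w none) (fun i => w (some (Sum.inr i))) j)
            (fun i => Dvar _) ?_
          rintro (_ | j)
          · exact Dvar _
          · exact Dvar _
        · refine IsClosed.and (isClosed_le (by fun_prop) continuous_const) ?_
          refine hC.preimage (f := fun p : (β ⊕ γ → K) × K => ((fun i => p.1 (Sum.inl i)),
            cons p.2 (fun j => p.1 (Sum.inr j)))) ?_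
          exact (by fun_prop : Continuous fun p : (β ⊕ γ → K) × K =>
            (fun i => p.1 (Sum.inl i))).prodMk (continuous_cons (by fun_prop) (by fun_prop))
      have := hc1.preimage (f := fun p : (β → K) × (γ → K) => (Sum.elim p.1 p.2 : β ⊕ γ → K)) (by
        refine continuous_pi ?_
        rintro (i | j)
        · exact (continuous_apply i).comp continuous_fst
        · exact (continuous_apply j).comp continuous_snd)
      exact this
    · refine Df.ex1 ?_
      refine Df.and (by (repeat' (intros; beta_reduce; first | exact Dvar _ | exact Dconst _ | assumption | apply Dadd | apply Dsub | apply Dmul | apply Dneg | apply Dabs | apply Dlt | apply Dle | apply Deq | apply Df.and | apply Df.or | apply Df.not | apply Df.iff | apply Df.imp | apply Df.ex1 | apply Df.all1 | apply Df.exT | apply Df.allT | apply Df.all_fin | apply Df.ex_fin | exact Df.const _))) (Df.and (by (repeat' (intros; beta_reduce; first | exact Dvar _ | exact Dconst _ | assumption | apply Dadd | apply Dsub | apply Dmul | apply Dneg | apply Dabs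 | apply Dlt | apply Dle | apply Deq | apply Df.and | apply Df.or | apply Df.not | apply Df.iff | apply Df.imp | apply Df.ex1 | apply Df.all1 | apply Df.exT | apply Df.allT | apply Df.all_fin | apply Df.ex_fin | exact Df.const _))) (Df.and (by (repeat' (intros; beta_reduce; first | exact Dvar _ | exact Dconst _ | assumption | apply Dadd | apply Dsub | apply Dmul | apply Dneg | apply Dabs | apply Dlt | apply Dle | apply Deq | apply Df.and | apply Df.or | apply Df.not | apply Df.iff | apply Df.imp | apply Df.ex1 | apply Df.all1 | apply Df.exT | apply Df.allT | apply Df.all_fin | apply Df.ex_fin | exact Df.const _))) ?_))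
      refine hC' (f := fun i (w : Option (β ⊕ γ) → K) => w (some (Sum.inl i)))
        (g := fun j (w : Option (β ⊕ γ) → K) => cons (w none) (fun i => w (some (Sum.inr i))) j)
        (fun i => Dvar _) ?_
      rintro (_ | j)
      · exact Dvar _
      · exact Dvar _
    · intro x hx
      obtain ⟨w, h5, h6, h7⟩ := hVs x hx
      refine ⟨fun j => w (some j), fun j => h5 _, w none, (abs_le.1 (h5 none)).1,
        (abs_le.1 (h5 none)).2, h6, ?_⟩
      rwa [cons_eta]

/-- Approximate selection: if a closed definable relation has bounded solutions over an open set,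
then over a smaller open set it has solutions near a fixed point. -/
theorem sel {β γ : Type} [Finite β] [Finite γ] {C : (β → K) → (γ → K) → Prop}
    (hC : IsClosed {p : (β → K) × (γ → K) | C p.1 p.2})
    (hCd : Df L (fun w : β ⊕ γ → K => C (fun i => w (Sum.inl i)) (fun j => w (Sum.inr j))))
    (t : K) {ε : K} (hε : 0 < ε) {U : Set (β → K)} (hU : IsOpen U) (hne : U.Nonempty)
    (h : ∀ x ∈ U, ∃ w : γ → K, (∀ j, |w j| ≤ t) ∧ C x w) :
    ∃ U' ⊆ U, IsOpen U' ∧ U'.Nonempty ∧ ∃ m : γ → K, ∀ x ∈ U', ∃ w : γ → K,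
      (∀ j, |w j| ≤ t) ∧ (∀ j, |w j - m j| ≤ ε) ∧ C x w :=
  sel_aux β γ inferInstance C hC hCd t ε hε U hU hne h

end Pool.Agent.K3h92.OC
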