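import Mathlib
import Pool.Agent.K3h92.OC.Sel

set_option autoImplicit false

/-! Basic facts on nice families, and uniform tameness. -/

namespace Pool.Agent.K3h92.OC

open FirstOrder FirstOrder.Language Set Filter Topology

variable {K : Type} [Field K] [LinearOrder K] [IsStrictOrderedRing K] [TopologicalSpace K]
  [OrderTopology K]
variable {L : FirstOrder.Language.{0, 0}} [L.Structure K]

omit [OrderTopology K] in
theorem Small.union {β : Type} {Z Z' : Set (β → K)} (h : Small L Z) (h' : Small L Z') :
    Small L (Z ∪ Z') where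
  closed := h.closed.union h'.closed
  int := by rw [interior_union_isClosed_of_interior_empty h.closed h'.int, h.int]
  df := h.df.or h'.df

omit [OrderTopology K] in
theorem Small.inter_compl {β : Type} {Z : Set (β → K)} (h : Small L Z) {U : Set (β → K)}
    (hU : IsOpen U) (hne : U.Nonempty) : (U ∩ Zᶜ).Nonempty := by
  by_contra hcon
  rw [not_nonempty_iff_eq_empty] at hcon
  have h1 : U ⊆ Z := fun x hx => by
    by_contra h
    exact (eq_empty_iff_forall_notMem.1 hcon x) ⟨hx, h⟩
  have h2 := interior_maximal h1 hU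
  rw [h.int] at h2
  obtain ⟨x, hx⟩ := hne
  exact h2 hx

namespace Nice

variable {β : Type} {E : (β → K) → Set K}

omit [OrderTopology K] in
theorem fclosed (hE : Nice L E) (x : β → K) : IsClosed (E x) :=
  hE.closed.preimage (by fun_prop : Continuous fun y : K => (x, y))

omit [OrderTopology K] in
theorem ev (hE : Nice L E) {x : β → K} {y : K} (h : y ∉ E x) :
    ∀ᶠ p : (β → K) × K in 𝓝 (x, y), p.2 ∉ E p.1 := hE.closed.isOpen_compl.mem_nhds h

theorem nbd (hE : Nice L E) {x : β → K} {y : K} (h : y ∉ E x) :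
    ∃ δ > 0, ∀ y', |y' - y| < δ → y' ∉ E x :=
  ev_ball.1 ((hE.fclosed x).isOpen_compl.mem_nhds h)

omit [OrderTopology K] in
theorem mem (hE : Nice L E) [Finite β] {α : Type} [Finite α] {f : (α → K) → K}
    {g : β → (α → K) → K} (hf : DfF L f) (hg : ∀ i, DfF L (g i)) :
    Df L (fun v => f v ∈ E (fun i => g i v)) :=
  Df.substT (f := fun (o : Option β) (v : α → K) => o.elim (f v) (fun i => g i v)) hE.df (by
    rintro (_ | i)
    · exact hf
    · exact hg i)

omit [OrderTopology K] in
theorem memW (hE : Nice L E) (S : Sc K L) [Finite β] {α : Type} [Finite α] {f k : (α → K) → K}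
    {g : β → (α → K) → K} (hf : DfF L f) (hk : DfF L k) (hg : ∀ i, DfF L (g i)) :
    Df L (fun v => f v ∈ S.W (k v) (E (fun i => g i v))) :=
  S.df α (fun v => E (fun i => g i v)) f k (hE.mem (Dvar _) (fun i => (hg i).relabel _)) hf hk

end Nice

theorem notMem_of_free {C : Set K} {θ y : K} (hθ : 0 < θ) (h : ∀ z ∈ C, θ ≤ |z - y|) : y ∉ C := by
  intro hy
  have := h y hy
  simp at this
  linarith

/-- Uniform tameness near a point. -/
theorem TameAt.unif [DC L K] {S : Sc K L} {β : Type} [Finite β] {E : (β → K) → Set K}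
    (hE : Nice L E) {x₀ : β → K} (ht : TameAt S E x₀) (d R : K) {θ : K} (hθ : 0 < θ) :
    ∀ᶠ x in 𝓝 x₀, (∀ z ∈ E x, |z| ≤ R → ∃ z' ∈ E x₀, |z' - z| < θ) ∧
      (∀ z ∈ E x₀, |z| ≤ R → ∃ z' ∈ E x, |z' - z| < θ) ∧
      (∀ e ∈ S.D, e ≤ d → ∀ y, |y| ≤ R → (∀ z ∈ E x₀, θ ≤ |z - y|) →
        (y ∈ S.W e (E x) ↔ y ∈ S.W e (E x₀))) := by
  refine Eventually.and ?_ (Eventually.and ?_ ?_)
  · have := dcompact1 (L := L) (P := fun x z => z ∈ E x → ∃ z' ∈ E x₀, |z' - z| < θ)
      (x₀ := x₀) (a := -R) (b := R) (by (repeat' (intros; beta_reduce; first | apply (hE.mem) | exact Dvar _ | exact Dconst _ | assumption | apply Dadd | apply Dsub | apply Dmul | apply Dneg | apply Dabs | apply Dlt | apply Dle | apply Deq | apply Df.and | apply Df.or | apply Df.not | apply Df.iff | apply Df.imp | apply Df.ex1 | apply Df.all1 | apply Df.exT | apply Df.allT | apply Df.all_fin | apply Df.ex_fin | exact Df.const _))) ?_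
    · filter_upwards [this] with x hx z hz hzR
      exact hx z (abs_le.1 hzR).1 (abs_le.1 hzR).2 hz
    · intro z _ _
      by_cases hz : z ∈ E x₀
      · rw [ev_prod]
        refine ⟨θ, hθ, fun x' z' _ h _ => ⟨z, hz, ?_⟩⟩
        show |z - z'| < θ
        rwa [abs_sub_comm]
      · filter_upwards [hE.ev hz] with p hp hp'
        exact absurd hp' hp
  · have := dcompact1 (L := L) (P := fun x z => z ∈ E x₀ → ∃ z' ∈ E x, |z' - z| < θ)
      (x₀ := x₀) (a := -R) (b := R) (by (repeat' (intros; beta_reduce; first | apply (hE.mem) | exact Dvar _ | exact Dconst _ | assumption | apply Dadd | apply Dsub | apply Dmul | apply Dneg | apply Dabs | apply Dlt | apply Dle | apply Deq | apply Df.and | apply Df.or | apply Df.not | apply Df.iff | apply Df.imp | apply Df.ex1 | apply Df.all1 | apply Df.exT | apply Df.allT | apply Df.all_fin | apply Df.ex_fin | exact Df.const _))) ?_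
    · filter_upwards [this] with x hx z hz hzR
      exact hx z (abs_le.1 hzR).1 (abs_le.1 hzR).2 hz
    · intro z _ _
      by_cases hz : z ∈ E x₀
      · obtain ⟨r, hr, h⟩ := ev_box.1 (ht.lsc z hz (θ / 2) (by linarith))
        rw [ev_prod]
        refine ⟨min r (θ / 2), lt_min hr (by linarith), fun x' z'' h1 h2 _ => ?_⟩
        obtain ⟨z', hz', h3⟩ := h x' fun i => (h1 i).trans_le (min_le_left _ _)
        refine ⟨z', hz', ?_⟩
        have h4 := abs_lt.1 (h2.trans_le (min_le_right _ _))
        have h5 := abs_lt.1 h3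
        show |z' - z''| < θ
        exact abs_lt.2 ⟨by linarith, by linarith⟩
      · obtain ⟨δ, hδ, h⟩ := hE.nbd hz
        rw [ev_prod]
        exact ⟨δ, hδ, fun x' z' _ h1 h2 => absurd h2 (h z' h1)⟩
  · have := ev_le (L := L) S.hD S.iso (A := fun e x => ∀ y, |y| ≤ R →
      (∀ z ∈ E x₀, θ ≤ |z - y|) → (y ∈ S.W e (E x) ↔ y ∈ S.W e (E x₀))) (x₀ := x₀) ?_ ?_ 0 d
    · filter_upwards [this] with x hx e he hed y hy hz
      exact hx e he (S.pos e he).le hed y hy hz
    · (repeat' (intros; beta_reduce; first | apply (hE.memW S) | apply (hE.mem) | exact Dvar _ | exact Dconst _ | assumption | apply Dadd | apply Dsub | apply Dmul | apply Dneg | apply Dabs | apply Dlt | apply Dle | apply Deq | apply Df.and | apply Df.or | apply Df.not | apply Df.iff | apply Df.imp | apply Df.ex1 | apply Df.all1 | apply Df.exT | apply Df.allT | apply Df.all_fin | apply Df.ex_fin | exact Df.const _))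
    · intro e he
      have := dcompact1 (L := L) (P := fun x y => (∀ z ∈ E x₀, θ ≤ |z - y|) →
        (y ∈ S.W e (E x) ↔ y ∈ S.W e (E x₀))) (x₀ := x₀) (a := -R) (b := R)
        (by (repeat' (intros; beta_reduce; first | apply (hE.memW S) | apply (hE.mem) | exact Dvar _ | exact Dconst _ | assumption | apply Dadd | apply Dsub | apply Dmul | apply Dneg | apply Dabs | apply Dlt | apply Dle | apply Deq | apply Df.and | apply Df.or | apply Df.not | apply Df.iff | apply Df.imp | apply Df.ex1 | apply Df.all1 | apply Df.exT | apply Df.allT | apply Df.all_fin | apply Df.ex_fin | exact Df.const _))) ?_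
      · filter_upwards [this] with x hx y hy hz
        exact hx y (abs_le.1 hy).1 (abs_le.1 hy).2 hz
      · intro y _ _
        by_cases hf : ∀ z ∈ E x₀, θ ≤ |z - y|
        · have hy := notMem_of_free hθ hf
          obtain ⟨r, hr, h⟩ := ev_prod.1 (ht.lcW e he y hy)
          rw [ev_prod]
          refine ⟨r, hr, fun x' y' h1 h2 _ => ?_⟩
          have h3 := h x' y' h1 h2
          have h4 := h x₀ y' (fun i => by simpa using hr) h2
          exact h3.trans h4.symm
        · push Not at hf
          obtain ⟨z, hz, hzy⟩ := hf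
          rw [ev_prod]
          refine ⟨θ - |z - y|, by linarith, fun x' y' _ h2 h3 => ?_⟩
          have h4 := h3 z hz
          have h5 : |z - y'| ≤ |z - y| + |y - y'| := abs_sub_le _ _ _
          rw [abs_sub_comm y y'] at h5
          have h2' : |y' - y| < θ - |z - y| := h2
          have h4' : θ ≤ |z - y'| := h4
          linarith

end Pool.Agent.K3h92.OC
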