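import Mathlib
import Pool.Agent.K3h92.OC.Unif

set_option autoImplicit false
set_option linter.unusedSectionVars false

/-! `Loc` for closed relations, negations, conjunctions and relabellings. -/

namespace Pool.Agent.K3h92.OC

open FirstOrder FirstOrder.Language Set Filter Topology

variable {K : Type} [Field K] [LinearOrder K] [IsStrictOrderedRing K]
variable {L : FirstOrder.Language.{0, 0}} [L.Structure K] [DC L K]
variable [TopologicalSpace K] [OrderTopology K]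

omit [DC L K] [OrderTopology K] in
theorem Loc.not (S : Sc K L) {α : Type} [Finite α] {P : (α → K) → Prop} (h : Loc S P) :
    Loc S (fun c => ¬ P c) := by
  intro β _ E hE
  obtain ⟨Z, hZ, Q, hQ⟩ := h β E hE
  exact ⟨Z, hZ, Q, hQ.df, hQ.refl, hQ.symm, hQ.trans, hQ.mono, hQ.loc,
    fun x₀ h0 x₁ h1 c₀ c₁ hc0 hc1 hd => not_congr (hQ.fin x₀ h0 x₁ h1 c₀ c₁ hc0 hc1 hd)⟩

omit [DC L K] [OrderTopology K] in
theorem Loc.and (S : Sc K L) {α : Type} [Finite α] {P P' : (α → K) → Prop} (h : Loc S P)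
    (h' : Loc S P') : Loc S (fun c => P c ∧ P' c) := by
  intro β _ E hE
  obtain ⟨Z, hZ, Q, hQ⟩ := h β E hE
  obtain ⟨Z', hZ', Q', hQ'⟩ := h' β E hE
  refine ⟨Z ∪ Z', hZ.union hZ', fun d x c x' c' => Q d x c x' c' ∧ Q' d x c x' c', ?_⟩
  refine ⟨hQ.df.and hQ'.df, fun d x c => ⟨hQ.refl d x c, hQ'.refl d x c⟩,
    fun d x c x' c' h => ⟨hQ.symm _ _ _ _ _ h.1, hQ'.symm _ _ _ _ _ h.2⟩,
    fun d x c x' c' x'' c'' h1 h2 => ⟨hQ.trans _ _ _ _ _ _ _ h1.1 h2.1,
      hQ'.trans _ _ _ _ _ _ _ h1.2 h2.2⟩,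
    fun d d' x c x' c' hd h => ⟨hQ.mono _ _ _ _ _ _ hd h.1, hQ'.mono _ _ _ _ _ _ hd h.2⟩,
    ?_, ?_⟩
  · intro x₀ hx₀ d hd
    obtain ⟨η, hη, h1⟩ := hQ.loc x₀ (fun h => hx₀ (Or.inl h)) d hd
    obtain ⟨η', hη', h1'⟩ := hQ'.loc x₀ (fun h => hx₀ (Or.inr h)) d hd
    refine ⟨min η η', lt_min hη hη', ?_⟩
    filter_upwards [h1, h1'] with x h2 h2' c₀ c hc₀ hc hN
    exact ⟨h2 c₀ c hc₀ hc fun a y hy hz => hN a y hy fun z hz' => (min_le_left _ _).trans (hz z hz'),
      h2' c₀ c hc₀ hc fun a y hy hz => hN a y hy fun z hz' => (min_le_right _ _).trans (hz z hz')⟩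
  · intro x₀ hx₀ x₁ hx₁ c₀ c₁ hc₀ hc₁ hd
    exact and_congr
      (hQ.fin x₀ (fun h => hx₀ (Or.inl h)) x₁ (fun h => hx₁ (Or.inl h)) c₀ c₁ hc₀ hc₁
        fun d h => (hd d h).1)
      (hQ'.fin x₀ (fun h => hx₀ (Or.inr h)) x₁ (fun h => hx₁ (Or.inr h)) c₀ c₁ hc₀ hc₁
        fun d h => (hd d h).2)

omit [DC L K] [OrderTopology K] in
theorem Loc.relabel (S : Sc K L) {α α' : Type} (σ : α → α') [Finite α] [Finite α']
    {P : (α → K) → Prop} (h : Loc S P) : Loc S (fun c : α' → K => P (fun a => c (σ a))) := by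
  intro β _ E hE
  obtain ⟨Z, hZ, Q, hQ⟩ := h β E hE
  refine ⟨Z, hZ, fun d x c x' c' => Q d x (fun a => c (σ a)) x' (fun a => c' (σ a)), ?_⟩
  refine ⟨?_, fun d x c => hQ.refl _ _ _, fun d x c x' c' h => hQ.symm _ _ _ _ _ h,
    fun d x c x' c' x'' c'' h1 h2 => hQ.trans _ _ _ _ _ _ _ h1 h2,
    fun d d' x c x' c' hd h => hQ.mono _ _ _ _ _ _ hd h, ?_, ?_⟩
  · exact Df.relabel (Sum.map id (Sum.map (Sum.map id σ) (Sum.map id σ)) :
      Unit ⊕ (β ⊕ α) ⊕ (β ⊕ α) → Unit ⊕ (β ⊕ α') ⊕ (β ⊕ α')) hQ.df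
  · intro x₀ hx₀ d hd
    obtain ⟨η, hη, h1⟩ := hQ.loc x₀ hx₀ d hd
    refine ⟨η, hη, ?_⟩
    filter_upwards [h1] with x h2 c₀ c hc₀ hc hN
    exact h2 _ _ (fun a => hc₀ _) (fun a => hc _) fun a => hN (σ a)
  · intro x₀ hx₀ x₁ hx₁ c₀ c₁ hc₀ hc₁ hd
    exact hQ.fin x₀ hx₀ x₁ hx₁ _ _ (fun a => hc₀ _) (fun a => hc₁ _) hd

/-! ### The closed case -/

section closed

variable {β : Type} [Finite β] {E : (β → K) → Set K}

theorem Nice.fib (hE : Nice L E) (x : β → K) : IsClosed (E x) :=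
  hE.closed.preimage (by fun_prop : Continuous fun y : K => (x, y))

variable {α : Type} [Finite α] {A : (α → K) → Prop}

theorem df_TA (hE : Nice L E) (hd : Df L A) {γ : Type} [Finite γ] {g : β → (γ → K) → K}
    {u v : α → (γ → K) → K} (hg : ∀ i, DfF L (g i)) (hu : ∀ a, DfF L (u a))
    (hv : ∀ a, DfF L (v a)) :
    Df L (fun w => TA A E (fun i => g i w) (fun a => u a w) (fun a => v a w)) := by
  have hA' : ∀ {γ : Type} [Finite γ] {f : α → (γ → K) → K}, (∀ i, DfF L (f i)) →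
      Df L (fun v => A (fun i => f i v)) := fun hf => Df.substT hd hf
  unfold TA
  refine Df.exT (Q := fun (e : α → K) w => A e ∧ ∀ a, e a ∈ E (fun i => g i w) ∧ u a w < e a ∧
    e a < v a w) ?_
  refine (hA' fun a => Dvar _).and (Df.all_fin fun a => ?_)
  refine (hE.mem (Dvar _) fun i => (hg i).relabel Sum.inl).and ((Dlt ?_ (Dvar _)).and
    (Dlt (Dvar _) ?_))
  · exact (hu a).relabel Sum.inl
  · exact (hv a).relabel Sum.inl

/-- the approximations of a closed relation -/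
def Mr (S : Sc K L) (A : (α → K) → Prop) (E : (β → K) → Set K) (e : K) (x : β → K)
    (c : α → K) : Prop :=
  ∀ u v : α → K, (∀ a, u a < c a ∧ c a < v a ∧ u a ∈ S.W e (E x) ∧ v a ∈ S.W e (E x)) →
    TA A E x u v

theorem df_Mr (S : Sc K L) (hE : Nice L E) (hd : Df L A) {γ : Type} [Finite γ]
    {f : (γ → K) → K} {g : β → (γ → K) → K} {c : α → (γ → K) → K} (hf : DfF L f)
    (hg : ∀ i, DfF L (g i)) (hc : ∀ a, DfF L (c a)) :
    Df L (fun w => Mr S A E (f w) (fun i => g i w) (fun a => c a w)) := by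
  unfold Mr
  refine Df.allT (Q := fun (u : α → K) w => ∀ v : α → K, (∀ a, u a < c a w ∧ c a w < v a ∧
    u a ∈ S.W (f w) (E (fun i => g i w)) ∧ v a ∈ S.W (f w) (E (fun i => g i w))) →
    TA A E (fun i => g i w) u v) ?_
  refine Df.allT (Q := fun (v : α → K) (w : γ ⊕ α → K) => (∀ a, w (Sum.inr a) <
    c a (fun i => w (Sum.inl i)) ∧ c a (fun i => w (Sum.inl i)) < v a ∧
    w (Sum.inr a) ∈ S.W (f (fun i => w (Sum.inl i))) (E (fun i => g i (fun i => w (Sum.inl i)))) ∧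
    v a ∈ S.W (f (fun i => w (Sum.inl i))) (E (fun i => g i (fun i => w (Sum.inl i))))) →
    TA A E (fun i => g i (fun i => w (Sum.inl i))) (fun a => w (Sum.inr a)) v) ?_
  have hf' : DfF L (fun w : (γ ⊕ α) ⊕ α → K => f (fun i => w (Sum.inl (Sum.inl i)))) :=
    hf.relabel fun i => Sum.inl (Sum.inl i)
  have hg' : ∀ i, DfF L (fun w : (γ ⊕ α) ⊕ α → K => g i (fun i => w (Sum.inl (Sum.inl i)))) :=
    fun i => (hg i).relabel fun i => Sum.inl (Sum.inl i)
  have hc' : ∀ i, DfF L (fun w : (γ ⊕ α) ⊕ α → K => c i (fun i => w (Sum.inl (Sum.inl i)))) :=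
    fun i => (hc i).relabel fun i => Sum.inl (Sum.inl i)
  refine Df.imp (Df.all_fin fun a => ?_) ?_
  · exact (Dlt (Dvar _) (hc' a)).and ((Dlt (hc' a) (Dvar _)).and
      ((hE.memW S (Dvar _) hf' hg').and (hE.memW S (Dvar _) hf' hg')))
  · exact df_TA hE hd hg' (fun a => Dvar _) (fun a => Dvar _)

/-- a point outside `E x`, on one side of a point of `E x`, stays there inside its gap -/
theorem gap_lt {C : Set K} {y y' z : K} (hz : z ∈ C) (h : ∀ z ∈ uIcc y y', z ∉ C) :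
    (y < z ↔ y' < z) ∧ (z < y ↔ z < y') := by
  have h1 : z ∉ uIcc y y' := fun h' => h z h' hz
  rw [mem_uIcc] at h1
  push Not at h1
  obtain ⟨h2, h3⟩ := h1
  constructor
  · constructor
    · intro h4; exact h2 h4.le
    · intro h4; exact h3 h4.le
  · constructor
    · intro h4
      by_contra h5
      exact absurd (h3 (not_lt.1 h5)) (not_lt.2 h4.le)
    · intro h4
      by_contra h5
      exact absurd (h2 (not_lt.1 h5)) (not_lt.2 h4.le)

theorem TA_gap {x : β → K} {u v u' v' : α → K} (hu : ∀ a, ∀ z ∈ uIcc (u a) (u' a), z ∉ E x)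
    (hv : ∀ a, ∀ z ∈ uIcc (v a) (v' a), z ∉ E x) : TA A E x u v ↔ TA A E x u' v' := by
  unfold TA
  refine exists_congr fun e => and_congr_right fun _ => forall_congr' fun a => ?_
  refine and_congr_right fun he => ?_
  rw [(gap_lt he (hu a)).1, (gap_lt he (hv a)).2]

/-- a closed relation is the conjunction of its approximations -/
theorem Mr_iff (S : Sc K L) (hE : Nice L E) (hc : IsClosed {v | A v}) {x : β → K}
    (hx : interior (E x) = ∅) {c : α → K} (hcE : ∀ a, c a ∈ E x) :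
    A c ↔ ∀ e ∈ S.D, Mr S A E e x c := by
  constructor
  · intro h e _ u v huv
    exact ⟨c, h, fun a => ⟨hcE a, (huv a).1, (huv a).2.1⟩⟩
  · intro h
    have : c ∈ closure {v | A v} := by
      rw [mem_closure_box]
      intro ε hε
      have h1 : ∀ a, ∃ u, c a - ε < u ∧ u < c a ∧ u ∉ E x := fun a =>
        exists_notMem_of_interior hx (by linarith)
      have h2 : ∀ a, ∃ v, c a < v ∧ v < c a + ε ∧ v ∉ E x := fun a =>
        exists_notMem_of_interior hx (by linarith)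
      choose u hu1 hu2 hu3 using h1
      choose v hv1 hv2 hv3 using h2
      have h3 : ∀ a, ∃ d ∈ S.D, u a ∈ S.W d (E x) ∧ v a ∈ S.W d (E x) := by
        intro a
        obtain ⟨d, hd, h4⟩ := S.exh (E x) (u a) (hE.fib x) (hu3 a)
        obtain ⟨d', hd', h4'⟩ := S.exh (E x) (v a) (hE.fib x) (hv3 a)
        rcases le_total d d' with h5 | h5
        · exact ⟨d', hd', S.mono _ _ _ h5 h4, h4'⟩
        · exact ⟨d, hd, h4, S.mono _ _ _ h5 h4'⟩
      choose d hd hud hvd using h3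
      obtain ⟨e, he, hde⟩ : ∃ e ∈ S.D, ∀ a, d a ≤ e := by
        rcases isEmpty_or_nonempty α with hα | hα
        · obtain ⟨e, he⟩ := S.ne
          exact ⟨e, he, fun a => (IsEmpty.false a).elim⟩
        · obtain ⟨a, ha⟩ := Finite.exists_max d
          exact ⟨d a, hd a, ha⟩
      obtain ⟨w, hw, hw'⟩ := h e he u v fun a =>
        ⟨hu2 a, hv1 a, S.mono _ _ _ (hde a) (hud a), S.mono _ _ _ (hde a) (hvd a)⟩
      refine ⟨w, hw, fun a => ?_⟩
      obtain ⟨-, h5, h6⟩ := hw' a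
      have := hu1 a
      have := hv2 a
      rw [abs_lt]
      constructor <;> linarith
    rwa [hc.closure_eq] at this

/-- lower semicontinuity, uniformly on bounded sets -/
theorem ev_lsc (S : Sc K L) (hE : Nice L E) {x₀ : β → K} (ht : TameAt S E x₀) {η : K}
    (hη : 0 < η) (t : K) :
    ∀ᶠ x in 𝓝 x₀, ∀ z, -t ≤ z → z ≤ t → z ∈ E x₀ → ∃ z' ∈ E x, |z' - z| < η := by
  refine dcompact1 (L := L) (P := fun x z => z ∈ E x₀ → ∃ z' ∈ E x, |z' - z| < η) ?_ ?_
  · (repeat' (intros; beta_reduce; first | apply (hE.mem) | exact Dvar _ | exact Dconst _ | assumption | apply Dadd | apply Dsub | apply Dmul | apply Dneg | apply Dabs | apply Dlt | apply Dle | apply Deq | apply Df.and | apply Df.or | apply Df.not | apply Df.iff | apply Df.imp | apply Df.ex1 | apply Df.all1 | apply Df.exT | apply Df.allT | apply Df.all_fin | apply Df.ex_fin | exact Df.const _))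
  · intro z₁ _ _
    by_cases hz : z₁ ∈ E x₀
    · obtain ⟨r, hr, h1⟩ := ev_box.1 (ht.lsc z₁ hz (η / 2) (by positivity))
      rw [ev_prod]
      refine ⟨min r (η / 2), lt_min hr (by positivity), fun x' y' h2 h3 _ => ?_⟩
      obtain ⟨z', hz', h4⟩ := h1 x' fun i => (h2 i).trans_le (min_le_left _ _)
      refine ⟨z', hz', ?_⟩
      have h5 := h3.trans_le (min_le_right _ _)
      rw [abs_lt] at h4 h5 ⊢
      constructor <;> linarith
    · have h1 : ∀ᶠ y in 𝓝 z₁, y ∉ E x₀ := (hE.fib x₀).isOpen_compl.mem_nhds hz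
      obtain ⟨r, hr, h1⟩ := ev_ball.1 h1
      rw [ev_prod]
      exact ⟨r, hr, fun x' y' _ h3 h4 => absurd h4 (h1 y' h3)⟩

/-- local constancy of the scales, uniformly on bounded sets -/
theorem ev_lcW (S : Sc K L) (hE : Nice L E) {x₀ : β → K} (ht : TameAt S E x₀) {η : K}
    (hη : 0 < η) (R d : K) :
    ∀ᶠ x in 𝓝 x₀, ∀ e ∈ S.D, 0 ≤ e → e ≤ d → ∀ y, -R ≤ y → y ≤ R → (∀ z ∈ E x₀, η ≤ |z - y|) →
      (y ∈ S.W e (E x) ↔ y ∈ S.W e (E x₀)) := by
  refine ev_le (L := L) S.hD S.iso (A := fun e x => ∀ y, -R ≤ y → y ≤ R →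
    (∀ z ∈ E x₀, η ≤ |z - y|) → (y ∈ S.W e (E x) ↔ y ∈ S.W e (E x₀))) ?_ ?_ 0 d
  · (repeat' (intros; beta_reduce; first | apply (hE.mem) | apply (hE.memW S) | exact Dvar _ | exact Dconst _ | assumption | apply Dadd | apply Dsub | apply Dmul | apply Dneg | apply Dabs | apply Dlt | apply Dle | apply Deq | apply Df.and | apply Df.or | apply Df.not | apply Df.iff | apply Df.imp | apply Df.ex1 | apply Df.all1 | apply Df.exT | apply Df.allT | apply Df.all_fin | apply Df.ex_fin | exact Df.const _))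
  · intro e he
    refine dcompact1 (L := L) (P := fun x y => (∀ z ∈ E x₀, η ≤ |z - y|) →
      (y ∈ S.W e (E x) ↔ y ∈ S.W e (E x₀))) ?_ ?_
    · (repeat' (intros; beta_reduce; first | apply (hE.mem) | apply (hE.memW S) | exact Dvar _ | exact Dconst _ | assumption | apply Dadd | apply Dsub | apply Dmul | apply Dneg | apply Dabs | apply Dlt | apply Dle | apply Deq | apply Df.and | apply Df.or | apply Df.not | apply Df.iff | apply Df.imp | apply Df.ex1 | apply Df.all1 | apply Df.exT | apply Df.allT | apply Df.all_fin | apply Df.ex_fin | exact Df.const _))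
    · intro y₁ _ _
      by_cases hy : y₁ ∈ E x₀
      · rw [ev_prod]
        refine ⟨η, hη, fun x' y' _ h3 h4 => ?_⟩
        have := h4 y₁ hy
        rw [abs_sub_comm] at this
        exact absurd h3 (not_lt.2 this)
      · obtain ⟨r, hr, h1⟩ := ev_prod.1 (ht.lcW e he y₁ hy)
        rw [ev_prod]
        refine ⟨r, hr, fun x' y' h2 h3 _ => ?_⟩
        exact (h1 x' y' h2 h3).trans (h1 x₀ y' (fun i => by simpa using hr) h3).symm

/-- local constancy of `TA`, uniformly on bounded sets -/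
theorem ev_TA (hE : Nice L E) (hd : Df L A) {x₀ : β → K}
    (hA : ∀ u v : α → K, (∀ a, u a ∉ E x₀ ∧ v a ∉ E x₀) →
        ∀ᶠ p in 𝓝 (x₀, (u, v)), (TA A E p.1 p.2.1 p.2.2 ↔ TA A E x₀ u v)) {η : K}
    (hη : 0 < η) (R : K) :
    ∀ᶠ x in 𝓝 x₀, ∀ u v : α → K, (∀ a, |u a| ≤ R) → (∀ a, |v a| ≤ R) →
      (∀ a, ∀ z ∈ E x₀, η ≤ |z - u a|) → (∀ a, ∀ z ∈ E x₀, η ≤ |z - v a|) →
      (TA A E x u v ↔ TA A E x₀ u v) := by
  have key := dcompact (L := L) (β := β) (γ := α ⊕ α) (P := fun x w =>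
    (∀ a, ∀ z ∈ E x₀, η ≤ |z - w (Sum.inl a)|) → (∀ a, ∀ z ∈ E x₀, η ≤ |z - w (Sum.inr a)|) →
    (TA A E x (fun a => w (Sum.inl a)) (fun a => w (Sum.inr a)) ↔
      TA A E x₀ (fun a => w (Sum.inl a)) (fun a => w (Sum.inr a)))) ?_ (x₀ := x₀) (t := R) ?_
  · filter_upwards [key] with x hx u v hu hv hu' hv'
    exact hx (Sum.elim u v) (by rintro (a | a) <;> simp [hu, hv]) hu' hv'
  · refine Df.imp ?_ (Df.imp ?_ (Df.iff ?_ ?_))
    · (repeat' (intros; beta_reduce; first | apply (hE.mem) | exact Dvar _ | exact Dconst _ | assumption | apply Dadd | apply Dsub | apply Dmul | apply Dneg | apply Dabs | apply Dlt | apply Dle | apply Deq | apply Df.and | apply Df.or | apply Df.not | apply Df.iff | apply Df.imp | apply Df.ex1 | apply Df.all1 | apply Df.exT | apply Df.allT | apply Df.all_fin | apply Df.ex_fin | exact Df.const _))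
    · (repeat' (intros; beta_reduce; first | apply (hE.mem) | exact Dvar _ | exact Dconst _ | assumption | apply Dadd | apply Dsub | apply Dmul | apply Dneg | apply Dabs | apply Dlt | apply Dle | apply Deq | apply Df.and | apply Df.or | apply Df.not | apply Df.iff | apply Df.imp | apply Df.ex1 | apply Df.all1 | apply Df.exT | apply Df.allT | apply Df.all_fin | apply Df.ex_fin | exact Df.const _))
    · exact df_TA hE hd (fun i => Dvar _) (fun i => Dvar _) (fun i => Dvar _)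
    · exact df_TA hE hd (fun i => Dconst _) (fun i => Dvar _) (fun i => Dvar _)
  · intro w _
    by_cases hw : (∀ a, w (Sum.inl a) ∉ E x₀ ∧ w (Sum.inr a) ∉ E x₀)
    · have h1 := hA (fun a => w (Sum.inl a)) (fun a => w (Sum.inr a)) hw
      have hcont : Continuous (fun p : (β → K) × (α ⊕ α → K) =>
          (p.1, ((fun a => p.2 (Sum.inl a), fun a => p.2 (Sum.inr a)) : (α → K) × (α → K)))) := by
        fun_prop
      have h2 := (hcont.tendsto (x₀, w)).eventually h1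
      obtain ⟨r, hr, h3⟩ := ev_box2.1 h2
      rw [ev_box2]
      refine ⟨r, hr, fun x' w' h4 h5 _ _ => ?_⟩
      exact (h3 x' w' h4 h5).trans (h3 x₀ w' (fun i => by simpa using hr) h5).symm
    · push Not at hw
      obtain ⟨a, ha⟩ := hw
      rw [ev_box2]
      refine ⟨η, hη, fun x' w' _ h3 h4 h4' => ?_⟩
      exfalso
      by_cases h5 : w (Sum.inl a) ∈ E x₀
      · have := h4 a _ h5
        rw [abs_sub_comm] at this
        exact absurd (h3 (Sum.inl a)) (not_lt.2 this)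
      · have := h4' a _ (ha h5)
        rw [abs_sub_comm] at this
        exact absurd (h3 (Sum.inr a)) (not_lt.2 this)

theorem df_Q (S : Sc K L) (hE : Nice L E) (hd : Df L A) :
    Df L (fun w : Unit ⊕ (β ⊕ α) ⊕ (β ⊕ α) → K => ∀ e, e ∈ S.D → e ≤ w (Sum.inl ()) →
      (Mr S A E e (fun i => w (Sum.inr (Sum.inl (Sum.inl i))))
        (fun i => w (Sum.inr (Sum.inl (Sum.inr i)))) ↔
      Mr S A E e (fun i => w (Sum.inr (Sum.inr (Sum.inl i))))
        (fun i => w (Sum.inr (Sum.inr (Sum.inr i)))))) := by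
  refine Df.all1 (Q := fun e (w : Unit ⊕ (β ⊕ α) ⊕ (β ⊕ α) → K) => e ∈ S.D →
    e ≤ w (Sum.inl ()) → (Mr S A E e (fun i => w (Sum.inr (Sum.inl (Sum.inl i))))
        (fun i => w (Sum.inr (Sum.inl (Sum.inr i)))) ↔
      Mr S A E e (fun i => w (Sum.inr (Sum.inr (Sum.inl i))))
        (fun i => w (Sum.inr (Sum.inr (Sum.inr i)))))) ?_
  refine Df.imp (S.hD.mem (Dvar _)) (Df.imp (Dle (Dvar _) (Dvar _)) (Df.iff ?_ ?_))
  · exact df_Mr S hE hd (Dvar _) (fun i => Dvar _) (fun i => Dvar _)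
  · exact df_Mr S hE hd (Dvar _) (fun i => Dvar _) (fun i => Dvar _)

/-- Brick LC. -/
theorem loc_closed (S : Sc K L) (hS : TameFor S) (hA : TAz L K) {α : Type} [Finite α]
    {A : (α → K) → Prop} (hc : IsClosed {v | A v}) (hd : Df L A) : Loc S A := by
  intro β _ E hE
  obtain ⟨Z, hZ, hT⟩ := hS β E hE
  obtain ⟨Z', hZ', hT'⟩ := hA α β E hE A hc hd
  refine ⟨Z ∪ Z', hZ.union hZ', fun d x c x' c' => ∀ e, e ∈ S.D → e ≤ d →
    (Mr S A E e x c ↔ Mr S A E e x' c'), ?_⟩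
  refine ⟨df_Q S hE hd, fun d x c e _ _ => Iff.rfl, fun d x c x' c' h e he hed => (h e he hed).symm,
    fun d x c x' c' x'' c'' h h' e he hed => (h e he hed).trans (h' e he hed),
    fun d d' x c x' c' hdd h e he hed => h e he (hed.trans hdd), ?_, ?_⟩
  · intro x₀ hx₀ d hdD
    have ht := hT x₀ fun h => hx₀ (Or.inl h)
    have hta := hT' x₀ fun h => hx₀ (Or.inr h)
    obtain ⟨η₁, hη₁, R, hbd⟩ := ht.bd d hdD
    have hη : 0 < η₁ / 4 := by positivity
    have hbd0 := hbd.self_of_nhds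
    refine ⟨η₁ / 4, hη, ?_⟩
    filter_upwards [hbd, ev_lsc S hE ht hη (R + η₁), ev_lcW S hE ht hη R d, ev_TA hE hd hta hη R]
      with x hbx hlsc hlcW hTA c₀ c hc₀ hc hN e he hed
    have hed0 : 0 ≤ e := (S.pos e he).le
    constructor
    · -- `M` at `x₀` implies `M` at `x`
      intro hM u v huv
      have h1 : ∀ a, ∃ u', (∀ z ∈ uIcc (u a) u', z ∉ E x) ∧ |u'| ≤ R ∧
          ∀ z, |z - u'| < η₁ → z ∉ E x := fun a => hbx _ (S.mono _ _ _ hed (huv a).2.2.1)
      have h2 : ∀ a, ∃ v', (∀ z ∈ uIcc (v a) v', z ∉ E x) ∧ |v'| ≤ R ∧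
          ∀ z, |z - v'| < η₁ → z ∉ E x := fun a => hbx _ (S.mono _ _ _ hed (huv a).2.2.2)
      choose u' hu1 hu2 hu3 using h1
      choose v' hv1 hv2 hv3 using h2
      have free : ∀ y, |y| ≤ R → (∀ z, |z - y| < η₁ → z ∉ E x) →
          ∀ z ∈ E x₀, η₁ / 4 ≤ |z - y| := by
        intro y hy hy' z hz
        by_contra hcon
        push Not at hcon
        rw [abs_lt] at hcon
        rw [abs_le] at hy
        obtain ⟨z', hz', hz''⟩ := hlsc z (by linarith) (by linarith) hz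
        refine hy' z' ?_ hz'
        rw [abs_lt] at hz'' ⊢
        constructor <;> linarith
      have huf := fun a => free (u' a) (hu2 a) (hu3 a)
      have hvf := fun a => free (v' a) (hv2 a) (hv3 a)
      have huW : ∀ a, u' a ∈ S.W e (E x) := fun a =>
        S.sat _ _ _ _ (hE.fib x) (huv a).2.2.1 (hu1 a)
      have hvW : ∀ a, v' a ∈ S.W e (E x) := fun a =>
        S.sat _ _ _ _ (hE.fib x) (huv a).2.2.2 (hv1 a)
      have huW0 : ∀ a, u' a ∈ S.W e (E x₀) := fun a =>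
        (hlcW e he hed0 hed _ (abs_le.1 (hu2 a)).1 (abs_le.1 (hu2 a)).2 (huf a)).1 (huW a)
      have hvW0 : ∀ a, v' a ∈ S.W e (E x₀) := fun a =>
        (hlcW e he hed0 hed _ (abs_le.1 (hv2 a)).1 (abs_le.1 (hv2 a)).2 (hvf a)).1 (hvW a)
      have hTA0 : TA A E x₀ u' v' := by
        refine hM u' v' fun a => ⟨?_, ?_, huW0 a, hvW0 a⟩
        · have h3 : u' a < c a := (gap_lt (hc a) (hu1 a)).1.1 (huv a).1
          have h4 : ¬ c₀ a < u' a := fun h =>
            absurd ((hN a (u' a) (S.mono _ _ _ hed (huW0 a)) (huf a)).1 h) (not_lt.2 h3.le)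
          have h5 : u' a ≠ c₀ a := fun h => S.sub _ _ _ (huW0 a) (h ▸ hc₀ a)
          exact lt_of_le_of_ne (not_lt.1 h4) h5
        · have h3 : c a < v' a := (gap_lt (hc a) (hv1 a)).2.1 (huv a).2.1
          exact (hN a (v' a) (S.mono _ _ _ hed (hvW0 a)) (hvf a)).2 h3
      exact (TA_gap hu1 hv1).2 ((hTA u' v' hu2 hv2 huf hvf).2 hTA0)
    · -- `M` at `x` implies `M` at `x₀`
      intro hM u v huv
      have h1 : ∀ a, ∃ u', (∀ z ∈ uIcc (u a) u', z ∉ E x₀) ∧ |u'| ≤ R ∧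
          ∀ z, |z - u'| < η₁ → z ∉ E x₀ := fun a => hbd0 _ (S.mono _ _ _ hed (huv a).2.2.1)
      have h2 : ∀ a, ∃ v', (∀ z ∈ uIcc (v a) v', z ∉ E x₀) ∧ |v'| ≤ R ∧
          ∀ z, |z - v'| < η₁ → z ∉ E x₀ := fun a => hbd0 _ (S.mono _ _ _ hed (huv a).2.2.2)
      choose u' hu1 hu2 hu3 using h1
      choose v' hv1 hv2 hv3 using h2
      have free : ∀ y, (∀ z, |z - y| < η₁ → z ∉ E x₀) → ∀ z ∈ E x₀, η₁ / 4 ≤ |z - y| := by
        intro y hy' z hz
        by_contra hcon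
        push Not at hcon
        exact hy' z (by linarith) hz
      have huf := fun a => free (u' a) (hu3 a)
      have hvf := fun a => free (v' a) (hv3 a)
      have huW0 : ∀ a, u' a ∈ S.W e (E x₀) := fun a =>
        S.sat _ _ _ _ (hE.fib x₀) (huv a).2.2.1 (hu1 a)
      have hvW0 : ∀ a, v' a ∈ S.W e (E x₀) := fun a =>
        S.sat _ _ _ _ (hE.fib x₀) (huv a).2.2.2 (hv1 a)
      have huW : ∀ a, u' a ∈ S.W e (E x) := fun a =>
        (hlcW e he hed0 hed _ (abs_le.1 (hu2 a)).1 (abs_le.1 (hu2 a)).2 (huf a)).2 (huW0 a)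
      have hvW : ∀ a, v' a ∈ S.W e (E x) := fun a =>
        (hlcW e he hed0 hed _ (abs_le.1 (hv2 a)).1 (abs_le.1 (hv2 a)).2 (hvf a)).2 (hvW0 a)
      have hTA1 : TA A E x u' v' := by
        refine hM u' v' fun a => ⟨?_, ?_, huW a, hvW a⟩
        · have h3 : u' a < c₀ a := (gap_lt (hc₀ a) (hu1 a)).1.1 (huv a).1
          have h4 : ¬ c a < u' a := fun h =>
            absurd ((hN a (u' a) (S.mono _ _ _ hed (huW0 a)) (huf a)).2 h) (not_lt.2 h3.le)
          have h5 : u' a ≠ c a := fun h => S.sub _ _ _ (huW a) (h ▸ hc a)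
          exact lt_of_le_of_ne (not_lt.1 h4) h5
        · have h3 : c₀ a < v' a := (gap_lt (hc₀ a) (hv1 a)).2.1 (huv a).2.1
          exact (hN a (v' a) (S.mono _ _ _ hed (hvW0 a)) (hvf a)).1 h3
      exact (TA_gap hu1 hv1).2 ((hTA u' v' hu2 hv2 huf hvf).1 hTA1)
  · intro x₀ hx₀ x₁ hx₁ c₀ c₁ hc₀ hc₁ h
    rw [Mr_iff S hE hc (hT x₀ fun h => hx₀ (Or.inl h)).nd hc₀,
      Mr_iff S hE hc (hT x₁ fun h => hx₁ (Or.inl h)).nd hc₁]
    exact forall₂_congr fun e he => h e he e he le_rfl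

end closed

end Pool.Agent.K3h92.OC
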