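import Mathlib
import Pool.Agent.K3h92.OC.Unif

set_option autoImplicit false
set_option linter.unusedSectionVars false

/-! Back-and-forth systems: the existential quantifier. -/

namespace Pool.Agent.K3h92.OC

open FirstOrder FirstOrder.Language Set Filter Topology

variable {K : Type} [Field K] [LinearOrder K] [IsStrictOrderedRing K] [TopologicalSpace K]
  [OrderTopology K]
variable {L : FirstOrder.Language.{0, 0}} [L.Structure K]

theorem Dcons {α β : Type} {y : (α → K) → K} {x : β → (α → K) → K} (hy : DfF L y)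
    (hx : ∀ i, DfF L (x i)) (o : Option β) :
    DfF L (fun v => cons (y v) (fun i => x i v) o) := by
  cases o with
  | none => exact hy
  | some i => exact hx i

/-- The family with a point adjoined. -/
def addPt {β : Type} (E : (β → K) → Set K) : (Option β → K) → Set K :=
  fun v => {y | y ∈ E (fun i => v (some i)) ∨ y = v none}

/-- The family with the fibres of a set adjoined. -/
def addFib {β : Type} (E : (β → K) → Set K) (Z : Set (Option β → K)) : (β → K) → Set K :=
  fun x => {y | y ∈ E x ∨ cons y x ∈ Z}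

theorem nice_addPt {β : Type} [Finite β] {E : (β → K) → Set K} (hE : Nice L E) :
    Nice L (addPt E) where
  closed := by
    refine IsClosed.union ?_ ?_
    · exact hE.closed.preimage (f := fun p : (Option β → K) × K => ((fun i => p.1 (some i)), p.2))
        (by fun_prop)
    · exact isClosed_eq (f := fun p : (Option β → K) × K => p.2) (g := fun p => p.1 none)
        (by fun_prop) (by fun_prop)
  nd := by
    have h1 : IsClosed {p : (Option β → K) × K | p.2 ∈ E (fun i => p.1 (some i))} :=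
      hE.closed.preimage (f := fun p : (Option β → K) × K => ((fun i => p.1 (some i)), p.2))
        (by fun_prop)
    have h2 : interior {p : (Option β → K) × K | p.2 = p.1 none} = ∅ := by
      rw [eq_empty_iff_forall_notMem]
      rintro ⟨v, y⟩ hv
      have hv1 := mem_interior_iff_mem_nhds.1 hv
      obtain ⟨r, hr, h⟩ := (ev_prod (P := fun p : (Option β → K) × K => p.2 = p.1 none)).1 hv1
      have g1 : y = v none := (interior_subset hv :
        (v, y) ∈ {p : (Option β → K) × K | p.2 = p.1 none})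
      have g2 : y + r / 2 = v none := h v (y + r / 2) (fun i => by simpa using hr) (by
        have : y + r / 2 - y = r / 2 := by ring
        rw [this, abs_of_pos (by linarith)]
        linarith)
      linarith
    have h3 : interior {p : (Option β → K) × K | p.2 ∈ E (fun i => p.1 (some i))} = ∅ := by
      rw [eq_empty_iff_forall_notMem]
      rintro ⟨v, y⟩ hv
      have hv1 := mem_interior_iff_mem_nhds.1 hv
      obtain ⟨r, hr, h⟩ := (ev_prod (P := fun p : (Option β → K) × K =>
        p.2 ∈ E (fun i => p.1 (some i)))).1 hv1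
      have : ((fun i => v (some i)), y) ∈ interior {p : (β → K) × K | p.2 ∈ E p.1} := by
        rw [mem_interior_iff_mem_nhds]
        refine (ev_prod (P := fun p : (β → K) × K => p.2 ∈ E p.1)).2 ⟨r, hr, fun x' y' g1 g2 => ?_⟩
        refine h (cons (v none) x') y' ?_ g2
        rintro (_ | i)
        · simpa using hr
        · exact g1 i
      rw [hE.nd] at this
      exact this
    have h4 := interior_union_isClosed_of_interior_empty h1 h2
    rw [h3] at h4
    exact h4
  df := by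
    show Df L (fun w : Option (Option β) → K => w none ∈ E (fun i => w (some (some i))) ∨
      w none = w (some none))
    (repeat' (intros; beta_reduce; first | apply (hE.mem) | exact Dvar _ | exact Dconst _ | assumption | apply Dadd | apply Dsub | apply Dmul | apply Dneg | apply Dabs | apply Dlt | apply Dle | apply Deq | apply Df.and | apply Df.or | apply Df.not | apply Df.iff | apply Df.imp | apply Df.ex1 | apply Df.all1 | apply Df.exT | apply Df.allT | apply Df.all_fin | apply Df.ex_fin | exact Df.const _))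

theorem nice_addFib {β : Type} [Finite β] {E : (β → K) → Set K} (hE : Nice L E)
    {Z : Set (Option β → K)} (hZ : Small L Z) : Nice L (addFib E Z) where
  closed := by
    refine IsClosed.union hE.closed ?_
    exact hZ.closed.preimage (f := fun p : (β → K) × K => cons p.2 p.1)
      (continuous_cons continuous_snd continuous_fst)
  nd := by
    have h2 : interior {p : (β → K) × K | cons p.2 p.1 ∈ Z} = ∅ := by
      rw [eq_empty_iff_forall_notMem]
      rintro ⟨x, y⟩ hv
      have hv1 := mem_interior_iff_mem_nhds.1 hv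
      obtain ⟨r, hr, h⟩ := (ev_prod (P := fun p : (β → K) × K => cons p.2 p.1 ∈ Z)).1 hv1
      have : cons y x ∈ interior Z := by
        rw [mem_interior_iff_mem_nhds]
        refine (ev_box (P := fun v => v ∈ Z)).2 ⟨r, hr, fun v g => ?_⟩
        have := h (fun i => v (some i)) (v none) (fun i => g (some i)) (g none)
        simpa [cons_eta] using this
      rw [hZ.int] at this
      exact this
    have h4 := interior_union_isClosed_of_interior_empty hE.closed h2
    rw [hE.nd] at h4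
    exact h4
  df := by
    have hZ' : ∀ {α : Type} [Finite α] {f : Option β → (α → K) → K}, (∀ i, DfF L (f i)) →
        Df L (fun v => (fun i => f i v) ∈ Z) := fun hf => hZ.df.substT hf
    show Df L (fun w : Option β → K => w none ∈ E (fun i => w (some i)) ∨
      cons (w none) (fun i => w (some i)) ∈ Z)
    refine Df.or (by (repeat' (intros; beta_reduce; first | apply (hE.mem) | exact Dvar _ | exact Dconst _ | assumption | apply Dadd | apply Dsub | apply Dmul | apply Dneg | apply Dabs | apply Dlt | apply Dle | apply Deq | apply Df.and | apply Df.or | apply Df.not | apply Df.iff | apply Df.imp | apply Df.ex1 | apply Df.all1 | apply Df.exT | apply Df.allT | apply Df.all_fin | apply Df.ex_fin | exact Df.const _))) ?_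
    exact hZ' (f := fun o (w : Option β → K) => cons (w none) (fun i => w (some i)) o)
      (Dcons (Dvar _) (fun i => Dvar _))

theorem Sys.dfQ {S : Sc K L} {α β : Type} [Finite α] [Finite β] {P : (α → K) → Prop}
    {E : (β → K) → Set K} {Z : Set (β → K)}
    {Q : K → (β → K) → (α → K) → (β → K) → (α → K) → Prop} (s : Sys S P E Z Q)
    {γ : Type} [Finite γ] {k : (γ → K) → K} {f f' : β → (γ → K) → K} {g g' : α → (γ → K) → K}
    (hk : DfF L k) (hf : ∀ i, DfF L (f i)) (hg : ∀ i, DfF L (g i)) (hf' : ∀ i, DfF L (f' i))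
    (hg' : ∀ i, DfF L (g' i)) :
    Df L (fun v => Q (k v) (fun i => f i v) (fun i => g i v) (fun i => f' i v)
      (fun i => g' i v)) :=
  Df.substT (f := fun (o : Unit ⊕ (β ⊕ α) ⊕ (β ⊕ α)) (v : γ → K) =>
    Sum.elim (fun _ => k v) (Sum.elim (Sum.elim (fun i => f i v) (fun i => g i v))
      (Sum.elim (fun i => f' i v) (fun i => g' i v))) o) s.df (by
    rintro (_ | (i | i) | (i | i))
    · exact hk
    · exact hf i
    · exact hg i
    · exact hf' i
    · exact hg' i)

variable [DC L K]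

section

variable {S : Sc K L} {α β : Type} [Finite α] [Finite β] {P : (Option α → K) → Prop}
  {E : (β → K) → Set K} {Z : Set (Option β → K)}
  {Q : K → (Option β → K) → (Option α → K) → (Option β → K) → (Option α → K) → Prop}

/-- Constancy along a gap. -/
theorem gc (s : Sys S P (addPt E) Z Q) {d : K} (hd : d ∈ S.D) {x : β → K} {c : α → K}
    (hc : ∀ a, c a ∈ E x) {y y' : K} (hf : ∀ z ∈ uIcc y y', cons z x ∉ Z) :
    Q d (cons y x) (cons y c) (cons y' x) (cons y' c) := by
  wlog hyy : y ≤ y' generalizing y y'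
  · exact s.symm _ _ _ _ _ (this (by rwa [uIcc_comm]) (le_of_not_ge hyy))
  rw [uIcc_of_le hyy] at hf
  refine interval_induction (L := L) (P := fun t => Q d (cons y x) (cons y c) (cons t x)
    (cons t c)) hyy ?_ (s.refl _ _ _) ?_
  · (repeat' (intros; beta_reduce; first | apply (s.dfQ) | apply (Dcons) | exact Dvar _ | exact Dconst _ | assumption | apply Dadd | apply Dsub | apply Dmul | apply Dneg | apply Dabs | apply Dlt | apply Dle | apply Deq | apply Df.and | apply Df.or | apply Df.not | apply Df.iff | apply Df.imp | apply Df.ex1 | apply Df.all1 | apply Df.exT | apply Df.allT | apply Df.all_fin | apply Df.ex_fin | exact Df.const _))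
  · intro t h1 h2
    obtain ⟨η, hη, hloc⟩ := s.loc (cons t x) (hf t ⟨h1, h2⟩) d hd
    obtain ⟨r, hr, hloc⟩ := ev_box.1 hloc
    refine ⟨min η r, lt_min hη hr, fun t' _ _ h3 => ?_⟩
    have key : Q d (cons t x) (cons t c) (cons t' x) (cons t' c) := by
      refine hloc (cons t' x) ?_ (cons t c) (cons t' c) ?_ ?_ ?_
      · rintro (_ | i)
        · exact h3.trans_le (min_le_right _ _)
        · simpa using hr
      · rintro (_ | a)
        · exact Or.inr rfl
        · exact Or.inl (hc a)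
      · rintro (_ | a)
        · exact Or.inr rfl
        · exact Or.inl (hc a)
      · rintro (_ | a) w _ hw
        · have h4 := hw t (Or.inr rfl)
          have h5 := abs_lt.1 (h3.trans_le (min_le_left _ _))
          show t < w ↔ t' < w
          rcases le_abs.1 h4 with h6 | h6
          · constructor <;> intro <;> linarith
          · constructor <;> intro <;> linarith
        · rfl
    exact ⟨fun h => s.trans _ _ _ _ _ _ _ h (s.symm _ _ _ _ _ key),
      fun h => s.trans _ _ _ _ _ _ _ h key⟩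

/-- Uniform radius for gap moves. -/
theorem unif_gap (s : Sys S P (addPt E) Z Q) (hE : Nice L E) (hZ : Small L Z) {d : K}
    (hd : d ∈ S.D) (x₀ : β → K) (R : K) {θ : K} (hθ : 0 < θ) :
    ∃ ρ > 0, ∀ x : β → K, (∀ i, |x i - x₀ i| < ρ) → ∀ y, |y| ≤ R →
      (∀ z ∈ addFib E Z x₀, θ ≤ |z - y|) → ∀ c₀ c : α → K, (∀ a, c₀ a ∈ E x₀) →
      (∀ a, c a ∈ E x) → (∀ a, ∀ w ∈ S.W d (E x₀), (∀ z ∈ E x₀, ρ ≤ |z - w|) →
        (c₀ a < w ↔ c a < w)) → Q d (cons y x₀) (cons y c₀) (cons y x) (cons y c) := by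
  have hE2 := nice_addFib hE hZ
  have h := dcompact1 (L := L) (P := fun (s : Unit → K) y => 0 < s () →
    (∀ z ∈ addFib E Z x₀, θ ≤ |z - y|) → ∀ x : β → K, (∀ i, |x i - x₀ i| < s ()) →
      ∀ c₀ c : α → K, (∀ a, c₀ a ∈ E x₀) →
      (∀ a, c a ∈ E x) → (∀ a, ∀ w ∈ S.W d (E x₀), (∀ z ∈ E x₀, s () ≤ |z - w|) →
        (c₀ a < w ↔ c a < w)) → Q d (cons y x₀) (cons y c₀) (cons y x) (cons y c))
    (x₀ := fun _ => 0) (a := -R) (b := R) ?_ ?_
  · obtain ⟨r, hr, h⟩ := ev_box.1 h
    refine ⟨r / 2, by linarith, fun x hx y hy hyf c₀ c hc₀ hc hN => ?_⟩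
    refine h (fun _ => r / 2) (fun _ => ?_) y (abs_le.1 hy).1 (abs_le.1 hy).2
      (by show 0 < r / 2; linarith) hyf x hx c₀ c hc₀ hc hN
    rw [sub_zero, abs_of_pos (by linarith)]
    linarith
  · (repeat' (intros; beta_reduce; first | apply (s.dfQ) | apply (Dcons) | apply (hE2.mem) | apply (hE.memW S) | apply (hE.mem) | exact Dvar _ | exact Dconst _ | assumption | apply Dadd | apply Dsub | apply Dmul | apply Dneg | apply Dabs | apply Dlt | apply Dle | apply Deq | apply Df.and | apply Df.or | apply Df.not | apply Df.iff | apply Df.imp | apply Df.ex1 | apply Df.all1 | apply Df.exT | apply Df.allT | apply Df.all_fin | apply Df.ex_fin | exact Df.const _))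
  · intro y _ _
    by_cases hf : ∀ z ∈ addFib E Z x₀, θ ≤ |z - y|
    · have hy := notMem_of_free hθ hf
      have hyZ : cons y x₀ ∉ Z := fun h => hy (Or.inr h)
      obtain ⟨η, hη, hloc⟩ := s.loc (cons y x₀) hyZ d hd
      obtain ⟨r, hr, hloc⟩ := ev_box.1 hloc
      rw [ev_prod]
      refine ⟨min η r, lt_min hη hr, fun t y' ht hy' ht0 _ x hx c₀ c hc₀ hc hN => ?_⟩
      have ht' : t () < min η r := by
        have := ht ()
        rw [sub_zero] at this
        exact (le_abs_self _).trans_lt this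
      have key : ∀ (x : β → K) (c : α → K), (∀ i, |x i - x₀ i| < t ()) → (∀ a, c a ∈ E x) →
          (∀ a, ∀ w ∈ S.W d (E x₀), (∀ z ∈ E x₀, t () ≤ |z - w|) → (c₀ a < w ↔ c a < w)) →
          Q d (cons y x₀) (cons y c₀) (cons y' x) (cons y' c) := by
        intro x c hx hc hN
        refine hloc (cons y' x) ?_ (cons y c₀) (cons y' c) ?_ ?_ ?_
        · rintro (_ | i)
          · exact hy'.trans_le (min_le_right _ _)
          · exact (hx i).trans (ht'.trans_le (min_le_right _ _))
        · rintro (_ | a)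
          · exact Or.inr rfl
          · exact Or.inl (hc₀ a)
        · rintro (_ | a)
          · exact Or.inr rfl
          · exact Or.inl (hc a)
        · rintro (_ | a) w hw hwf
          · have h4 := hwf y (Or.inr rfl)
            have h5 := abs_lt.1 (hy'.trans_le (min_le_left _ _))
            show y < w ↔ y' < w
            rcases le_abs.1 h4 with h6 | h6
            · constructor <;> intro <;> linarith
            · constructor <;> intro <;> linarith
          · refine hN a w (S.anti d _ _ (fun z hz => Or.inl hz) hw) fun z hz => ?_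
            exact (ht'.le.trans (min_le_left _ _)).trans (hwf z (Or.inl hz))
      have k1 := key x c hx hc hN
      have k2 := key x₀ c₀ (fun i => by simpa using ht0) hc₀ (fun a w _ _ => Iff.rfl)
      exact s.trans _ _ _ _ _ _ _ (s.symm _ _ _ _ _ k2) k1
    · push Not at hf
      obtain ⟨z, hz, hzy⟩ := hf
      rw [ev_prod]
      refine ⟨θ - |z - y|, by linarith, fun t y' _ h2 _ h3 => ?_⟩
      exfalso
      have h4 := h3 z hz
      have h5 : |z - y'| ≤ |z - y| + |y - y'| := abs_sub_le _ _ _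
      rw [abs_sub_comm y y'] at h5
      have h2' : |y' - y| < θ - |z - y| := h2
      have h4' : θ ≤ |z - y'| := h4
      linarith

end

omit [DC L K] [TopologicalSpace K] [OrderTopology K] [L.Structure K] in
theorem side_lt {C : Set K} {u u' y : K} (hf : ∀ z ∈ uIcc u u', z ∉ C) (hy : y ∈ C) (h : u < y) :
    u' < y := by
  by_contra hcon
  push Not at hcon
  exact hf y (by rw [uIcc_of_le (h.le.trans hcon)]; exact ⟨h.le, hcon⟩) hy

omit [DC L K] [TopologicalSpace K] [OrderTopology K] [L.Structure K] in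
theorem side_gt {C : Set K} {u u' y : K} (hf : ∀ z ∈ uIcc u u', z ∉ C) (hy : y ∈ C) (h : y < u) :
    y < u' := by
  by_contra hcon
  push Not at hcon
  exact hf y (by rw [uIcc_of_ge (hcon.trans h.le)]; exact ⟨hcon, h.le⟩) hy

/-- Bounded at scale `e`. -/
def Bd (S : Sc K L) (C : Set K) (e y : K) : Prop := ∃ u ∈ S.W e C, ∃ v ∈ S.W e C, u < y ∧ y < v

/-- One half of the relation for the existential quantifier. -/
def HH (S : Sc K L) {α β : Type} (E : (β → K) → Set K) (Z : Set (Option β → K))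
    (Q : K → (Option β → K) → (Option α → K) → (Option β → K) → (Option α → K) → Prop)
    (Q2 : K → (β → K) → (Option α → K) → (β → K) → (Option α → K) → Prop) (d : K)
    (x : β → K) (c : α → K) (x' : β → K) (c' : α → K) : Prop :=
  (∀ e ∈ S.D, e ≤ d → ∀ y ∈ addFib E Z x, Bd S (addFib E Z x) e y →
    ∃ y' ∈ addFib E Z x', Bd S (addFib E Z x') e y' ∧ Q2 d x (cons y c) x' (cons y' c')) ∧
  (∀ e ∈ S.D, e ≤ d → ∀ y ∈ S.W e (addFib E Z x), ∃ y' ∈ S.W e (addFib E Z x'),
    Q d (cons y x) (cons y c) (cons y' x') (cons y' c'))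

section

variable {S : Sc K L} {α β : Type} [Finite α] [Finite β] {P : (Option α → K) → Prop}
  {E : (β → K) → Set K} {Z : Set (Option β → K)} {Z2 : Set (β → K)}
  {Q : K → (Option β → K) → (Option α → K) → (Option β → K) → (Option α → K) → Prop}
  {Q2 : K → (β → K) → (Option α → K) → (β → K) → (Option α → K) → Prop}

/-- Core points of the gaps. -/
theorem core (hE2 : Nice L (addFib E Z)) {x : β → K} {d η R : K}
    (hbd : ∀ y ∈ S.W d (addFib E Z x), ∃ y', (∀ z ∈ uIcc y y', z ∉ addFib E Z x) ∧ |y'| ≤ R ∧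
      ∀ z, |z - y'| < η → z ∉ addFib E Z x) {e : K} (he : e ≤ d) {y : K}
    (hy : y ∈ S.W e (addFib E Z x)) : ∃ y' ∈ S.W e (addFib E Z x),
      (∀ z ∈ uIcc y y', z ∉ addFib E Z x) ∧ |y'| ≤ R ∧ ∀ z ∈ addFib E Z x, η ≤ |z - y'| := by
  obtain ⟨y', h1, h2, h3⟩ := hbd y (S.mono e d _ he hy)
  refine ⟨y', S.sat e _ y y' (hE2.fclosed x) hy h1, h1, h2, fun z hz => ?_⟩
  by_contra hcon
  exact h3 z (not_le.1 hcon) hz

theorem ex_loc (hE : Nice L E) (hZ : Small L Z) (s : Sys S P (addPt E) Z Q)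
    (s2 : Sys S P (addFib E Z) Z2 Q2) {x₀ : β → K} (hx₀ : x₀ ∉ Z2)
    (ht : TameAt S (addFib E Z) x₀) {d : K} (hd : d ∈ S.D) :
    ∃ η > 0, ∀ᶠ x in 𝓝 x₀, ∀ c₀ c : α → K, (∀ a, c₀ a ∈ E x₀) → (∀ a, c a ∈ E x) →
      (∀ a, ∀ y ∈ S.W d (E x₀), (∀ z ∈ E x₀, η ≤ |z - y|) → (c₀ a < y ↔ c a < y)) →
      HH S E Z Q Q2 d x₀ c₀ x c ∧ HH S E Z Q Q2 d x c x₀ c₀ := by
  have hE2 := nice_addFib hE hZ
  obtain ⟨η₂, hη₂, hloc2⟩ := s2.loc x₀ hx₀ d hd
  obtain ⟨ηd, hηd, R, hbd⟩ := ht.bd d hd
  set θ := min η₂ ηd / 2 with hθ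
  have hmin : 0 < min η₂ ηd := lt_min hη₂ hηd
  have hθ0 : 0 < θ := by linarith
  have hθ2 : θ < η₂ := by
    have := min_le_left η₂ ηd
    linarith
  have hθd : θ ≤ ηd / 2 := by
    have := min_le_right η₂ ηd
    linarith
  obtain ⟨ρ, hρ, hgap⟩ := unif_gap s hE hZ hd x₀ R (θ := ηd / 2) (by linarith)
  have hun := ht.unif hE2 d (R + ηd) hθ0
  have hbox := (nhds_box x₀).mem_of_mem hρ
  refine ⟨min η₂ ρ, lt_min hη₂ hρ, ?_⟩
  have hbd0 := hbd.self_of_nhds
  filter_upwards [hloc2, hbd, hun, hbox] with x h2 hb hu hx c₀ c hc₀ hc hN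
  obtain ⟨husc, hlsc, hlcw⟩ := hu
  -- the back-and-forth relation over the same base
  have hQ2 : ∀ y₀ ∈ addFib E Z x₀, ∀ y ∈ addFib E Z x, |y - y₀| < θ →
      Q2 d x₀ (cons y₀ c₀) x (cons y c) := by
    intro y₀ hy₀ y hy hyy
    refine h2 _ _ ?_ ?_ ?_
    · rintro (_ | a)
      · exact hy₀
      · exact Or.inl (hc₀ a)
    · rintro (_ | a)
      · exact hy
      · exact Or.inl (hc a)
    · rintro (_ | a) w hw hwf
      · have h4 := hwf y₀ hy₀
        have h5 := abs_lt.1 hyy
        show y₀ < w ↔ y < w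
        rcases le_abs.1 h4 with h6 | h6
        · constructor <;> intro <;> linarith
        · constructor <;> intro <;> linarith
      · refine hN a w (S.anti d _ _ (fun z hz => Or.inl hz) hw) fun z hz => ?_
        exact (min_le_left _ _).trans (hwf z (Or.inl hz))
  have hQ : ∀ y, |y| ≤ R → (∀ z ∈ addFib E Z x₀, ηd / 2 ≤ |z - y|) →
      Q d (cons y x₀) (cons y c₀) (cons y x) (cons y c) := by
    intro y hy hyf
    refine hgap x hx y hy hyf c₀ c hc₀ hc fun a w hw hwf => hN a w hw fun z hz => ?_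
    exact (min_le_right _ _).trans (hwf z hz)
  have hbb : ∀ {b p q : K}, |b| ≤ R → |p| ≤ R → b < q → q < p → |q| ≤ R := by
    intro b p q h1 h2 h3 h4
    rw [abs_le] at h1 h2 ⊢
    constructor <;> linarith
  -- free points at `x` are free at `x₀`
  have hfree : ∀ y, |y| ≤ R → (∀ z ∈ addFib E Z x, ηd ≤ |z - y|) →
      ∀ z ∈ addFib E Z x₀, ηd / 2 ≤ |z - y| := by
    intro y hy hyf z hz
    by_contra hcon
    push Not at hcon
    have hzR : |z| ≤ R + ηd := by
      have : |z| ≤ |z - y| + |y| := by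
        have := abs_add_le (z - y) y
        simpa using this
      linarith
    obtain ⟨z', hz', h1⟩ := hlsc z hz hzR
    have h2 := hyf z' hz'
    have h3 : |z' - y| ≤ |z' - z| + |z - y| := abs_sub_le _ _ _
    linarith
  refine ⟨⟨?_, ?_⟩, ⟨?_, ?_⟩⟩
  · rintro e he hed y₀ hy₀ ⟨u₀, hu₀, v₀, hv₀, h3, h4⟩
    obtain ⟨u, hu, hu1, hu2, hu3⟩ := core hE2 hbd0 hed hu₀
    obtain ⟨v, hv, hv1, hv2, hv3⟩ := core hE2 hbd0 hed hv₀
    have g1 := side_lt hu1 hy₀ h3
    have g2 := side_gt hv1 hy₀ h4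
    have g3 := hbb hu2 hv2 g1 g2
    obtain ⟨y, hy, g4⟩ := hlsc y₀ hy₀ (by linarith)
    have g5 := hu3 y₀ hy₀
    have g6 := hv3 y₀ hy₀
    have g7 := abs_lt.1 g4
    refine ⟨y, hy, ⟨u, ?_, v, ?_, ?_, ?_⟩, hQ2 y₀ hy₀ y hy g4⟩
    · exact (hlcw e he hed u (by linarith) fun z hz => by
        have := hu3 z hz
        linarith).2 hu
    · exact (hlcw e he hed v (by linarith) fun z hz => by
        have := hv3 z hz
        linarith).2 hv
    · rw [abs_of_pos (by linarith)] at g5
      linarith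
    · rw [abs_of_neg (by linarith)] at g6
      linarith
  · intro e he hed y₀ hy₀
    obtain ⟨y₁, h3, h4, h5, h6⟩ := core hE2 hbd0 hed hy₀
    refine ⟨y₁, (hlcw e he hed y₁ (by linarith) fun z hz => by
        have := h6 z hz
        linarith).2 h3, ?_⟩
    have k1 := gc s hd hc₀ (y := y₀) (y' := y₁) (fun z hz h => h4 z hz (Or.inr h))
    have k2 := hQ y₁ h5 fun z hz => by
      have := h6 z hz
      linarith
    exact s.trans _ _ _ _ _ _ _ k1 k2
  · rintro e he hed y hy ⟨u₀, hu₀, v₀, hv₀, h3, h4⟩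
    obtain ⟨u, hu, hu1, hu2, hu3⟩ := core hE2 hb hed hu₀
    obtain ⟨v, hv, hv1, hv2, hv3⟩ := core hE2 hb hed hv₀
    have g1 := side_lt hu1 hy h3
    have g2 := side_gt hv1 hy h4
    have g3 := hbb hu2 hv2 g1 g2
    obtain ⟨y₀, hy₀, g4⟩ := husc y hy (by linarith)
    have g5 := hu3 y hy
    have g6 := hv3 y hy
    have g7 := abs_lt.1 g4
    refine ⟨y₀, hy₀, ⟨u, ?_, v, ?_, ?_, ?_⟩, s2.symm _ _ _ _ _ (hQ2 y₀ hy₀ y hy (by
      rwa [abs_sub_comm]))⟩
    · exact (hlcw e he hed u (by linarith) fun z hz => by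
        have := hfree u hu2 hu3 z hz
        linarith).1 hu
    · exact (hlcw e he hed v (by linarith) fun z hz => by
        have := hfree v hv2 hv3 z hz
        linarith).1 hv
    · rw [abs_of_pos (by linarith)] at g5
      linarith
    · rw [abs_of_neg (by linarith)] at g6
      linarith
  · intro e he hed y hy
    obtain ⟨y₁, h3, h4, h5, h6⟩ := core hE2 hb hed hy
    refine ⟨y₁, (hlcw e he hed y₁ (by linarith) fun z hz => by
        have := hfree y₁ h5 h6 z hz
        linarith).1 h3, ?_⟩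
    have k1 := gc s hd hc (y := y) (y' := y₁) (fun z hz h => h4 z hz (Or.inr h))
    have k2 := hQ y₁ h5 (hfree y₁ h5 h6)
    exact s.trans _ _ _ _ _ _ _ k1 (s.symm _ _ _ _ _ k2)

theorem ex_fin (hE : Nice L E) (hZ : Small L Z) (s : Sys S P (addPt E) Z Q)
    (s2 : Sys S P (addFib E Z) Z2 Q2) {x₀ x₁ : β → K} (hx₀ : x₀ ∉ Z2) (hx₁ : x₁ ∉ Z2)
    (ht₀ : TameAt S (addFib E Z) x₀) (ht₁ : TameAt S (addFib E Z) x₁) {c₀ c₁ : α → K}
    (hc₀ : ∀ a, c₀ a ∈ E x₀) (hc₁ : ∀ a, c₁ a ∈ E x₁)
    (hH : ∀ d ∈ S.D, HH S E Z Q Q2 d x₀ c₀ x₁ c₁) (h : ∃ y, P (cons y c₀)) :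
    ∃ y, P (cons y c₁) := by
  have hE2 := nice_addFib hE hZ
  obtain ⟨y₀, hy₀⟩ := h
  by_cases hy : y₀ ∈ addFib E Z x₀
  · -- a leaf
    obtain ⟨u, hu1, hu2, hu⟩ := exists_notMem_of_interior ht₀.nd (show y₀ - 1 < y₀ by linarith)
    obtain ⟨v, hv1, hv2, hv⟩ := exists_notMem_of_interior ht₀.nd (show y₀ < y₀ + 1 by linarith)
    obtain ⟨d₁, hd₁, hud⟩ := S.exh _ u (hE2.fclosed x₀) hu
    obtain ⟨d₂, hd₂, hvd⟩ := S.exh _ v (hE2.fclosed x₀) hv
    obtain ⟨e, he, hBd⟩ : ∃ e ∈ S.D, Bd S (addFib E Z x₀) e y₀ := by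
      rcases le_total d₁ d₂ with h | h
      · exact ⟨d₂, hd₂, u, S.mono _ _ _ h hud, v, hvd, hu2, hv1⟩
      · exact ⟨d₁, hd₁, u, hud, v, S.mono _ _ _ h hvd, hu2, hv1⟩
    obtain ⟨η, hη, R, hbd⟩ := ht₁.bd e he
    have hbd := hbd.self_of_nhds
    have hcl2 := hE2.fclosed x₁
    have hnest := nested (L := L) (D := {d | d ∈ S.D ∧ e ≤ d}) ?_ ⟨e, he, le_rfl⟩
      (V := fun d y => y ∈ addFib E Z x₁ ∧ Bd S (addFib E Z x₁) e y ∧
        Q2 d x₀ (cons y₀ c₀) x₁ (cons y c₁)) ?_ ?_ ?_ ?_ R ?_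
    · obtain ⟨y, hV⟩ := hnest
      refine ⟨y, (s2.fin x₀ hx₀ x₁ hx₁ (cons y₀ c₀) (cons y c₁) ?_ ?_ ?_).1 hy₀⟩
      · rintro (_ | a)
        · exact hy
        · exact Or.inl (hc₀ a)
      · rintro (_ | a)
        · exact (hV e ⟨he, le_rfl⟩).1
        · exact Or.inl (hc₁ a)
      · intro d hd
        rcases le_total e d with h | h
        · exact (hV d ⟨hd, h⟩).2.2
        · exact s2.mono _ _ _ _ _ _ h (hV e ⟨he, le_rfl⟩).2.2
    · show Df L (fun v : Unit → K => v () ∈ S.D ∧ e ≤ v ())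
      have := S.hD
      (repeat' (intros; beta_reduce; first | apply (this.mem) | exact Dvar _ | exact Dconst _ | assumption | apply Dadd | apply Dsub | apply Dmul | apply Dneg | apply Dabs | apply Dlt | apply Dle | apply Deq | apply Df.and | apply Df.or | apply Df.not | apply Df.iff | apply Df.imp | apply Df.ex1 | apply Df.all1 | apply Df.exT | apply Df.allT | apply Df.all_fin | apply Df.ex_fin | exact Df.const _))
    · unfold Bd
      (repeat' (intros; beta_reduce; first | apply (s2.dfQ) | apply (Dcons) | apply (hE2.memW S) | apply (hE2.mem) | exact Dvar _ | exact Dconst _ | assumption | apply Dadd | apply Dsub | apply Dmul | apply Dneg | apply Dabs | apply Dlt | apply Dle | apply Deq | apply Df.and | apply Df.or | apply Df.not | apply Df.iff | apply Df.imp | apply Df.ex1 | apply Df.all1 | apply Df.exT | apply Df.allT | apply Df.all_fin | apply Df.ex_fin | exact Df.const _))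
    · rintro d ⟨hd, hed⟩
      apply isClosed_of_ball
      intro y hyl
      obtain ⟨η₂, hη₂, hloc⟩ := s2.loc x₁ hx₁ d hd
      have hloc := hloc.self_of_nhds
      obtain ⟨y', ⟨hy'1, ⟨u₀, hu₀, v₀, hv₀, h3, h4⟩, hy'3⟩, hyy⟩ := hyl (min η η₂)
        (lt_min hη hη₂)
      have hyE : y ∈ addFib E Z x₁ := by
        have : y ∈ closure (addFib E Z x₁) := by
          rw [mem_closure_ball]
          intro ε hε
          obtain ⟨y'', h, h'⟩ := hyl ε hε
          exact ⟨y'', h.1, h'⟩
        rwa [hcl2.closure_eq] at this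
      obtain ⟨u', hu', hu'1, hu'2, hu'3⟩ := core hE2 hbd le_rfl hu₀
      obtain ⟨v', hv', hv'1, hv'2, hv'3⟩ := core hE2 hbd le_rfl hv₀
      have g1 := side_lt hu'1 hy'1 h3
      have g2 := side_gt hv'1 hy'1 h4
      have g3 := hu'3 y' hy'1
      have g4 := hv'3 y' hy'1
      have g5 := abs_lt.1 (hyy.trans_le (min_le_left _ _))
      have g6 := abs_lt.1 (hyy.trans_le (min_le_right _ _))
      rw [abs_of_pos (by linarith)] at g3
      rw [abs_of_neg (by linarith)] at g4
      refine ⟨hyE, ⟨u', hu', v', hv', by linarith, by linarith⟩, ?_⟩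
      refine s2.trans _ _ _ _ _ _ _ hy'3 (hloc _ _ ?_ ?_ ?_)
      · rintro (_ | a)
        · exact hy'1
        · exact Or.inl (hc₁ a)
      · rintro (_ | a)
        · exact hyE
        · exact Or.inl (hc₁ a)
      · rintro (_ | a) w hw hwf
        · have h4 := hwf y' hy'1
          show y' < w ↔ y < w
          rcases le_abs.1 h4 with h6 | h6
          · constructor <;> intro <;> linarith
          · constructor <;> intro <;> linarith
        · rfl
    · rintro d ⟨hd, hed⟩
      obtain ⟨y', h1, h2, h3⟩ := (hH d hd).1 e he hed y₀ hy hBd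
      exact ⟨y', h1, h2, h3⟩
    · rintro d - d' - hdd y ⟨h1, h2, h3⟩
      exact ⟨h1, h2, s2.mono _ _ _ _ _ _ hdd h3⟩
    · rintro d - y ⟨h1, ⟨u₀, hu₀, v₀, hv₀, h3, h4⟩, -⟩
      obtain ⟨u', hu', hu'1, hu'2, hu'3⟩ := core hE2 hbd le_rfl hu₀
      obtain ⟨v', hv', hv'1, hv'2, hv'3⟩ := core hE2 hbd le_rfl hv₀
      have g1 := side_lt hu'1 h1 h3
      have g2 := side_gt hv'1 h1 h4
      rw [abs_le] at hu'2 hv'2 ⊢
      constructor <;> linarith
  · -- a gap
    obtain ⟨e, he, hWe⟩ := S.exh _ y₀ (hE2.fclosed x₀) hy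
    obtain ⟨η, hη, R, hbd⟩ := ht₁.bd e he
    have hbd := hbd.self_of_nhds
    have hcl2 := hE2.fclosed x₁
    have hnest := nested (L := L) (D := {d | d ∈ S.D ∧ e ≤ d}) ?_ ⟨e, he, le_rfl⟩
      (V := fun d y => y ∈ S.W e (addFib E Z x₁) ∧ |y| ≤ R ∧
        (∀ z ∈ addFib E Z x₁, η ≤ |z - y|) ∧
        Q d (cons y₀ x₀) (cons y₀ c₀) (cons y x₁) (cons y c₁)) ?_ ?_ ?_ ?_ R ?_
    · obtain ⟨y, hV⟩ := hnest
      have hyN := notMem_of_free hη (hV e ⟨he, le_rfl⟩).2.2.1
      refine ⟨y, (s.fin (cons y₀ x₀) (fun h => hy (Or.inr h)) (cons y x₁)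
        (fun h => hyN (Or.inr h)) (cons y₀ c₀) (cons y c₁) ?_ ?_ ?_).1 hy₀⟩
      · rintro (_ | a)
        · exact Or.inr rfl
        · exact Or.inl (hc₀ a)
      · rintro (_ | a)
        · exact Or.inr rfl
        · exact Or.inl (hc₁ a)
      · intro d hd
        rcases le_total e d with h | h
        · exact (hV d ⟨hd, h⟩).2.2.2
        · exact s.mono _ _ _ _ _ _ h (hV e ⟨he, le_rfl⟩).2.2.2
    · show Df L (fun v : Unit → K => v () ∈ S.D ∧ e ≤ v ())
      have := S.hD
      (repeat' (intros; beta_reduce; first | apply (this.mem) | exact Dvar _ | exact Dconst _ | assumption | apply Dadd | apply Dsub | apply Dmul | apply Dneg | apply Dabs | apply Dlt | apply Dle | apply Deq | apply Df.and | apply Df.or | apply Df.not | apply Df.iff | apply Df.imp | apply Df.ex1 | apply Df.all1 | apply Df.exT | apply Df.allT | apply Df.all_fin | apply Df.ex_fin | exact Df.const _))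
    · (repeat' (intros; beta_reduce; first | apply (s.dfQ) | apply (Dcons) | apply (hE2.memW S) | apply (hE2.mem) | exact Dvar _ | exact Dconst _ | assumption | apply Dadd | apply Dsub | apply Dmul | apply Dneg | apply Dabs | apply Dlt | apply Dle | apply Deq | apply Df.and | apply Df.or | apply Df.not | apply Df.iff | apply Df.imp | apply Df.ex1 | apply Df.all1 | apply Df.exT | apply Df.allT | apply Df.all_fin | apply Df.ex_fin | exact Df.const _))
    · rintro d ⟨hd, hed⟩
      apply isClosed_of_ball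
      intro y hyl
      have hyR : |y| ≤ R := by
        by_contra hcon
        push Not at hcon
        obtain ⟨y', ⟨-, h1, -⟩, h2⟩ := hyl (|y| - R) (by linarith)
        have : |y| ≤ |y'| + |y' - y| := by
          have h3 := abs_sub_abs_le_abs_sub y y'
          rw [abs_sub_comm y y'] at h3
          linarith
        linarith
      have hyf : ∀ z ∈ addFib E Z x₁, η ≤ |z - y| := by
        intro z hz
        by_contra hcon
        push Not at hcon
        obtain ⟨y', ⟨-, -, h1, -⟩, h2⟩ := hyl (η - |z - y|) (by linarith)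
        have h3 := h1 z hz
        have h4 : |z - y'| ≤ |z - y| + |y - y'| := abs_sub_le _ _ _
        rw [abs_sub_comm y y'] at h4
        linarith
      obtain ⟨y', ⟨h1, h2, h3, h4⟩, h5⟩ := hyl η hη
      have hfr : ∀ z ∈ uIcc y' y, z ∉ addFib E Z x₁ := by
        intro z hz hzE
        have h6 := h3 z hzE
        have h7 := abs_sub_left_of_mem_uIcc hz
        rw [abs_sub_comm y y'] at h7
        linarith
      refine ⟨S.sat e _ y' y hcl2 h1 hfr, hyR, hyf, ?_⟩
      exact s.trans _ _ _ _ _ _ _ h4 (gc s hd hc₁ (fun z hz h => hfr z hz (Or.inr h)))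
    · rintro d ⟨hd, hed⟩
      obtain ⟨y', h1, h2⟩ := (hH d hd).2 e he hed y₀ hWe
      obtain ⟨y₁, h3, h4, h5, h6⟩ := core hE2 hbd le_rfl h1
      exact ⟨y₁, h3, h5, h6, s.trans _ _ _ _ _ _ _ h2
        (gc s hd hc₁ (fun z hz h => h4 z hz (Or.inr h)))⟩
    · rintro d - d' - hdd y ⟨h1, h2, h3, h4⟩
      exact ⟨h1, h2, h3, s.mono _ _ _ _ _ _ hdd h4⟩
    · rintro d - y ⟨h1, h2, -⟩
      exact h2

/-- The existential quantifier. -/
theorem loc_ex (S : Sc K L) (hS : TameFor S) {α : Type} [Finite α] {P : (Option α → K) → Prop}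
    (h : Loc S P) : Loc S (fun c : α → K => ∃ y, P (cons y c)) := by
  intro β _ E hE
  obtain ⟨Z, hZ, Q, s⟩ := h (Option β) (addPt E) (nice_addPt hE)
  have hE2 := nice_addFib hE hZ
  obtain ⟨Z2, hZ2, Q2, s2⟩ := h β (addFib E Z) hE2
  obtain ⟨Zt, hZt, ht⟩ := hS β (addFib E Z) hE2
  have htt : ∀ x, x ∉ Z2 ∪ Zt → x ∉ Z2 ∧ TameAt S (addFib E Z) x := by
    intro x hx
    rw [mem_union, not_or] at hx
    exact ⟨hx.1, ht x hx.2⟩
  refine ⟨Z2 ∪ Zt, hZ2.union hZt, fun d x c x' c' => HH S E Z Q Q2 d x c x' c' ∧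
    HH S E Z Q Q2 d x' c' x c, ?_, ?_, ?_, ?_, ?_, ?_, ?_⟩
  · unfold HH Bd
    (repeat' (intros; beta_reduce; first | apply (s.dfQ) | apply (s2.dfQ) | apply (Dcons) | apply (hE2.memW S) | apply (hE2.mem) | apply (S.hD.mem) | exact Dvar _ | exact Dconst _ | assumption | apply Dadd | apply Dsub | apply Dmul | apply Dneg | apply Dabs | apply Dlt | apply Dle | apply Deq | apply Df.and | apply Df.or | apply Df.not | apply Df.iff | apply Df.imp | apply Df.ex1 | apply Df.all1 | apply Df.exT | apply Df.allT | apply Df.all_fin | apply Df.ex_fin | exact Df.const _))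
  · intro d x c
    have : HH S E Z Q Q2 d x c x c := ⟨fun e _ _ y hy hb => ⟨y, hy, hb, s2.refl _ _ _⟩,
      fun e _ _ y hy => ⟨y, hy, s.refl _ _ _⟩⟩
    exact ⟨this, this⟩
  · rintro d x c x' c' ⟨h1, h2⟩
    exact ⟨h2, h1⟩
  · have : ∀ d x c x' c' x'' c'', HH S E Z Q Q2 d x c x' c' → HH S E Z Q Q2 d x' c' x'' c'' →
        HH S E Z Q Q2 d x c x'' c'' := by
      rintro d x c x' c' x'' c'' ⟨h1, h2⟩ ⟨h3, h4⟩
      refine ⟨fun e he hed y hy hb => ?_, fun e he hed y hy => ?_⟩
      · obtain ⟨y', g1, g2, g3⟩ := h1 e he hed y hy hb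
        obtain ⟨y'', g4, g5, g6⟩ := h3 e he hed y' g1 g2
        exact ⟨y'', g4, g5, s2.trans _ _ _ _ _ _ _ g3 g6⟩
      · obtain ⟨y', g1, g2⟩ := h2 e he hed y hy
        obtain ⟨y'', g3, g4⟩ := h4 e he hed y' g1
        exact ⟨y'', g3, s.trans _ _ _ _ _ _ _ g2 g4⟩
    rintro d x c x' c' x'' c'' ⟨h1, h2⟩ ⟨h3, h4⟩
    exact ⟨this _ _ _ _ _ _ _ h1 h3, this _ _ _ _ _ _ _ h4 h2⟩
  · have : ∀ d d' x c x' c', d ≤ d' → HH S E Z Q Q2 d' x c x' c' →
        HH S E Z Q Q2 d x c x' c' := by
      rintro d d' x c x' c' hdd ⟨h1, h2⟩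
      refine ⟨fun e he hed y hy hb => ?_, fun e he hed y hy => ?_⟩
      · obtain ⟨y', g1, g2, g3⟩ := h1 e he (hed.trans hdd) y hy hb
        exact ⟨y', g1, g2, s2.mono _ _ _ _ _ _ hdd g3⟩
      · obtain ⟨y', g1, g2⟩ := h2 e he (hed.trans hdd) y hy
        exact ⟨y', g1, s.mono _ _ _ _ _ _ hdd g2⟩
    rintro d d' x c x' c' hdd ⟨h1, h2⟩
    exact ⟨this _ _ _ _ _ _ hdd h1, this _ _ _ _ _ _ hdd h2⟩
  · intro x₀ hx₀ d hd
    exact ex_loc hE hZ s s2 (htt x₀ hx₀).1 (htt x₀ hx₀).2 hd
  · intro x₀ hx₀ x₁ hx₁ c₀ c₁ hc₀ hc₁ hQ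
    obtain ⟨g0, g0'⟩ := htt x₀ hx₀
    obtain ⟨g1, g1'⟩ := htt x₁ hx₁
    exact ⟨ex_fin hE hZ s s2 g0 g1 g0' g1' hc₀ hc₁ (fun d hd => (hQ d hd).1),
      ex_fin hE hZ s s2 g1 g0 g1' g0' hc₁ hc₀ (fun d hd => (hQ d hd).2)⟩

end

end Pool.Agent.K3h92.OC
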