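import Mathlib
import Pool.Agent.K3h92.OC.Sel

set_option autoImplicit false

/-! Locally product relations are locally constant off a small set. -/

namespace Pool.Agent.K3h92.OC

open FirstOrder FirstOrder.Language Set Filter Topology

variable {K : Type} [Field K] [LinearOrder K] [IsStrictOrderedRing K] [TopologicalSpace K]
  [OrderTopology K]
variable {L : FirstOrder.Language.{0, 0}} [L.Structure K] [DC L K]

theorem df_closure {β α : Type} [Finite β] [Finite α] {N : (β → K) → Prop}
    (hN : Df L N) {f : β → (α → K) → K} (hf : ∀ i, DfF L (f i)) :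
    Df L (fun v : α → K => (fun i => f i v) ∈ closure {x : β → K | N x}) := by
  have hN' : ∀ {α : Type} [Finite α] {f : β → (α → K) → K}, (∀ i, DfF L (f i)) →
      Df L (fun v => N (fun i => f i v)) := by
    intro α _ f hf
    exact Df.substT (f := f) hN hf
  have h1 : Df L (fun v : α → K => ∀ ε, 0 < ε → ∃ x' : β → K,
      N x' ∧ (∀ i, |x' i - f i v| < ε)) := by
    have hf' : ∀ {α' : Type} [Finite α'] (σ : α → α') (i : β),
      DfF L (fun w : α' → K => f i (fun k => w (σ k))) := fun σ i => (hf i).relabel σ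
    refine Df.all1 (Q := fun ε (v : α → K) => 0 < ε → ∃ x' : β → K,
      N x' ∧ (∀ i, |x' i - f i v| < ε)) ?_
    refine (Dlt (Dconst _) (Dvar _)).imp ?_
    refine Df.exT (Q := fun x' (v : Option α → K) =>
      N x' ∧ (∀ i, |x' i - f i (fun k => v (some k))| < v none)) ?_
    refine (hN.relabel Sum.inr).and (Df.all_fin fun i => ?_)
    exact Dlt (Dabs (Dsub (Dvar _) (hf' (fun k => Sum.inl (some k)) i))) (Dvar _)
  refine h1.congr fun v => ?_
  rw [mem_closure_box]
  exact Iff.rfl

theorem df_closure2 {β δ α : Type} [Finite β] [Finite δ] [Finite α]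
    {N : (β → K) → (δ → K) → Prop}
    (hN : Df L (fun w : β ⊕ δ → K => N (fun i => w (Sum.inl i)) (fun j => w (Sum.inr j))))
    {f : β → (α → K) → K} {g : δ → (α → K) → K} (hf : ∀ i, DfF L (f i))
    (hg : ∀ j, DfF L (g j)) :
    Df L (fun v : α → K => ((fun i => f i v), (fun j => g j v)) ∈
      closure {p : (β → K) × (δ → K) | N p.1 p.2}) := by
  have h1 : Df L (fun v : α → K => ∀ ε, 0 < ε → ∃ x' : β → K, ∃ w' : δ → K,
      (∀ i, |x' i - f i v| < ε) ∧ (∀ j, |w' j - g j v| < ε) ∧ N x' w') := by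
    refine Df.all1 (Q := fun ε (v : α → K) => 0 < ε → ∃ x' : β → K, ∃ w' : δ → K,
      (∀ i, |x' i - f i v| < ε) ∧ (∀ j, |w' j - g j v| < ε) ∧ N x' w') ?_
    refine (Dlt (Dconst _) (Dvar _)).imp ?_
    refine Df.exT (Q := fun x' (v : Option α → K) => ∃ w' : δ → K,
      (∀ i, |x' i - f i (fun k => v (some k))| < v none) ∧
      (∀ j, |w' j - g j (fun k => v (some k))| < v none) ∧ N x' w') ?_
    refine Df.exT (Q := fun w' (v : Option α ⊕ β → K) =>
      (∀ i, |v (Sum.inr i) - f i (fun k => v (Sum.inl (some k)))| < v (Sum.inl none)) ∧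
      (∀ j, |w' j - g j (fun k => v (Sum.inl (some k)))| < v (Sum.inl none)) ∧
      N (fun i => v (Sum.inr i)) w') ?_
    refine (Df.all_fin fun i => ?_).and ((Df.all_fin fun j => ?_).and ?_)
    · exact Dlt (Dabs (Dsub (Dvar _) ((hf i).relabel _))) (Dvar _)
    · exact Dlt (Dabs (Dsub (Dvar _) ((hg j).relabel _))) (Dvar _)
    · exact hN.relabel (Sum.elim (fun i => Sum.inl (Sum.inr i)) Sum.inr)
  refine h1.congr fun v => ?_
  rw [mem_closure_box2]

/-- Local constancy along a segment. -/
theorem const_on_box {δ : Type} [Finite δ] {T : (δ → K) → Prop} (hT : Df L T)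
    {m w₁ : δ → K} (hl : ∀ s, 0 ≤ s → s ≤ 1 →
      ∀ᶠ w' in 𝓝 (fun j => m j + s * (w₁ j - m j)),
        (T w' ↔ T (fun j => m j + s * (w₁ j - m j)))) : (T w₁ ↔ T m) := by
  have hT' : ∀ {α : Type} [Finite α] {f : δ → (α → K) → K}, (∀ i, DfF L (f i)) →
      Df L (fun v => T (fun i => f i v)) := by
    intro α _ f hf
    exact Df.substT (f := f) hT hf
  have h := interval_induction (L := L) (a := (0 : K)) (b := 1) zero_le_one
    (P := fun s => (T (fun j => m j + s * (w₁ j - m j)) ↔ T m)) ?_ ?_ ?_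
  · have e : (fun j => m j + 1 * (w₁ j - m j)) = w₁ := by funext j; ring
    rwa [e] at h
  · refine Df.iff ?_ (Df.const _)
    exact hT' (fun j => Dadd (Dconst _) (Dmul (Dvar _) (Dconst _)))
  · have e : (fun j => m j + 0 * (w₁ j - m j)) = m := by funext j; ring
    rw [e]
  · intro s h0 h1
    have hc : Tendsto (fun s : K => fun j => m j + s * (w₁ j - m j)) (𝓝 s)
        (𝓝 (fun j => m j + s * (w₁ j - m j))) := by
      have : Continuous (fun s : K => fun j => m j + s * (w₁ j - m j)) := by fun_prop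
      exact this.tendsto s
    obtain ⟨r, hr, h2⟩ := ev_ball.1 (hc.eventually (hl s h0 h1))
    exact ⟨r, hr, fun y _ _ hy => by rw [h2 y hy]⟩

theorem nb_of (h : ∀ (β : Type) [Finite β], SR L K β) : NB L K := by
  intro β δ _ _ O T hO hOd hTd hT hl
  have hOe : ∀ x w, O x w → ∀ᶠ p in 𝓝 (x, w), O p.1 p.2 := fun x w h => hO.mem_nhds h
  set N : (β → K) → (δ → K) → Prop := fun x w => O x w ∧ ¬ T x w with hN
  set P : (β → K) → (δ → K) → Prop := fun x w => O x w ∧ T x w with hP
  set C : K → (β → K) → (δ → K) → Prop := fun t x w =>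
    (∀ (x' : β → K) (w' : δ → K), ¬ O x' w' → (∃ i, 1 ≤ t * |x i - x' i|) ∨
      (∃ j, 1 ≤ t * |w j - w' j|)) ∧
    (x, w) ∈ closure {p : (β → K) × (δ → K) | N p.1 p.2} ∧
    (x, w) ∈ closure {p : (β → K) × (δ → K) | P p.1 p.2} with hC
  have hOd' : ∀ {α : Type} [Finite α] {f : β → (α → K) → K} {g : δ → (α → K) → K},
      (∀ i, DfF L (f i)) → (∀ j, DfF L (g j)) →
      Df L (fun v => O (fun i => f i v) (fun j => g j v)) := by
    intro α _ f g hf hg
    exact Df.substT (f := fun (o : β ⊕ δ) (v : α → K) =>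
      Sum.elim (fun i => f i v) (fun j => g j v) o) hOd (by
      rintro (i | j)
      · exact hf i
      · exact hg j)
  have hTd' : ∀ {α : Type} [Finite α] {f : β → (α → K) → K} {g : δ → (α → K) → K},
      (∀ i, DfF L (f i)) → (∀ j, DfF L (g j)) →
      Df L (fun v => T (fun i => f i v) (fun j => g j v)) := by
    intro α _ f g hf hg
    exact Df.substT (f := fun (o : β ⊕ δ) (v : α → K) =>
      Sum.elim (fun i => f i v) (fun j => g j v) o) hTd (by
      rintro (i | j)
      · exact hf i
      · exact hg j)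
  have hC' : ∀ {α : Type} [Finite α] {k : (α → K) → K} {f : β → (α → K) → K}
      {g : δ → (α → K) → K}, DfF L k → (∀ i, DfF L (f i)) → (∀ j, DfF L (g j)) →
      Df L (fun v => C (k v) (fun i => f i v) (fun j => g j v)) := by
    intro α _ k f g hk hf hg
    refine Df.and ?_ (Df.and ?_ ?_)
    · refine Df.allT (Q := fun x' (v : α → K) => ∀ w' : δ → K, ¬ O x' w' →
        (∃ i, 1 ≤ k v * |f i v - x' i|) ∨ (∃ j, 1 ≤ k v * |g j v - w' j|)) ?_
      refine Df.allT (Q := fun w' (v : α ⊕ β → K) => ¬ O (fun i => v (Sum.inr i)) w' →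
        (∃ i, 1 ≤ k (fun i => v (Sum.inl i)) * |f i (fun i => v (Sum.inl i)) - v (Sum.inr i)|) ∨
        (∃ j, 1 ≤ k (fun i => v (Sum.inl i)) * |g j (fun i => v (Sum.inl i)) - w' j|)) ?_
      refine (Df.not ?_).imp ((Df.ex_fin fun i => ?_).or (Df.ex_fin fun j => ?_))
      · exact hOd' (fun i => Dvar _) (fun j => Dvar _)
      · exact Dle (Dconst _) (Dmul (hk.relabel _) (Dabs (Dsub ((hf i).relabel _) (Dvar _))))
      · exact Dle (Dconst _) (Dmul (hk.relabel _) (Dabs (Dsub ((hg j).relabel _) (Dvar _))))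
    · exact df_closure2 (N := N) (hOd.and hTd.not) hf hg
    · exact df_closure2 (N := P) (hOd.and hTd) hf hg
  have hCc : ∀ t, IsClosed {p : (β → K) × (δ → K) | C t p.1 p.2} := by
    intro t
    refine IsClosed.and (isClosed_all fun x' => isClosed_all fun w' =>
      isClosed_imp isOpen_const ((isClosed_ex_fin fun i => ?_).union
        (isClosed_ex_fin fun j => ?_))) ?_
    · exact isClosed_le continuous_const (by fun_prop)
    · exact isClosed_le continuous_const (by fun_prop)
    · exact IsClosed.and (isClosed_closure.preimage (by fun_prop))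
        (isClosed_closure.preimage (by fun_prop))
  set F : K → (β → K) → Prop := fun t x => 0 < t ∧ ∃ w : δ → K, (∀ j, |w j| ≤ t) ∧ C t x w
    with hF
  have hFd : Df L (fun w : Option β → K => F (w none) (fun i => w (some i))) := by
    refine Df.and (Dlt (Dconst _) (Dvar _)) ?_
    refine Df.exT (Q := fun w (v : Option β → K) => (∀ j, |w j| ≤ v none) ∧
      C (v none) (fun i => v (some i)) w) ?_
    refine (Df.all_fin fun j => ?_).and ?_
    · exact Dle (Dabs (Dvar _)) (Dvar _)
    · exact hC' (k := fun v : Option β ⊕ δ → K => v (Sum.inl none))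
        (f := fun i (v : Option β ⊕ δ → K) => v (Sum.inl (some i)))
        (g := fun j (v : Option β ⊕ δ → K) => v (Sum.inr j)) (Dvar _) (fun i => Dvar _)
        (fun j => Dvar _)
  have hFc : ∀ t, IsClosed {x | F t x} := by
    intro t
    rcases le_or_gt t 0 with ht | ht
    · have : {x | F t x} = ∅ := by
        ext x
        simp only [hF, Set.mem_ofPred_eq, Set.mem_empty_iff_false, iff_false, not_and]
        intro h'
        exact absurd h' (not_lt.2 ht)
      rw [this]
      exact isClosed_empty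
    · have : {x | F t x} = {x | ∃ w : δ → K, (∀ j, |w j| ≤ t) ∧ C t x w} := by
        ext x
        simp only [hF, Set.mem_ofPred_eq]
        exact ⟨fun h' => h'.2, fun h' => ⟨ht, h'⟩⟩
      rw [this]
      refine proj_closed (L := L) (Y := C t) ?_ (hCc t) t
      exact hC' (k := fun _ => t) (f := fun i (v : β ⊕ δ → K) => v (Sum.inl i))
        (g := fun j (v : β ⊕ δ → K) => v (Sum.inr j)) (Dconst _) (fun i => Dvar _)
        (fun j => Dvar _)
  have hFm : ∀ t t' x, t ≤ t' → F t x → F t' x := by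
    rintro t t' x htt ⟨ht, w, h1, h2, h3, h4⟩
    refine ⟨ht.trans_le htt, w, fun j => (h1 j).trans htt, fun x' w' h5 => ?_, h3, h4⟩
    rcases h2 x' w' h5 with ⟨i, hi⟩ | ⟨j, hj⟩
    · exact Or.inl ⟨i, hi.trans (mul_le_mul_of_nonneg_right htt (abs_nonneg _))⟩
    · exact Or.inr ⟨j, hj.trans (mul_le_mul_of_nonneg_right htt (abs_nonneg _))⟩
  have hFi : ∀ t, interior {x | F t x} = ∅ := by
    intro t
    by_contra hne
    rw [← ne_eq, ← nonempty_iff_ne_empty] at hne
    have ht : 0 < t := by
      obtain ⟨x, hx⟩ := hne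
      exact (interior_subset hx).1
    set ε : K := 1 / (8 * t) with hε
    have hε0 : 0 < ε := by positivity
    have htε : t * ε = 1 / 8 := by rw [hε]; field_simp
    obtain ⟨U', hU'U, hU'o, ⟨x₁, hx₁⟩, m, hm⟩ := sel (L := L) (C := C t) (hCc t)
      (hC' (k := fun _ => t) (f := fun i (v : β ⊕ δ → K) => v (Sum.inl i))
        (g := fun j (v : β ⊕ δ → K) => v (Sum.inr j)) (Dconst _) (fun i => Dvar _)
        (fun j => Dvar _)) t hε0 isOpen_interior hne
      (fun x hx => (interior_subset hx).2)
    have hOU : ∀ x ∈ U', ∀ w : δ → K, (∀ j, |w j - m j| ≤ 2 * ε) → O x w := by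
      intro x hx w hw
      obtain ⟨w₀, -, h2, h3, -⟩ := hm x hx
      by_contra hcon
      rcases h3 x w hcon with ⟨i, hi⟩ | ⟨j, hj⟩
      · rw [sub_self, abs_zero, mul_zero] at hi
        exact absurd hi (not_le.2 one_pos)
      · have h4 : |w₀ j - w j| ≤ 3 * ε := by
          have h5 := abs_sub_le (w₀ j) (m j) (w j)
          have h6 := h2 j
          have h7 := hw j
          rw [abs_sub_comm] at h7
          linarith
        have h8 := hj.trans (mul_le_mul_of_nonneg_left h4 ht.le)
        have h9 : t * (3 * ε) = 3 * (t * ε) := by ring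
        rw [h9, htε] at h8
        norm_num at h8
    have hcst : ∀ x ∈ U', ∀ w : δ → K, (∀ j, |w j - m j| ≤ 2 * ε) → (T x w ↔ T x m) := by
      intro x hx w hw
      refine const_on_box (L := L) (T := T x) ?_ ?_
      · exact hTd' (f := fun i (_ : δ → K) => x i) (g := fun j (v : δ → K) => v j)
          (fun i => Dconst _) (fun j => Dvar _)
      · intro s h0 h1
        refine hl x _ (hOU x hx _ fun j => ?_)
        have e : m j + s * (w j - m j) - m j = s * (w j - m j) := by ring
        rw [e, abs_mul, abs_of_nonneg h0]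
        calc s * |w j - m j| ≤ 1 * |w j - m j| := mul_le_mul_of_nonneg_right h1 (abs_nonneg _)
          _ = |w j - m j| := one_mul _
          _ ≤ 2 * ε := hw j
    have hmm : ∀ j, |m j - m j| ≤ 2 * ε := fun j => by
      rw [sub_self, abs_zero]; positivity
    -- density
    have hdense : ∀ x ∈ U', ∀ ρ, 0 < ρ → (∃ x' ∈ U', (∀ i, |x' i - x i| < ρ) ∧ ¬ T x' m) ∧
        (∃ x' ∈ U', (∀ i, |x' i - x i| < ρ) ∧ T x' m) := by
      intro x hx ρ hρ
      obtain ⟨r, hr, hbox⟩ := (nhds_box x).mem_iff.1 (hU'o.mem_nhds hx)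
      obtain ⟨w₀, -, h2, -, h4, h5⟩ := hm x hx
      have hμ : 0 < min (min ρ r) ε := lt_min (lt_min hρ hr) hε0
      have hw : ∀ w' : δ → K, (∀ j, |w' j - w₀ j| < min (min ρ r) ε) →
          ∀ j, |w' j - m j| ≤ 2 * ε := by
        intro w' hw' j
        have h6 := abs_sub_le (w' j) (w₀ j) (m j)
        have h7 := h2 j
        have h8 := (hw' j).trans_le (min_le_right _ _)
        linarith
      constructor
      · obtain ⟨x', w', h6, h7, h8⟩ := mem_closure_box2.1 h4 _ hμ
        have hx' : x' ∈ U' := hbox fun i =>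
          (h6 i).trans_le ((min_le_left _ _).trans (min_le_right _ _))
        refine ⟨x', hx', fun i => (h6 i).trans_le ((min_le_left _ _).trans (min_le_left _ _)), ?_⟩
        intro h9
        exact h8.2 ((hcst x' hx' w' (hw w' h7)).2 h9)
      · obtain ⟨x', w', h6, h7, h8⟩ := mem_closure_box2.1 h5 _ hμ
        have hx' : x' ∈ U' := hbox fun i =>
          (h6 i).trans_le ((min_le_left _ _).trans (min_le_right _ _))
        refine ⟨x', hx', fun i => (h6 i).trans_le ((min_le_left _ _).trans (min_le_left _ _)), ?_⟩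
        exact (hcst x' hx' w' (hw w' h7)).1 h8.2
    obtain ⟨⟨x₂, hx₂, -, h6⟩, -⟩ := hdense x₁ hx₁ 1 one_pos
    have h7 := hT x₂ m (hOU x₂ hx₂ m hmm) h6
    obtain ⟨ρ, hρ, h8⟩ := ev_box2.1 h7
    obtain ⟨-, x₃, hx₃, h9, h10⟩ := hdense x₂ hx₂ ρ hρ
    exact h8 x₃ m h9 (fun j => by rw [sub_self, abs_zero]; exact hρ) h10
  have hSR := h β F hFd hFc hFm hFi
  refine ⟨closure {x | ∃ t, F t x}, ⟨isClosed_closure, hSR, ?_⟩, ?_⟩
  · refine df_closure (N := fun x => ∃ t, F t x) ?_ (fun i => Dvar _)
    exact Df.ex1 (Q := fun t x => F t x) hFd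
  · intro x hx w hOw
    by_cases hTw : T x w
    · have h1 : (x, w) ∉ closure {p : (β → K) × (δ → K) | N p.1 p.2} := by
        intro hcl
        apply hx
        apply subset_closure
        obtain ⟨r, hr, hbox⟩ := ev_box2.1 (hOe x w hOw)
        obtain ⟨t₀, ht₀⟩ : ∃ t₀ : K, ∀ j, |w j| ≤ t₀ := by
          rcases isEmpty_or_nonempty δ with h' | h'
          · exact ⟨0, fun j => (IsEmpty.false j).elim⟩
          · obtain ⟨j, hj⟩ := Finite.exists_max (fun j => |w j|)
            exact ⟨|w j|, hj⟩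
        have hr' : 0 < 1 / r := by positivity
        refine ⟨max t₀ (1 / r), hr'.trans_le (le_max_right _ _), w,
          fun j => (ht₀ j).trans (le_max_left _ _), fun x' w' hcon => ?_, hcl,
          subset_closure ⟨hOw, hTw⟩⟩
        by_contra hno
        push Not at hno
        apply hcon
        have key : ∀ u : K, max t₀ (1 / r) * |u| < 1 → |u| < r := by
          intro u hu
          have h2 : 1 / r * |u| < 1 :=
            (mul_le_mul_of_nonneg_right (le_max_right _ _) (abs_nonneg _)).trans_lt hu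
          rwa [one_div, inv_mul_lt_iff₀ hr, mul_one] at h2
        refine hbox x' w' (fun i => ?_) (fun j => ?_)
        · rw [abs_sub_comm]
          exact key _ (hno.1 i)
        · rw [abs_sub_comm]
          exact key _ (hno.2 j)
      rw [mem_closure_iff_frequently, not_frequently] at h1
      filter_upwards [h1, hOe x w hOw] with p hp hpO
      simp only [hTw, iff_true]
      by_contra hcon
      exact hp ⟨hpO, hcon⟩
    · filter_upwards [hT x w hOw hTw] with p hp
      simp [hTw, hp]

end Pool.Agent.K3h92.OC
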