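import Mathlib
import Pool.Agent.K3h92.OC.Sel

set_option autoImplicit false

/-! Pseudo-finite sets; `SR1` and `Fine`. -/

namespace Pool.Agent.K3h92.OC

open FirstOrder FirstOrder.Language Set Filter Topology

variable {K : Type} [Field K] [LinearOrder K] [IsStrictOrderedRing K] [TopologicalSpace K]
  [OrderTopology K]
variable {L : FirstOrder.Language.{0, 0}} [L.Structure K] [DC L K]

/-- Pseudo-finite sets: definable sets all of whose nonempty definable subsets have a least and a
greatest element. -/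
def PF (L : FirstOrder.Language.{0, 0}) {K : Type} [LinearOrder K] [L.Structure K] (C : Set K) :
    Prop :=
  D1 L C ∧ ∀ S : Set K, D1 L S → S ⊆ C → S.Nonempty →
    (∃ m ∈ S, ∀ x ∈ S, m ≤ x) ∧ ∃ m ∈ S, ∀ x ∈ S, x ≤ m

omit [Field K] [IsStrictOrderedRing K] [TopologicalSpace K] [OrderTopology K] [DC L K] in
theorem PF.subset {C S : Set K} (h : PF L C) (hS : D1 L S) (hSC : S ⊆ C) : PF L S :=
  ⟨hS, fun S' h1 h2 h3 => h.2 S' h1 (h2.trans hSC) h3⟩

omit [TopologicalSpace K] [OrderTopology K] in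
theorem pf_of_sep {C : Set K} (hC : D1 L C) {R η : K} (hR : ∀ x ∈ C, |x| ≤ R) (hη : 0 < η)
    (hs : ∀ x ∈ C, ∀ y ∈ C, x < y → η ≤ y - x) : PF L C := by
  refine ⟨hC, fun S hS hSC hne => ⟨?_, ?_⟩⟩
  · obtain ⟨s, hs'⟩ := exists_glb hS hne ⟨-R, fun x hx => (abs_le.1 (hR x (hSC hx))).1⟩
    obtain ⟨x, hx, hxs⟩ : ∃ x ∈ S, x < s + η := by
      by_contra hcon
      push Not at hcon
      have := hs'.2 (show s + η ∈ lowerBounds S from fun x hx => hcon x hx)
      linarith
    refine ⟨x, hx, fun y hy => ?_⟩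
    by_contra hlt
    have h1 := hs y (hSC hy) x (hSC hx) (not_le.1 hlt)
    have h2 := hs'.1 hy
    linarith
  · obtain ⟨s, hs'⟩ := exists_lub hS hne ⟨R, fun x hx => (abs_le.1 (hR x (hSC hx))).2⟩
    obtain ⟨x, hx, hxs⟩ : ∃ x ∈ S, s - η < x := by
      by_contra hcon
      push Not at hcon
      have := hs'.2 (show s - η ∈ upperBounds S from fun x hx => hcon x hx)
      linarith
    refine ⟨x, hx, fun y hy => ?_⟩
    by_contra hlt
    have h1 := hs x (hSC hx) y (hSC hy) (not_le.1 hlt)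
    have h2 := hs'.1 hy
    linarith

omit [TopologicalSpace K] [OrderTopology K] [Field K] [IsStrictOrderedRing K] [LinearOrder K]
  [DC L K] in
theorem rel2 {G : K → K → Prop} (hG : Df L (fun w : Fin 2 → K => G (w 0) (w 1))) :
    ∀ {α : Type} [Finite α] {f g : (α → K) → K}, DfF L f → DfF L g →
      Df L (fun v => G (f v) (g v)) := by
  intro α _ f g hf hg
  exact (Df.substT (f := fun (o : Fin 2) (v : α → K) => ![f v, g v] o) hG (by
    intro j
    fin_cases j
    · exact hf
    · exact hg)).congr fun v => Iff.rfl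

omit [TopologicalSpace K] [OrderTopology K] in
theorem PF.image_least {C : Set K} (h : PF L C) {G : K → K → Prop}
    (hG : Df L (fun w : Fin 2 → K => G (w 0) (w 1)))
    (hf : ∀ x ∈ C, ∀ y y', G x y → G x y' → y = y') {S : Set K} (hS : D1 L S)
    (hSC : ∀ y ∈ S, ∃ x ∈ C, G x y) (hne : S.Nonempty) : ∃ m ∈ S, ∀ y ∈ S, m ≤ y := by
  have hG' := @rel2 K L _ G hG
  set C' : Set K := {x | x ∈ C ∧ ∃ y, y ∈ S ∧ G x y} with hC'
  have hCd := h.1
  have hC'd : D1 L C' := by
    show Df L (fun v : Unit → K => v () ∈ C ∧ ∃ y, y ∈ S ∧ G (v ()) y)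
    (repeat' (intros; beta_reduce; first | apply (hCd.mem) | apply (hS.mem) | apply (hG') | exact Dvar _ | exact Dconst _ | assumption | apply Dadd | apply Dsub | apply Dmul | apply Dneg | apply Dabs | apply Dlt | apply Dle | apply Deq | apply Df.and | apply Df.or | apply Df.not | apply Df.iff | apply Df.imp | apply Df.ex1 | apply Df.all1 | apply Df.exT | apply Df.allT | apply Df.all_fin | apply Df.ex_fin | exact Df.const _))
  have hC'C : C' ⊆ C := fun x hx => hx.1
  have hC'ne : C'.Nonempty := by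
    obtain ⟨y, hy⟩ := hne
    obtain ⟨x, hx, hxy⟩ := hSC y hy
    exact ⟨x, hx, y, hy, hxy⟩
  set B : Set K := {x | x ∈ C' ∧ ¬ ∃ x0, x0 ∈ C' ∧ x0 ≤ x ∧ ∃ y0, G x0 y0 ∧
    ∀ x1, x1 ∈ C' → x1 ≤ x → ∀ y1, G x1 y1 → y0 ≤ y1} with hB
  have hBd : D1 L B := by
    show Df L (fun v : Unit → K => v () ∈ C' ∧ ¬ ∃ x0, x0 ∈ C' ∧ x0 ≤ v () ∧ ∃ y0, G x0 y0 ∧
      ∀ x1, x1 ∈ C' → x1 ≤ v () → ∀ y1, G x1 y1 → y0 ≤ y1)
    (repeat' (intros; beta_reduce; first | apply (hC'd.mem) | apply (hG') | exact Dvar _ | exact Dconst _ | assumption | apply Dadd | apply Dsub | apply Dmul | apply Dneg | apply Dabs | apply Dlt | apply Dle | apply Deq | apply Df.and | apply Df.or | apply Df.not | apply Df.iff | apply Df.imp | apply Df.ex1 | apply Df.all1 | apply Df.exT | apply Df.allT | apply Df.all_fin | apply Df.ex_fin | exact Df.const _))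
  have hBe : ¬ B.Nonempty := by
    intro hBne
    obtain ⟨⟨x1, hx1, hx1m⟩, -⟩ := h.2 B hBd (fun x hx => hx.1.1) hBne
    obtain ⟨hx1C, hx1n⟩ := hx1
    obtain ⟨y1, hy1S, hy1⟩ := hx1C.2
    by_cases hT : ({x | x ∈ C' ∧ x < x1} : Set K).Nonempty
    · have hTd : D1 L {x | x ∈ C' ∧ x < x1} := by
        show Df L (fun v : Unit → K => v () ∈ C' ∧ v () < x1)
        (repeat' (intros; beta_reduce; first | apply (hC'd.mem) | exact Dvar _ | exact Dconst _ | assumption | apply Dadd | apply Dsub | apply Dmul | apply Dneg | apply Dabs | apply Dlt | apply Dle | apply Deq | apply Df.and | apply Df.or | apply Df.not | apply Df.iff | apply Df.imp | apply Df.ex1 | apply Df.all1 | apply Df.exT | apply Df.allT | apply Df.all_fin | apply Df.ex_fin | exact Df.const _))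
      obtain ⟨-, x0, hx0, hx0m⟩ := h.2 _ hTd (fun x hx => hx.1.1) hT
      have hx0B : x0 ∉ B := fun hb => absurd (hx1m x0 hb) (not_le.2 hx0.2)
      obtain ⟨x2, hx2, hx2le, y2, hy2, hy2m⟩ : ∃ x2, x2 ∈ C' ∧ x2 ≤ x0 ∧ ∃ y0, G x2 y0 ∧
          ∀ x1, x1 ∈ C' → x1 ≤ x0 → ∀ y1, G x1 y1 → y0 ≤ y1 := by
        by_contra hcon
        exact hx0B ⟨hx0.1, hcon⟩
      apply hx1n
      rcases le_total y2 y1 with h12 | h12
      · refine ⟨x2, hx2, hx2le.trans hx0.2.le, y2, hy2, fun x3 hx3 hx3le y3 hy3 => ?_⟩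
        rcases lt_or_eq_of_le hx3le with hlt | heq
        · exact hy2m x3 hx3 (hx0m x3 ⟨hx3, hlt⟩) y3 hy3
        · subst heq
          rw [hf x3 hx3.1 y3 y1 hy3 hy1]; exact h12
      · refine ⟨x1, hx1C, le_rfl, y1, hy1, fun x3 hx3 hx3le y3 hy3 => ?_⟩
        rcases lt_or_eq_of_le hx3le with hlt | heq
        · exact h12.trans (hy2m x3 hx3 (hx0m x3 ⟨hx3, hlt⟩) y3 hy3)
        · subst heq
          rw [hf x3 hx3.1 y3 y1 hy3 hy1]
    · apply hx1n
      refine ⟨x1, hx1C, le_rfl, y1, hy1, fun x3 hx3 hx3le y3 hy3 => ?_⟩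
      rcases lt_or_eq_of_le hx3le with hlt | heq
      · exact absurd ⟨x3, hx3, hlt⟩ hT
      · subst heq
        rw [hf x3 hx3.1 y3 y1 hy3 hy1]
  obtain ⟨-, xm, hxm, hxmm⟩ := h.2 C' hC'd hC'C hC'ne
  obtain ⟨x0, hx0, -, y0, hy0, hy0m⟩ : ∃ x0, x0 ∈ C' ∧ x0 ≤ xm ∧ ∃ y0, G x0 y0 ∧
      ∀ x1, x1 ∈ C' → x1 ≤ xm → ∀ y1, G x1 y1 → y0 ≤ y1 := by
    by_contra hcon
    exact hBe ⟨xm, hxm, hcon⟩
  obtain ⟨y0', hy0S, hy0'⟩ := hx0.2
  rw [hf x0 hx0.1 y0' y0 hy0' hy0] at hy0S
  refine ⟨y0, hy0S, fun y hy => ?_⟩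
  obtain ⟨x, hx, hxy⟩ := hSC y hy
  have hxC' : x ∈ C' := ⟨hx, y, hy, hxy⟩
  exact hy0m x hxC' (hxmm x hxC') y hxy

omit [TopologicalSpace K] [OrderTopology K] in
theorem PF.image {C : Set K} (h : PF L C) {G : K → K → Prop}
    (hG : Df L (fun w : Fin 2 → K => G (w 0) (w 1)))
    (hf : ∀ x ∈ C, ∀ y y', G x y → G x y' → y = y') : PF L {y | ∃ x, x ∈ C ∧ G x y} := by
  have hG' := @rel2 K L _ G hG
  have hCd := h.1
  refine ⟨?_, fun S hS hSC hne => ⟨?_, ?_⟩⟩
  · show Df L (fun v : Unit → K => ∃ x, x ∈ C ∧ G x (v ()))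
    (repeat' (intros; beta_reduce; first | apply (hCd.mem) | apply (hG') | exact Dvar _ | exact Dconst _ | assumption | apply Dadd | apply Dsub | apply Dmul | apply Dneg | apply Dabs | apply Dlt | apply Dle | apply Deq | apply Df.and | apply Df.or | apply Df.not | apply Df.iff | apply Df.imp | apply Df.ex1 | apply Df.all1 | apply Df.exT | apply Df.allT | apply Df.all_fin | apply Df.ex_fin | exact Df.const _))
  · exact h.image_least hG hf hS (fun y hy => hSC hy) hne
  · obtain ⟨m, hm, hm'⟩ := h.image_least (G := fun x y => G x (-y)) (by (repeat' (intros; beta_reduce; first | apply (hG') | exact Dvar _ | exact Dconst _ | assumption | apply Dadd | apply Dsub | apply Dmul | apply Dneg | apply Dabs | apply Dlt | apply Dle | apply Deq | apply Df.and | apply Df.or | apply Df.not | apply Df.iff | apply Df.imp | apply Df.ex1 | apply Df.all1 | apply Df.exT | apply Df.allT | apply Df.all_fin | apply Df.ex_fin | exact Df.const _)))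
      (fun x hx y y' h1 h2 => neg_injective (hf x hx _ _ h1 h2)) (S := {y | -y ∈ S})
      (by
        show Df L (fun v : Unit → K => -v () ∈ S)
        (repeat' (intros; beta_reduce; first | apply (hS.mem) | exact Dvar _ | exact Dconst _ | assumption | apply Dadd | apply Dsub | apply Dmul | apply Dneg | apply Dabs | apply Dlt | apply Dle | apply Deq | apply Df.and | apply Df.or | apply Df.not | apply Df.iff | apply Df.imp | apply Df.ex1 | apply Df.all1 | apply Df.exT | apply Df.allT | apply Df.all_fin | apply Df.ex_fin | exact Df.const _)))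
      (fun y hy => hSC hy) (by
        obtain ⟨y, hy⟩ := hne
        exact ⟨-y, by simpa using hy⟩)
    refine ⟨-m, hm, fun y hy => ?_⟩
    have := hm' (-y) (by simpa using hy)
    linarith

omit [TopologicalSpace K] [OrderTopology K] in
theorem PF.isolated {C : Set K} (h : PF L C) (t : K) : ∃ ε > 0, ∀ t' ∈ C, |t' - t| < ε → t' = t := by
  have hCd := h.1
  have h1 : ∃ ε > 0, ∀ t' ∈ C, t < t' → t + ε ≤ t' := by
    by_cases hT : ({x | x ∈ C ∧ t < x} : Set K).Nonempty
    · obtain ⟨⟨m, hm, hm'⟩, -⟩ := h.2 {x | x ∈ C ∧ t < x} (by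
        show Df L (fun v : Unit → K => v () ∈ C ∧ t < v ())
        (repeat' (intros; beta_reduce; first | apply (hCd.mem) | exact Dvar _ | exact Dconst _ | assumption | apply Dadd | apply Dsub | apply Dmul | apply Dneg | apply Dabs | apply Dlt | apply Dle | apply Deq | apply Df.and | apply Df.or | apply Df.not | apply Df.iff | apply Df.imp | apply Df.ex1 | apply Df.all1 | apply Df.exT | apply Df.allT | apply Df.all_fin | apply Df.ex_fin | exact Df.const _))) (fun x hx => hx.1) hT
      refine ⟨m - t, sub_pos.2 hm.2, fun t' ht' hlt => ?_⟩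
      have := hm' t' ⟨ht', hlt⟩
      linarith
    · exact ⟨1, one_pos, fun t' ht' hlt => absurd ⟨t', ht', hlt⟩ hT⟩
  have h2 : ∃ ε > 0, ∀ t' ∈ C, t' < t → t' ≤ t - ε := by
    by_cases hT : ({x | x ∈ C ∧ x < t} : Set K).Nonempty
    · obtain ⟨-, ⟨m, hm, hm'⟩⟩ := h.2 {x | x ∈ C ∧ x < t} (by
        show Df L (fun v : Unit → K => v () ∈ C ∧ v () < t)
        (repeat' (intros; beta_reduce; first | apply (hCd.mem) | exact Dvar _ | exact Dconst _ | assumption | apply Dadd | apply Dsub | apply Dmul | apply Dneg | apply Dabs | apply Dlt | apply Dle | apply Deq | apply Df.and | apply Df.or | apply Df.not | apply Df.iff | apply Df.imp | apply Df.ex1 | apply Df.all1 | apply Df.exT | apply Df.allT | apply Df.all_fin | apply Df.ex_fin | exact Df.const _))) (fun x hx => hx.1) hT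
      refine ⟨t - m, sub_pos.2 hm.2, fun t' ht' hlt => ?_⟩
      have := hm' t' ⟨ht', hlt⟩
      linarith
    · exact ⟨1, one_pos, fun t' ht' hlt => absurd ⟨t', ht', hlt⟩ hT⟩
  obtain ⟨ε, hε, h1⟩ := h1
  obtain ⟨ε', hε', h2⟩ := h2
  refine ⟨min ε ε', lt_min hε hε', fun t' ht' hlt => ?_⟩
  have h3 := abs_lt.1 (hlt.trans_le (min_le_left _ _))
  have h4 := abs_lt.1 (hlt.trans_le (min_le_right _ _))
  rcases lt_trichotomy t' t with h5 | h5 | h5
  · have := h2 t' ht' h5; linarith
  · exact h5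
  · have := h1 t' ht' h5; linarith

/-- The gap of a closed definable set around a point. -/
theorem exists_gap {C : Set K} (hC : D1 L C) (hc : IsClosed C) {y1 y2 z : K} (h1 : y1 ∈ C)
    (h2 : y2 ∈ C) (hz : z ∉ C) (h1z : y1 < z) (hz2 : z < y2) :
    ∃ a ∈ C, ∃ b ∈ C, y1 ≤ a ∧ a < z ∧ z < b ∧ b ≤ y2 ∧ ∀ x, a < x → x < b → x ∉ C := by
  obtain ⟨a, ha, ha'⟩ := exists_max (L := L) (S := {x | x ∈ C ∧ y1 ≤ x ∧ x ≤ z}) (by
    show Df L (fun v : Unit → K => v () ∈ C ∧ y1 ≤ v () ∧ v () ≤ z)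
    (repeat' (intros; beta_reduce; first | apply (hC.mem) | exact Dvar _ | exact Dconst _ | assumption | apply Dadd | apply Dsub | apply Dmul | apply Dneg | apply Dabs | apply Dlt | apply Dle | apply Deq | apply Df.and | apply Df.or | apply Df.not | apply Df.iff | apply Df.imp | apply Df.ex1 | apply Df.all1 | apply Df.exT | apply Df.allT | apply Df.all_fin | apply Df.ex_fin | exact Df.const _))) (hc.inter (isClosed_Icc (a := y1) (b := z))) ⟨y1, h1, le_rfl, h1z.le⟩
    ⟨z, fun x hx => hx.2.2⟩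
  obtain ⟨b, hb, hb'⟩ := exists_min (L := L) (S := {x | x ∈ C ∧ z ≤ x ∧ x ≤ y2}) (by
    show Df L (fun v : Unit → K => v () ∈ C ∧ z ≤ v () ∧ v () ≤ y2)
    (repeat' (intros; beta_reduce; first | apply (hC.mem) | exact Dvar _ | exact Dconst _ | assumption | apply Dadd | apply Dsub | apply Dmul | apply Dneg | apply Dabs | apply Dlt | apply Dle | apply Deq | apply Df.and | apply Df.or | apply Df.not | apply Df.iff | apply Df.imp | apply Df.ex1 | apply Df.all1 | apply Df.exT | apply Df.allT | apply Df.all_fin | apply Df.ex_fin | exact Df.const _))) (hc.inter (isClosed_Icc (a := z) (b := y2))) ⟨y2, h2, hz2.le, le_rfl⟩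
    ⟨z, fun x hx => hx.2.1⟩
  have haz : a < z := lt_of_le_of_ne ha.2.2 fun h => hz (h ▸ ha.1)
  have hzb : z < b := lt_of_le_of_ne hb.2.1 fun h => hz (h ▸ hb.1)
  refine ⟨a, ha.1, b, hb.1, ha.2.1, haz, hzb, hb.2.2, fun x hax hxb hx => ?_⟩
  rcases le_total x z with h | h
  · exact absurd (ha' x ⟨hx, ha.2.1.trans hax.le, h⟩) (not_le.2 hax)
  · exact absurd (hb' x ⟨hx, h, hxb.le.trans hb.2.2⟩) (not_le.2 hxb)

omit [Field K] [LinearOrder K] [IsStrictOrderedRing K] [OrderTopology K] in
theorem int_empty_mono {A B : Set K} (h : A ⊆ B) (hB : interior B = ∅) : interior A = ∅ := by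
  have := interior_mono h
  rw [hB] at this
  exact subset_empty_iff.1 this

/-- A bounded closed definable set without interior is separated if there is no unbounded
isolated definable set. -/
theorem sep_of_not_hasD (h : ¬ HasD L K) {C : Set K} (hC : D1 L C) (hc : IsClosed C)
    (hi : interior C = ∅) {R : K} (hR : ∀ x ∈ C, |x| ≤ R) :
    ∃ t > 0, ∀ y ∈ C, ∀ y' ∈ C, y < y' → 1 ≤ t * (y' - y) := by
  set G : K → K → Prop := fun a l => ∃ b, b ∈ C ∧ a < b ∧ (∀ z, a < z → z < b → z ∉ C) ∧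
    l * (b - a) = 1 with hG
  have hGd : Df L (fun w : Fin 2 → K => G (w 0) (w 1)) := by
    show Df L (fun w : Fin 2 → K => ∃ b, b ∈ C ∧ w 0 < b ∧ (∀ z, w 0 < z → z < b → z ∉ C) ∧
      w 1 * (b - w 0) = 1)
    (repeat' (intros; beta_reduce; first | apply (hC.mem) | exact Dvar _ | exact Dconst _ | assumption | apply Dadd | apply Dsub | apply Dmul | apply Dneg | apply Dabs | apply Dlt | apply Dle | apply Deq | apply Df.and | apply Df.or | apply Df.not | apply Df.iff | apply Df.imp | apply Df.ex1 | apply Df.all1 | apply Df.exT | apply Df.allT | apply Df.all_fin | apply Df.ex_fin | exact Df.const _))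
  have hG' := @rel2 K L _ G hGd
  have hGf : ∀ x ∈ C, ∀ y y', G x y → G x y' → y = y' := by
    rintro x hx l l' ⟨b, hb, hxb, hg, hl⟩ ⟨b', hb', hxb', hg', hl'⟩
    have : b = b' := by
      rcases lt_trichotomy b b' with h1 | h1 | h1
      · exact absurd hb (hg' b hxb h1)
      · exact h1
      · exact absurd hb' (hg b' hxb' h1)
    subst this
    have h1 : b - x ≠ 0 := sub_ne_zero.2 hxb.ne'
    exact mul_right_cancel₀ h1 (hl.trans hl'.symm)
  set Λ : Set K := {l | ∃ a, a ∈ C ∧ G a l} with hΛ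
  have hΛd : D1 L Λ := by
    show Df L (fun v : Unit → K => ∃ a, a ∈ C ∧ G a (v ()))
    (repeat' (intros; beta_reduce; first | apply (hC.mem) | apply (hG') | exact Dvar _ | exact Dconst _ | assumption | apply Dadd | apply Dsub | apply Dmul | apply Dneg | apply Dabs | apply Dlt | apply Dle | apply Deq | apply Df.and | apply Df.or | apply Df.not | apply Df.iff | apply Df.imp | apply Df.ex1 | apply Df.all1 | apply Df.exT | apply Df.allT | apply Df.all_fin | apply Df.ex_fin | exact Df.const _))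
  have hiso : ∀ t, ∃ ε > 0, ∀ t' ∈ Λ, |t' - t| < ε → t' = t := by
    intro t
    set r := max (t + 1) 1 with hr
    have hr0 : 0 < r := lt_of_lt_of_le one_pos (le_max_right _ _)
    have hPF : PF L {a | a ∈ C ∧ ∃ l, l ≤ r ∧ G a l} := by
      refine pf_of_sep (R := R) (η := 1 / r) ?_ (fun x hx => hR x hx.1) (by positivity) ?_
      · show Df L (fun v : Unit → K => v () ∈ C ∧ ∃ l, l ≤ r ∧ G (v ()) l)
        (repeat' (intros; beta_reduce; first | apply (hC.mem) | apply (hG') | exact Dvar _ | exact Dconst _ | assumption | apply Dadd | apply Dsub | apply Dmul | apply Dneg | apply Dabs | apply Dlt | apply Dle | apply Deq | apply Df.and | apply Df.or | apply Df.not | apply Df.iff | apply Df.imp | apply Df.ex1 | apply Df.all1 | apply Df.exT | apply Df.allT | apply Df.all_fin | apply Df.ex_fin | exact Df.const _))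
      · rintro x ⟨hx, l, hlr, b, hb, hxb, hg, hl⟩ y ⟨hy, -⟩ hxy
        have hby : b ≤ y := by
          by_contra hcon
          exact hg y hxy (not_le.1 hcon) hy
        have hbx : 0 < b - x := sub_pos.2 hxb
        rw [div_le_iff₀ hr0]
        have h2 : l * (b - x) ≤ r * (b - x) := mul_le_mul_of_nonneg_right hlr hbx.le
        have h3 : r * (b - x) ≤ r * (y - x) := mul_le_mul_of_nonneg_left (by linarith) hr0.le
        linarith
    have hPF2 := hPF.image hGd (fun x hx => hGf x hx.1)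
    obtain ⟨ε, hε, h2⟩ := hPF2.isolated t
    refine ⟨min ε 1, lt_min hε one_pos, fun t' ht' hlt => ?_⟩
    have h3 := (abs_lt.1 (hlt.trans_le (min_le_right _ _))).2
    obtain ⟨a, ha, hal⟩ := ht'
    have h4 : t' ≤ r := (by linarith : t' ≤ t + 1).trans (le_max_left _ _)
    exact h2 t' ⟨a, ⟨ha, t', h4, hal⟩, hal⟩ (hlt.trans_le (min_le_left _ _))
  obtain ⟨R0, hR0⟩ : ∃ R0, ∀ d ∈ Λ, d ≤ R0 := by
    by_contra hcon
    push Not at hcon
    exact h ⟨Λ, hΛd, hiso, hcon⟩
  refine ⟨max R0 1, lt_of_lt_of_le one_pos (le_max_right _ _), fun y hy y' hy' hlt => ?_⟩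
  obtain ⟨z, hz1, hz2, hz⟩ := exists_notMem_of_interior hi hlt
  obtain ⟨a, ha, b, hb, hya, haz, hzb, hby, hg⟩ := exists_gap (L := L) hC hc hy hy' hz hz1 hz2
  have hba : 0 < b - a := by linarith
  have h1 : 1 / (b - a) ∈ Λ := ⟨a, ha, b, hb, by linarith, hg, by field_simp⟩
  have h2 := (hR0 _ h1).trans (le_max_left R0 1)
  rw [div_le_iff₀ hba] at h2
  have h3 : max R0 1 * (b - a) ≤ max R0 1 * (y' - y) :=
    mul_le_mul_of_nonneg_left (by linarith) (le_trans zero_le_one (le_max_right _ _))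
  linarith

/-- Bounded parts of closed definable sets without interior are pseudo-finite. -/
theorem pf_of_not_hasD (h : ¬ HasD L K) {C : Set K} (hC : D1 L C) (hc : IsClosed C)
    (hi : interior C = ∅) {R : K} (hR : ∀ x ∈ C, |x| ≤ R) : PF L C := by
  obtain ⟨t, ht, hs⟩ := sep_of_not_hasD h hC hc hi hR
  refine pf_of_sep hC hR (η := 1 / t) (by positivity) fun x hx y hy hxy => ?_
  rw [div_le_iff₀ ht, mul_comm]
  exact hs x hx y hy hxy

theorem bdd_of_not_hasD (h : ¬ HasD L K) {C : Set K} (hC : D1 L C) (hc : IsClosed C)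
    (hi : interior C = ∅) : ∃ R, ∀ x ∈ C, x ≤ R := by
  by_contra hcon
  push Not at hcon
  refine h ⟨C, hC, fun t => ?_, hcon⟩
  have hPF : PF L {x | x ∈ C ∧ |x| ≤ |t| + 1} := by
    refine pf_of_not_hasD h (R := |t| + 1) ?_ ?_ ?_ (fun x hx => hx.2)
    · show Df L (fun v : Unit → K => v () ∈ C ∧ |v ()| ≤ |t| + 1)
      (repeat' (intros; beta_reduce; first | apply (hC.mem) | exact Dvar _ | exact Dconst _ | assumption | apply Dadd | apply Dsub | apply Dmul | apply Dneg | apply Dabs | apply Dlt | apply Dle | apply Deq | apply Df.and | apply Df.or | apply Df.not | apply Df.iff | apply Df.imp | apply Df.ex1 | apply Df.all1 | apply Df.exT | apply Df.allT | apply Df.all_fin | apply Df.ex_fin | exact Df.const _))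
    · have : IsClosed {x : K | |x| ≤ |t| + 1} := by
        have e : {x : K | |x| ≤ |t| + 1} = Icc (-(|t| + 1)) (|t| + 1) := by
          ext x; exact abs_le
        rw [e]
        exact isClosed_Icc
      exact hc.inter this
    · exact int_empty_mono (fun x hx => hx.1) hi
  obtain ⟨ε, hε, h1⟩ := hPF.isolated t
  refine ⟨min ε 1, lt_min hε one_pos, fun t' ht' hlt => ?_⟩
  refine h1 t' ⟨ht', ?_⟩ (hlt.trans_le (min_le_left _ _))
  have h2 := hlt.trans_le (min_le_right _ _)
  have h3 := abs_sub_abs_le_abs_sub t' t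
  linarith

theorem fine_of_not_hasD (h : ¬ HasD L K) : Fine L K := by
  intro C hC hc hi
  obtain ⟨R1, hR1⟩ := bdd_of_not_hasD h hC hc hi
  obtain ⟨R2, hR2⟩ := bdd_of_not_hasD h (C := {x | -x ∈ C}) (by
    show Df L (fun v : Unit → K => -v () ∈ C)
    (repeat' (intros; beta_reduce; first | apply (hC.mem) | exact Dvar _ | exact Dconst _ | assumption | apply Dadd | apply Dsub | apply Dmul | apply Dneg | apply Dabs | apply Dlt | apply Dle | apply Deq | apply Df.and | apply Df.or | apply Df.not | apply Df.iff | apply Df.imp | apply Df.ex1 | apply Df.all1 | apply Df.exT | apply Df.allT | apply Df.all_fin | apply Df.ex_fin | exact Df.const _))) (hc.preimage continuous_neg) (by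
    rw [eq_empty_iff_forall_notMem]
    intro x hx
    rw [mem_interior_iff_mem_nhds] at hx
    have h1 : C ∈ 𝓝 (-x) := by
      have h2 : Tendsto (fun y : K => -y) (𝓝 (-x)) (𝓝 (- -x)) := continuous_neg.tendsto _
      rw [neg_neg] at h2
      have h3 := h2 hx
      rw [mem_map] at h3
      convert h3 using 1
      ext y; simp
    have h4 := mem_interior_iff_mem_nhds.2 h1
    rw [hi] at h4
    exact h4)
  have hR : ∀ x ∈ C, |x| ≤ max R1 R2 := fun x hx => by
    rw [abs_le]
    have h1 := hR1 x hx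
    have h2 := hR2 (-x) (by simpa using hx)
    have h3 := le_max_left R1 R2
    have h4 := le_max_right R1 R2
    exact ⟨by linarith, by linarith⟩
  obtain ⟨t, ht, hs⟩ := sep_of_not_hasD h hC hc hi hR
  refine ⟨max t (max R1 R2), lt_of_lt_of_le ht (le_max_left _ _),
    fun y hy => (hR y hy).trans (le_max_right _ _), fun y hy y' hy' hlt => ?_⟩
  have h1 := hs y hy y' hy' hlt
  have h2 : t * (y' - y) ≤ max t (max R1 R2) * (y' - y) :=
    mul_le_mul_of_nonneg_right (le_max_left _ _) (by linarith)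
  linarith

omit [OrderTopology K] [DC L K] in
theorem restrained_two [OrderTopology K] (hr : Restr L K) {M : K → K → Prop}
    (hM : Df L (fun v : Fin 2 → K => M (v 0) (v 1)))
    (hd : ∀ t z, M t z → ∃ ε > 0, ∀ t' z', M t' z' → |t' - t| < ε → |z' - z| < ε →
      t' = t ∧ z' = z) :
    interior (closure {z | ∃ t, M t z}) = ∅ := by
  have h := hr 2 {v | M (v 0) (v 1)} (fun v => v 1) hM ?_ ?_
  · convert h using 3
    ext z
    simp only [mem_ofPred_eq, mem_image]
    constructor
    · rintro ⟨t, ht⟩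
      exact ⟨![t, z], by simpa using ht, by simp⟩
    · rintro ⟨v, hv, rfl⟩
      exact ⟨v 0, hv⟩
  · rw [discreteTopology_iff_isOpen_singleton]
    rintro ⟨v, hv⟩
    obtain ⟨ε, hε, h⟩ := hd _ _ hv
    refine ⟨{w : Fin 2 → K | ∀ i, |w i - v i| < ε}, isOpen_box v ε, ?_⟩
    ext ⟨w, hw⟩
    simp only [mem_preimage, mem_singleton_iff, Subtype.mk.injEq]
    constructor
    · intro hlt
      have := h _ _ hw (hlt 0) (hlt 1)
      funext i
      fin_cases i
      · exact this.1
      · exact this.2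
    · rintro rfl i
      simpa using hε
  · have h1 : Df L (fun v : Fin 3 → K => M (v 0) (v 1)) := hM.relabel (![0, 1] : Fin 2 → Fin 3)
    have h2 : Df L (fun v : Fin 3 → K => M (v 0) (v 1) ∧ v 2 = v 1) :=
      h1.and (df_eq_var _ _)
    exact h2.congr fun v => Iff.rfl

/-- Density in an interval. -/
theorem dense_of_interior {U : Set K} (h : interior (closure U) ≠ ∅) :
    ∃ p q : K, p < q ∧ ∀ u v, u < v → p ≤ u → v ≤ q → ∃ y, u < y ∧ y < v ∧ y ∈ U := by
  obtain ⟨z₀, hz₀⟩ := nonempty_iff_ne_empty.2 h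
  obtain ⟨r, hr, hball⟩ := (nhds_ball z₀).mem_iff.1 (isOpen_interior.mem_nhds hz₀)
  refine ⟨z₀ - r / 2, z₀ + r / 2, by linarith, fun u v huv hpu hvq => ?_⟩
  have h1 : (u + v) / 2 ∈ closure U := interior_subset (hball (show |(u + v) / 2 - z₀| < r by
    rw [abs_lt]; constructor <;> linarith))
  obtain ⟨y, hy, hlt⟩ := mem_closure_ball.1 h1 ((v - u) / 2) (by linarith)
  rw [abs_lt] at hlt
  exact ⟨y, by linarith, by linarith, hy⟩

theorem sr1 (hr : Restr L K) : SR1 L K := by
  intro F hF hFc hFm hFi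
  have hF' := @rel2 K L _ F hF
  by_contra hne
  obtain ⟨p, q, hpq, hd⟩ := dense_of_interior hne
  by_cases hD : HasD L K
  · obtain ⟨D, hDd, hDiso, hDu⟩ := hD
    set M : K → K → Prop := fun t z => t ∈ D ∧ ∃ a, ∃ b, F t a ∧ F t b ∧ a < b ∧
      (∀ y, a < y → y < b → ¬ F t y) ∧ z + z = a + b with hM
    have hMi := restrained_two (L := L) hr (M := M) ?_ ?_
    · have hsub : Ioo p q ⊆ closure {z | ∃ t, M t z} := by
        intro z₁ hz₁
        rw [mem_closure_ball]
        intro ε hε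
        -- the interval `(u, v)` around `z₁`
        set u := max p (z₁ - ε) with hu
        set v := min q (z₁ + ε) with hv
        have hu1 : u < z₁ := max_lt hz₁.1 (by linarith)
        have hv1 : z₁ < v := lt_min hz₁.2 (by linarith)
        have hpu : p ≤ u := le_max_left _ _
        have hvq : v ≤ q := min_le_left _ _
        have hu2 : z₁ - ε ≤ u := le_max_right _ _
        have hv2 : v ≤ z₁ + ε := min_le_right _ _
        obtain ⟨y₁, h1, h2, t₁, h3⟩ := hd u z₁ hu1 hpu (by linarith)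
        obtain ⟨y₂, g1, g2, t₂, g3⟩ := hd z₁ v hv1 (by linarith) hvq
        obtain ⟨t, ht, htlt⟩ := hDu (max t₁ t₂)
        have hy₁ := hFm t₁ t y₁ ((le_max_left _ _).trans htlt.le) h3
        have hy₂ := hFm t₂ t y₂ ((le_max_right _ _).trans htlt.le) g3
        obtain ⟨z, hz1, hz2, hz⟩ := exists_notMem_of_interior (hFi t) (h2.trans g1)
        have hFtd : D1 L {y | F t y} := by
          show Df L (fun v : Unit → K => F t (v ()))
          (repeat' (intros; beta_reduce; first | apply (hF') | exact Dvar _ | exact Dconst _ | assumption | apply Dadd | apply Dsub | apply Dmul | apply Dneg | apply Dabs | apply Dlt | apply Dle | apply Deq | apply Df.and | apply Df.or | apply Df.not | apply Df.iff | apply Df.imp | apply Df.ex1 | apply Df.all1 | apply Df.exT | apply Df.allT | apply Df.all_fin | apply Df.ex_fin | exact Df.const _))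
        obtain ⟨a, ha, b, hb, hya, haz, hzb, hby, hg⟩ :=
          exists_gap (L := L) hFtd (hFc t) hy₁ hy₂ hz hz1 hz2
        refine ⟨(a + b) / 2, ⟨t, ht, a, b, ha, hb, haz.trans hzb, hg, by ring⟩, ?_⟩
        rw [abs_lt]
        constructor <;> linarith
      have h2 := interior_maximal hsub isOpen_Ioo
      rw [hMi] at h2
      exact h2 (⟨by linarith, by linarith⟩ : (p + q) / 2 ∈ Ioo p q)
    · show Df L (fun v : Fin 2 → K => v 0 ∈ D ∧ ∃ a, ∃ b, F (v 0) a ∧ F (v 0) b ∧ a < b ∧
        (∀ y, a < y → y < b → ¬ F (v 0) y) ∧ v 1 + v 1 = a + b)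
      (repeat' (intros; beta_reduce; first | apply (hDd.mem) | apply (hF') | exact Dvar _ | exact Dconst _ | assumption | apply Dadd | apply Dsub | apply Dmul | apply Dneg | apply Dabs | apply Dlt | apply Dle | apply Deq | apply Df.and | apply Df.or | apply Df.not | apply Df.iff | apply Df.imp | apply Df.ex1 | apply Df.all1 | apply Df.exT | apply Df.allT | apply Df.all_fin | apply Df.ex_fin | exact Df.const _))
    · rintro t z ⟨ht, a, b, ha, hb, hab, hg, hz⟩
      obtain ⟨ε, hε, hiso⟩ := hDiso t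
      refine ⟨min ε ((b - a) / 2), lt_min hε (by linarith), ?_⟩
      rintro t' z' ⟨ht', a', b', ha', hb', hab', hg', hz'⟩ h1 h2
      have htt : t' = t := hiso t' ht' (h1.trans_le (min_le_left _ _))
      subst htt
      refine ⟨rfl, ?_⟩
      have h3 := abs_lt.1 (h2.trans_le (min_le_right _ _))
      have e1 : a' ≤ a := by
        by_contra hc
        exact hg a' (not_le.1 hc) (by linarith [h3.1, h3.2]) ha'
      have e2 : a ≤ a' := by
        by_contra hc
        exact hg' a (not_le.1 hc) (by linarith [h3.1, h3.2]) ha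
      have e3 : b' ≤ b := by
        by_contra hc
        exact hg' b (by linarith [h3.1, h3.2]) (not_le.1 hc) hb
      have e4 : b ≤ b' := by
        by_contra hc
        exact hg b' (by linarith [h3.1, h3.2]) (not_le.1 hc) hb'
      linarith
  · -- the fine case
    set p' := p + (q - p) / 3 with hp'
    set q' := q - (q - p) / 3 with hq'
    have hpp' : p < p' := by rw [hp']; linarith
    have hqq' : q' < q := by rw [hq']; linarith
    have hpq' : p' < q' := by rw [hp', hq']; linarith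
    have hCd : ∀ t, D1 L {y | F t y ∧ p' ≤ y ∧ y ≤ q'} := by
      intro t
      show Df L (fun v : Unit → K => F t (v ()) ∧ p' ≤ v () ∧ v () ≤ q')
      (repeat' (intros; beta_reduce; first | apply (hF') | exact Dvar _ | exact Dconst _ | assumption | apply Dadd | apply Dsub | apply Dmul | apply Dneg | apply Dabs | apply Dlt | apply Dle | apply Deq | apply Df.and | apply Df.or | apply Df.not | apply Df.iff | apply Df.imp | apply Df.ex1 | apply Df.all1 | apply Df.exT | apply Df.allT | apply Df.all_fin | apply Df.ex_fin | exact Df.const _))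
    have hCc : ∀ t, IsClosed {y | F t y ∧ p' ≤ y ∧ y ≤ q'} := fun t =>
      (hFc t).inter (isClosed_Icc (a := p') (b := q'))
    have hCi : ∀ t, interior {y | F t y ∧ p' ≤ y ∧ y ≤ q'} = ∅ := fun t =>
      int_empty_mono (fun y hy => hy.1) (hFi t)
    have hPF : ∀ t, PF L {y | F t y ∧ p' ≤ y ∧ y ≤ q'} := fun t =>
      pf_of_not_hasD hD (hCd t) (hCc t) (hCi t) (R := max |p'| |q'|) (by
        rintro x ⟨-, h1, h2⟩
        exact abs_le_max_abs_abs h1 h2)
    set G : K → K → Prop := fun y s => p' ≤ y ∧ y ≤ q' ∧ (∃ t, 0 ≤ t ∧ F t y) ∧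
      (∀ t, 0 ≤ t → F t y → s ≤ t) ∧ ∀ s', (∀ t, 0 ≤ t → F t y → s' ≤ t) → s' ≤ s with hG
    have hGd : Df L (fun w : Fin 2 → K => G (w 0) (w 1)) := by
      show Df L (fun w : Fin 2 → K => p' ≤ w 0 ∧ w 0 ≤ q' ∧ (∃ t, 0 ≤ t ∧ F t (w 0)) ∧
        (∀ t, 0 ≤ t → F t (w 0) → w 1 ≤ t) ∧ ∀ s', (∀ t, 0 ≤ t → F t (w 0) → s' ≤ t) → s' ≤ w 1)
      (repeat' (intros; beta_reduce; first | apply (hF') | exact Dvar _ | exact Dconst _ | assumption | apply Dadd | apply Dsub | apply Dmul | apply Dneg | apply Dabs | apply Dlt | apply Dle | apply Deq | apply Df.and | apply Df.or | apply Df.not | apply Df.iff | apply Df.imp | apply Df.ex1 | apply Df.all1 | apply Df.exT | apply Df.allT | apply Df.all_fin | apply Df.ex_fin | exact Df.const _))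
    have hG' := @rel2 K L _ G hGd
    have hGf : ∀ y s s', G y s → G y s' → s = s' := by
      rintro y s s' ⟨-, -, -, h1, h2⟩ ⟨-, -, -, h3, h4⟩
      exact le_antisymm (h4 s h1) (h2 s' h3)
    have hGex : ∀ y, p' ≤ y → y ≤ q' → ∀ t, 0 ≤ t → F t y → ∃ s, G y s := by
      intro y h1 h2 t ht hty
      obtain ⟨s, hs⟩ := exists_glb (L := L) (S := {t | 0 ≤ t ∧ F t y}) (by
        show Df L (fun v : Unit → K => 0 ≤ v () ∧ F (v ()) y)
        (repeat' (intros; beta_reduce; first | apply (hF') | exact Dvar _ | exact Dconst _ | assumption | apply Dadd | apply Dsub | apply Dmul | apply Dneg | apply Dabs | apply Dlt | apply Dle | apply Deq | apply Df.and | apply Df.or | apply Df.not | apply Df.iff | apply Df.imp | apply Df.ex1 | apply Df.all1 | apply Df.exT | apply Df.allT | apply Df.all_fin | apply Df.ex_fin | exact Df.const _))) ⟨t, ht, hty⟩ ⟨0, fun x hx => hx.1⟩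
      refine ⟨s, h1, h2, ⟨t, ht, hty⟩, fun t' h3 h4 => hs.1 ⟨h3, h4⟩, fun s' hs' => ?_⟩
      exact hs.2 fun x hx => hs' x hx.1 hx.2
    have hGlt : ∀ y s, G y s → ∀ r, s < r → F r y := by
      rintro y s ⟨-, -, -, -, h2⟩ r hr
      by_contra hcon
      have := h2 r (fun t ht hty => by
        by_contra hlt
        exact hcon (hFm t r y (not_le.1 hlt).le hty))
      linarith
    set T : Set K := {s | ∃ y, G y s} with hT
    have hTd : D1 L T := by
      show Df L (fun v : Unit → K => ∃ y, G y (v ()))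
      (repeat' (intros; beta_reduce; first | apply (hG') | exact Dvar _ | exact Dconst _ | assumption | apply Dadd | apply Dsub | apply Dmul | apply Dneg | apply Dabs | apply Dlt | apply Dle | apply Deq | apply Df.and | apply Df.or | apply Df.not | apply Df.iff | apply Df.imp | apply Df.ex1 | apply Df.all1 | apply Df.exT | apply Df.allT | apply Df.all_fin | apply Df.ex_fin | exact Df.const _))
    have hTiso : ∀ t, ∃ ε > 0, ∀ t' ∈ T, |t' - t| < ε → t' = t := by
      intro t
      have h1 := (hPF (t + 2)).image hGd (fun x _ => hGf x)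
      obtain ⟨ε, hε, h2⟩ := h1.isolated t
      refine ⟨min ε 1, lt_min hε one_pos, ?_⟩
      rintro t' ⟨y, hy⟩ hlt
      have h3 := (abs_lt.1 (hlt.trans_le (min_le_right _ _))).2
      refine h2 t' ⟨y, ⟨hGlt y t' hy _ (by linarith), hy.1, hy.2.1⟩, hy⟩
        (hlt.trans_le (min_le_left _ _))
    obtain ⟨R0, hR0⟩ : ∃ R0, ∀ d ∈ T, d ≤ R0 := by
      by_contra hcon
      push Not at hcon
      exact hD ⟨T, hTd, hTiso, hcon⟩
    obtain ⟨z, hz1, hz2, hz⟩ := exists_notMem_of_interior (hFi (R0 + 1)) hpq'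
    obtain ⟨r, hr, hball⟩ := (nhds_ball z).mem_iff.1
      ((hFc (R0 + 1)).isOpen_compl.inter isOpen_Ioo |>.mem_nhds
        (⟨hz, hz1, hz2⟩ : z ∈ {y | F (R0 + 1) y}ᶜ ∩ Ioo p' q'))
    have h5 : |z - z| < r := by simpa using hr
    -- a small interval around `z`
    have h6 : p' ≤ max p' (z - r / 2) := le_max_left _ _
    have h7 : z - r / 2 ≤ max p' (z - r / 2) := le_max_right _ _
    have h8 : max p' (z - r / 2) < z := max_lt hz1 (by linarith)
    obtain ⟨y, hy1, hy2, t, hty⟩ := hd (max p' (z - r / 2)) z h8 (by linarith) (by linarith)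
    have hyb : |y - z| < r := by rw [abs_lt]; constructor <;> linarith
    obtain ⟨hy3, hy4, hy5⟩ := hball hyb
    apply hy3
    have hty' : F (max t 0) y := hFm t _ y (le_max_left _ _) hty
    obtain ⟨s, hs⟩ := hGex y hy4.le hy5.le _ (le_max_right _ _) hty'
    exact hGlt y s hs _ (by have := hR0 s ⟨y, hs⟩; linarith)

end Pool.Agent.K3h92.OC
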