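import Mathlib
import Pool.Agent.K3h92.OC.Sel

set_option autoImplicit false

/-! Unions of increasing definable families of closed sets with empty interior are nowhere dense,
in all dimensions. -/

namespace Pool.Agent.K3h92.OC

open FirstOrder FirstOrder.Language Set Filter Topology

variable {K : Type} [Field K] [LinearOrder K] [IsStrictOrderedRing K] [TopologicalSpace K]
  [OrderTopology K]
variable {L : FirstOrder.Language.{0, 0}} [L.Structure K] [DC L K]

omit [Field K] [LinearOrder K] [IsStrictOrderedRing K] [OrderTopology K] [TopologicalSpace K]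
  [DC L K] in
theorem dfF_cons {β : Type} {F : K → (Option β → K) → Prop} [Finite β]
    (hF : Df L (fun w : Option (Option β) → K => F (w none) (fun i => w (some i))))
    {α : Type} [Finite α] {f y : (α → K) → K} {g : β → (α → K) → K}
    (hf : DfF L f) (hy : DfF L y) (hg : ∀ i, DfF L (g i)) :
    Df L (fun v => F (f v) (cons (y v) (fun i => g i v))) := by
  exact Df.substT (f := fun (o : Option (Option β)) (v : α → K) =>
    o.elim (f v) (fun o' => cons (y v) (fun i => g i v) o')) hF (by
      rintro (_ | _ | i)
      · exact hf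
      · exact hy
      · exact hg i)

omit [Field K] [LinearOrder K] [IsStrictOrderedRing K] [TopologicalSpace K] [OrderTopology K] in
theorem of_int {X : Type} [TopologicalSpace X] {P : X → Prop} {x : X}
    (h : x ∈ interior {x | P x}) : P x := (interior_subset h : x ∈ {x | P x})

/-- The inductive step. -/
theorem sr_step (h1 : SR1 L K) {β : Type} [Finite β] (ih : SR L K β) : SR L K (Option β) := by
  intro F hF hc hm he
  have hF' : ∀ {α : Type} [Finite α] {f y : (α → K) → K} {g : β → (α → K) → K},
      DfF L f → DfF L y → (∀ i, DfF L (g i)) →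
      Df L (fun v => F (f v) (cons (y v) (fun i => g i v))) :=
    fun hf hy hg => dfF_cons hF hf hy hg
  by_contra hne
  obtain ⟨v₀, hv₀⟩ := Set.nonempty_iff_ne_empty.2 hne
  obtain ⟨r, hr, hbox⟩ := (nhds_box v₀).mem_iff.1 (isOpen_interior.mem_nhds hv₀)
  set a₀ := v₀ none - r with ha₀
  set b₀ := v₀ none + r with hb₀
  set V : Set (β → K) := {x | ∀ i, |x i - v₀ (some i)| < r} with hV
  have hVo : IsOpen V := isOpen_box _ r
  -- density of the union
  have hdense : ∀ U : Set (β → K), IsOpen U → U.Nonempty → U ⊆ V → ∀ p q : K, a₀ ≤ p → p < q →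
      q ≤ b₀ → ∃ t, ∃ x ∈ U, ∃ y, p < y ∧ y < q ∧ F t (cons y x) := by
    intro U hU hUne hUV p q hp hpq hq
    obtain ⟨x₁, hx₁⟩ := hUne
    have h2 : cons ((p + q) / 2) x₁ ∈ closure {x | ∃ t, F t x} := by
      refine interior_subset (hbox ?_)
      rintro (_ | i)
      · show |(p + q) / 2 - v₀ none| < r
        rw [abs_lt]
        constructor <;> linarith
      · exact hUV hx₁ i
    have hO : IsOpen {v : Option β → K | (fun i => v (some i)) ∈ U ∧ p < v none ∧ v none < q} := by
      refine (hU.preimage (by fun_prop)).inter ((isOpen_lt (by fun_prop) (by fun_prop)).inter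
        (isOpen_lt (by fun_prop) (by fun_prop)))
    obtain ⟨v, hv, t, hvt⟩ := mem_closure_iff.1 h2 _ hO ⟨hx₁, by
      show p < (p + q) / 2
      linarith, by
      show (p + q) / 2 < q
      linarith⟩
    refine ⟨t, fun i => v (some i), hv.1, v none, hv.2.1, hv.2.2, ?_⟩
    rwa [cons_eta]
  -- first step: the fibres have empty interior over a smaller set
  set S : K → (β → K) → Prop := fun t x => 0 < t ∧ ∃ a, -t ≤ a ∧ a ≤ t ∧ ∀ y, a ≤ y →
    t * (y - a) ≤ 1 → F t (cons y x) with hS
  have hYc : ∀ t, IsClosed {p : (β → K) × K | ∀ y, p.2 ≤ y → t * (y - p.2) ≤ 1 →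
      F t (cons y p.1)} := by
    intro t
    have : {p : (β → K) × K | ∀ y, p.2 ≤ y → t * (y - p.2) ≤ 1 → F t (cons y p.1)} =
        {p : (β → K) × K | ∀ s : K, 0 ≤ s → t * s ≤ 1 → F t (cons (p.2 + s) p.1)} := by
      ext p
      constructor
      · intro h s h2 h3
        exact h (p.2 + s) (by linarith) (by simpa using h3)
      · intro h y h2 h3
        have := h (y - p.2) (by linarith) h3
        simpa using this
    rw [this]
    refine isClosed_all fun s => ?_
    by_cases h2 : 0 ≤ s
    · by_cases h3 : t * s ≤ 1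
      · simp only [h2, h3, forall_true_left]
        exact (hc t).preimage (continuous_cons (by fun_prop) (by fun_prop))
      · simp only [h3, IsEmpty.forall_iff, implies_true]
        exact isClosed_univ
    · simp only [h2, IsEmpty.forall_iff]
      exact isClosed_univ
  have hYd : ∀ t, Df L (fun w : Option β → K => ∀ y, w none ≤ y → t * (y - w none) ≤ 1 →
      F t (cons y fun i => w (some i))) := by
    intro t
    (repeat' (intros; beta_reduce; first | apply (hF') | exact Dvar _ | exact Dconst _ | assumption | apply Dadd | apply Dsub | apply Dmul | apply Dneg | apply Dabs | apply Dlt | apply Dle | apply Deq | apply Df.and | apply Df.or | apply Df.not | apply Df.iff | apply Df.imp | apply Df.ex1 | apply Df.all1 | apply Df.exT | apply Df.allT | apply Df.all_fin | apply Df.ex_fin | exact Df.const _))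
  have hSint : interior (closure {x | ∃ t, S t x}) = ∅ := by
    refine ih S ?_ ?_ ?_ ?_
    · (repeat' (intros; beta_reduce; first | apply (hF') | exact Dvar _ | exact Dconst _ | assumption | apply Dadd | apply Dsub | apply Dmul | apply Dneg | apply Dabs | apply Dlt | apply Dle | apply Deq | apply Df.and | apply Df.or | apply Df.not | apply Df.iff | apply Df.imp | apply Df.ex1 | apply Df.all1 | apply Df.exT | apply Df.allT | apply Df.all_fin | apply Df.ex_fin | exact Df.const _))
    · intro t
      by_cases ht : 0 < t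
      · have h3 := proj_closed1 (L := L) (Y := fun (x : β → K) a => ∀ y, a ≤ y →
          t * (y - a) ≤ 1 → F t (cons y x)) (hYd t) (hYc t) (-t) t
        convert h3 using 2
        ext x
        exact and_iff_right ht
      · have : {x | S t x} = ∅ := by
          ext x
          simp only [hS, mem_ofPred_eq, mem_empty_iff_false, iff_false]
          exact fun h => ht h.1
        rw [this]
        exact isClosed_empty
    · rintro t t' x htt ⟨ht, a, h2, h3, h4⟩
      refine ⟨ht.trans_le htt, a, by linarith, by linarith, fun y h5 h6 => hm t t' _ htt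
        (h4 y h5 ?_)⟩
      exact (mul_le_mul_of_nonneg_right htt (by linarith)).trans h6
    · intro t
      by_contra hcon
      set U := interior {x | S t x} with hU
      have hUne : U.Nonempty := Set.nonempty_iff_ne_empty.2 hcon
      have ht : 0 < t := by
        obtain ⟨x, hx⟩ := hUne
        exact (of_int (P := fun x => S t x) hx).1
      have hε : 0 < 1 / (4 * t) := by positivity
      obtain ⟨U', hU'1, hU'2, hU'3, m, hm'⟩ := sel (L := L) (C := fun (x : β → K) (w : Unit → K) =>
        ∀ y, w () ≤ y → t * (y - w ()) ≤ 1 → F t (cons y x))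
        ((hYc t).preimage (f := fun p : (β → K) × (Unit → K) => (p.1, p.2 ())) (by fun_prop))
        (by (repeat' (intros; beta_reduce; first | apply (hF') | exact Dvar _ | exact Dconst _ | assumption | apply Dadd | apply Dsub | apply Dmul | apply Dneg | apply Dabs | apply Dlt | apply Dle | apply Deq | apply Df.and | apply Df.or | apply Df.not | apply Df.iff | apply Df.imp | apply Df.ex1 | apply Df.all1 | apply Df.exT | apply Df.allT | apply Df.all_fin | apply Df.ex_fin | exact Df.const _))) t hε isOpen_interior hUne (by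
          intro x hx
          obtain ⟨-, a, h2, h3, h4⟩ := of_int (P := fun x => S t x) hx
          exact ⟨fun _ => a, fun _ => abs_le.2 ⟨h2, h3⟩, h4⟩)
      have hsub : {v : Option β → K | (fun i => v (some i)) ∈ U' ∧ m () + 1 / (4 * t) < v none ∧
          v none < m () + 3 / (4 * t)} ⊆ interior {x | F t x} := by
        refine interior_maximal ?_ ((hU'2.preimage (by fun_prop)).inter
          ((isOpen_lt (by fun_prop) (by fun_prop)).inter (isOpen_lt (by fun_prop) (by fun_prop))))
        rintro v ⟨h2, h3, h4⟩
        obtain ⟨w, -, h6, h7⟩ := hm' _ h2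
        have h8 := abs_le.1 (h6 ())
        have h9 := h7 (v none) (by linarith) (by
          have h10 : v none - w () ≤ 3 / (4 * t) + 1 / (4 * t) := by linarith
          have h11 : t * (3 / (4 * t) + 1 / (4 * t)) = 1 := by field_simp; norm_num
          calc t * (v none - w ()) ≤ t * (3 / (4 * t) + 1 / (4 * t)) :=
                mul_le_mul_of_nonneg_left h10 ht.le
            _ = 1 := h11)
        rwa [cons_eta] at h9
      rw [he t] at hsub
      obtain ⟨x, hx⟩ := hU'3
      have h12 : (1 : K) / (4 * t) < 3 / (4 * t) := by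
        apply div_lt_div_of_pos_right _ (by positivity)
        norm_num
      refine hsub (a := cons (m () + (1 / (4 * t) + 3 / (4 * t)) / 2) x) ⟨hx, ?_, ?_⟩
      · show m () + 1 / (4 * t) < m () + (1 / (4 * t) + 3 / (4 * t)) / 2
        linarith
      · show m () + (1 / (4 * t) + 3 / (4 * t)) / 2 < m () + 3 / (4 * t)
        linarith
  -- a smaller open set
  obtain ⟨x₁, hx₁V, hx₁S⟩ : ∃ x ∈ V, x ∉ closure {x | ∃ t, S t x} := by
    by_contra hcon
    push Not at hcon
    have h2 : V ⊆ interior (closure {x | ∃ t, S t x}) := interior_maximal hcon hVo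
    rw [hSint] at h2
    exact h2 (show (fun i => v₀ (some i)) ∈ V from fun i => by simpa using hr)
  obtain ⟨r₁, hr₁, hbox₁⟩ := (nhds_box x₁).mem_iff.1
    ((hVo.inter isClosed_closure.isOpen_compl).mem_nhds ⟨hx₁V, hx₁S⟩)
  have hfib : ∀ x : β → K, (∀ i, |x i - x₁ i| < r₁) → ∀ t, interior {y | F t (cons y x)} = ∅ := by
    intro x hx t
    by_contra hcon
    obtain ⟨y₀, hy₀⟩ := Set.nonempty_iff_ne_empty.2 hcon
    obtain ⟨ρ, hρ, hρ'⟩ := (nhds_ball y₀).mem_iff.1 (isOpen_interior.mem_nhds hy₀)
    refine (hbox₁ hx).2 (subset_closure ?_)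
    set t' := max (max t (|y₀|)) (2 / ρ) with ht'
    have h2 : 2 / ρ ≤ t' := le_max_right _ _
    have h3 : t ≤ t' := (le_max_left _ _).trans (le_max_left _ _)
    have h4 : |y₀| ≤ t' := (le_max_right _ _).trans (le_max_left _ _)
    have h5 : 0 < t' := lt_of_lt_of_le (by positivity) h2
    refine ⟨t', h5, y₀, (abs_le.1 h4).1, (abs_le.1 h4).2, fun y h6 h7 => hm t t' _ h3 ?_⟩
    have h8 : y - y₀ < ρ := by
      have h9 : 2 / ρ * (y - y₀) ≤ 1 :=
        (mul_le_mul_of_nonneg_right h2 (by linarith)).trans h7
      have h10 : 2 * (y - y₀) ≤ ρ := by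
        have := mul_le_mul_of_nonneg_left h9 hρ.le
        have e : ρ * (2 / ρ * (y - y₀)) = 2 * (y - y₀) := by field_simp
        rw [e, mul_one] at this
        exact this
      linarith
    exact of_int (P := fun y => F t (cons y x)) (hρ' (show |y - y₀| < ρ from abs_lt.2 ⟨by linarith, h8⟩))
  -- second step
  set O : (β → K) → K → K → Prop := fun x p q => ∃ ε, 0 < ε ∧ ∃ t, ∀ x' : β → K,
    (∀ i, |x' i - x i| < ε) → ∃ y, p + ε ≤ y ∧ y ≤ q - ε ∧ F t (cons y x') with hO
  have hOmono : ∀ x p q p' q', p' ≤ p → q ≤ q' → O x p q → O x p' q' := by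
    rintro x p q p' q' h2 h3 ⟨ε, hε, t, h4⟩
    refine ⟨ε, hε, t, fun x' hx' => ?_⟩
    obtain ⟨y, h5, h6, h7⟩ := h4 x' hx'
    exact ⟨y, by linarith, by linarith, h7⟩
  have hOd : ∀ {α : Type} [Finite α] {g : β → (α → K) → K} {p q : (α → K) → K},
      (∀ i, DfF L (g i)) → DfF L p → DfF L q →
      Df L (fun v => O (fun i => g i v) (p v) (q v)) := by
    intro α _ g p q hg hp hq
    have h2 : Df L (fun w : Option (Option β) → K => O (fun i => w (some (some i))) (w none)
        (w (some none))) := by
      (repeat' (intros; beta_reduce; first | apply (hF') | exact Dvar _ | exact Dconst _ | assumption | apply Dadd | apply Dsub | apply Dmul | apply Dneg | apply Dabs | apply Dlt | apply Dle | apply Deq | apply Df.and | apply Df.or | apply Df.not | apply Df.iff | apply Df.imp | apply Df.ex1 | apply Df.all1 | apply Df.exT | apply Df.allT | apply Df.all_fin | apply Df.ex_fin | exact Df.const _))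
    exact Df.substT (f := fun (o : Option (Option β)) (v : α → K) =>
      o.elim (p v) (fun o' => o'.elim (q v) (fun i => g i v))) h2 (by
        rintro (_ | _ | i)
        · exact hp
        · exact hq
        · exact hg i)
  have hOdense : ∀ U : Set (β → K), IsOpen U → U.Nonempty → U ⊆ V → ∀ p q : K, a₀ ≤ p → p < q →
      q ≤ b₀ → ∃ x ∈ U, O x p q := by
    intro U hU hUne hUV p q hp hpq hq
    obtain ⟨x₂, hx₂⟩ := hUne
    obtain ⟨ρ, hρ, hρ'⟩ := (nhds_box x₂).mem_iff.1 (hU.mem_nhds hx₂)
    set δ := (q - p) / 4 with hδ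
    have hδ0 : 0 < δ := by rw [hδ]; linarith
    set G : K → (β → K) → Prop := fun t x => (∀ i, |x i - x₂ i| ≤ ρ / 2) ∧
      ∃ y, p + δ ≤ y ∧ y ≤ q - δ ∧ F t (cons y x) with hG
    by_contra hcon
    push Not at hcon
    have hGint : interior (closure {x | ∃ t, G t x}) = ∅ := by
      refine ih G ?_ ?_ ?_ ?_
      · (repeat' (intros; beta_reduce; first | apply (hF') | exact Dvar _ | exact Dconst _ | assumption | apply Dadd | apply Dsub | apply Dmul | apply Dneg | apply Dabs | apply Dlt | apply Dle | apply Deq | apply Df.and | apply Df.or | apply Df.not | apply Df.iff | apply Df.imp | apply Df.ex1 | apply Df.all1 | apply Df.exT | apply Df.allT | apply Df.all_fin | apply Df.ex_fin | exact Df.const _))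
      · intro t
        refine (isClosed_box x₂ (ρ / 2)).inter ?_
        exact proj_closed1 (L := L) (Y := fun (x : β → K) y => F t (cons y x)) (by (repeat' (intros; beta_reduce; first | apply (hF') | exact Dvar _ | exact Dconst _ | assumption | apply Dadd | apply Dsub | apply Dmul | apply Dneg | apply Dabs | apply Dlt | apply Dle | apply Deq | apply Df.and | apply Df.or | apply Df.not | apply Df.iff | apply Df.imp | apply Df.ex1 | apply Df.all1 | apply Df.exT | apply Df.allT | apply Df.all_fin | apply Df.ex_fin | exact Df.const _)))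
          ((hc t).preimage (continuous_cons (by fun_prop) (by fun_prop))) _ _
      · rintro t t' x htt ⟨h2, y, h3, h4, h5⟩
        exact ⟨h2, y, h3, h4, hm t t' _ htt h5⟩
      · intro t
        by_contra hcon2
        obtain ⟨x₃, hx₃⟩ := Set.nonempty_iff_ne_empty.2 hcon2
        obtain ⟨ρ₃, hρ₃, hρ₃'⟩ := (nhds_box x₃).mem_iff.1 (isOpen_interior.mem_nhds hx₃)
        have h2 : x₃ ∈ U := hρ' fun i => by
          have := (of_int (P := fun x => G t x) hx₃).1 i
          linarith
        refine hcon x₃ h2 ⟨min ρ₃ δ, lt_min hρ₃ hδ0, t, fun x' hx' => ?_⟩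
        obtain ⟨-, y, h3, h4, h5⟩ := of_int (P := fun x => G t x) (hρ₃' fun i =>
          (hx' i).trans_le (min_le_left _ _))
        have h6 : min ρ₃ δ ≤ δ := min_le_right _ _
        exact ⟨y, by linarith, by linarith, h5⟩
    have h2 : {x : β → K | ∀ i, |x i - x₂ i| < ρ / 2} ⊆ interior (closure {x | ∃ t, G t x}) := by
      refine interior_maximal ?_ (isOpen_box _ _)
      intro x hx
      rw [mem_closure_iff]
      intro W hW hxW
      obtain ⟨t, x', ⟨h3, h4⟩, y, h5, h6, h7⟩ := hdense
        (W ∩ {x : β → K | ∀ i, |x i - x₂ i| < ρ / 2}) (hW.inter (isOpen_box _ _)) ⟨x, hxW, hx⟩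
        (fun z hz => hUV (hρ' fun i => by
          have := hz.2 i
          linarith)) (p + δ) (q - δ) (by linarith) (by rw [hδ]; linarith) (by linarith)
      exact ⟨x', h3, t, fun i => (h4 i).le, y, h5.le, h6.le, h7⟩
    rw [hGint] at h2
    exact h2 (show x₂ ∈ _ from fun i => by simpa using half_pos hρ)
  -- third step
  set N : K → (β → K) → Prop := fun d x => 0 < d ∧ (∀ i, |x i - x₁ i| ≤ r₁ / 2) ∧
    ∃ p, a₀ ≤ p ∧ p ≤ b₀ ∧ ∃ q, d * (q - p) = 1 ∧ q ≤ b₀ ∧ ¬ O x p q with hN
  have hOopen : ∀ e : K, IsClosed {p : (β → K) × K | ¬ O p.1 p.2 (p.2 + e)} := by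
    intro e
    have : IsOpen {p : (β → K) × K | O p.1 p.2 (p.2 + e)} := by
      rw [isOpen_iff_mem_nhds]
      rintro ⟨x, p⟩ ⟨ε, hε, t, h2⟩
      refine (ev_prod (P := fun p : (β → K) × K => O p.1 p.2 (p.2 + e))).2
        ⟨ε / 2, half_pos hε, fun x' p' hx' hp' => ⟨ε / 2, half_pos hε, t, fun x'' hx'' => ?_⟩⟩
      obtain ⟨y, h3, h4, h5⟩ := h2 x'' (fun i => by
        have h6 := hx' i
        have h7 := hx'' i
        rw [abs_lt] at h6 h7 ⊢
        constructor <;> linarith)
      rw [abs_lt] at hp'
      exact ⟨y, by linarith, by linarith, h5⟩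
    exact this.isClosed_compl
  have hNint : interior (closure {x | ∃ d, N d x}) = ∅ := by
    refine ih N ?_ ?_ ?_ ?_
    · (repeat' (intros; beta_reduce; first | apply (hOd) | exact Dvar _ | exact Dconst _ | assumption | apply Dadd | apply Dsub | apply Dmul | apply Dneg | apply Dabs | apply Dlt | apply Dle | apply Deq | apply Df.and | apply Df.or | apply Df.not | apply Df.iff | apply Df.imp | apply Df.ex1 | apply Df.all1 | apply Df.exT | apply Df.allT | apply Df.all_fin | apply Df.ex_fin | exact Df.const _))
    · intro d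
      by_cases hd : 0 < d
      · have h3 := proj_closed1 (L := L) (Y := fun (x : β → K) p => p + 1 / d ≤ b₀ ∧
          ¬ O x p (p + 1 / d)) (by (repeat' (intros; beta_reduce; first | apply (hOd) | exact Dvar _ | exact Dconst _ | assumption | apply Dadd | apply Dsub | apply Dmul | apply Dneg | apply Dabs | apply Dlt | apply Dle | apply Deq | apply Df.and | apply Df.or | apply Df.not | apply Df.iff | apply Df.imp | apply Df.ex1 | apply Df.all1 | apply Df.exT | apply Df.allT | apply Df.all_fin | apply Df.ex_fin | exact Df.const _)))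
          ((isClosed_le (by fun_prop) (by fun_prop)).inter (hOopen (1 / d))) a₀ b₀
        have h4 := (isClosed_box x₁ (r₁ / 2)).inter h3
        convert h4 using 1
        ext x
        constructor
        · rintro ⟨-, h5, p, h6, h7, q, h8, h9, h10⟩
          have e : q = p + 1 / d := by field_simp; linarith
          subst e
          exact ⟨h5, p, h6, h7, h9, h10⟩
        · rintro ⟨h5, p, h6, h7, h8, h9⟩
          exact ⟨hd, h5, p, h6, h7, p + 1 / d, by field_simp; ring, h8, h9⟩
      · have : {x | N d x} = ∅ := by
          ext x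
          simp only [hN, mem_ofPred_eq, mem_empty_iff_false, iff_false]
          exact fun h => hd h.1
        rw [this]
        exact isClosed_empty
    · rintro d d' x hdd ⟨hd, h2, p, h3, h4, q, h5, h6, h7⟩
      have hd' : 0 < d' := hd.trans_le hdd
      have h8 : p + 1 / d' ≤ q := by
        have e : q = p + 1 / d := by field_simp; linarith
        rw [e]
        have := one_div_le_one_div_of_le hd hdd
        linarith
      refine ⟨hd', h2, p, h3, h4, p + 1 / d', by field_simp; ring, by linarith, fun h9 => h7 ?_⟩
      exact hOmono x p _ p q le_rfl h8 h9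
    · intro d
      by_contra hcon
      set U := interior {x | N d x} with hU
      have hUne : U.Nonempty := Set.nonempty_iff_ne_empty.2 hcon
      have hd : 0 < d := by
        obtain ⟨x, hx⟩ := hUne
        exact (of_int (P := fun x => N d x) hx).1
      have hε : 0 < 1 / (4 * d) := by positivity
      obtain ⟨U', hU'1, hU'2, hU'3, m, hm'⟩ := sel (L := L) (C := fun (x : β → K) (w : Unit → K) =>
        a₀ ≤ w () ∧ (w () + 1 / d ≤ b₀ ∧ ¬ O x (w ()) (w () + 1 / d)))
        ((isClosed_le (by fun_prop) (by fun_prop)).inter ((isClosed_le (by fun_prop)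
          (by fun_prop)).inter ((hOopen (1 / d)).preimage
            (f := fun p : (β → K) × (Unit → K) => (p.1, p.2 ())) (by fun_prop))))
        (by (repeat' (intros; beta_reduce; first | apply (hOd) | exact Dvar _ | exact Dconst _ | assumption | apply Dadd | apply Dsub | apply Dmul | apply Dneg | apply Dabs | apply Dlt | apply Dle | apply Deq | apply Df.and | apply Df.or | apply Df.not | apply Df.iff | apply Df.imp | apply Df.ex1 | apply Df.all1 | apply Df.exT | apply Df.allT | apply Df.all_fin | apply Df.ex_fin | exact Df.const _))) (max |a₀| |b₀|) hε isOpen_interior hUne (by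
          intro x hx
          obtain ⟨-, -, p, h6, h7, q, h8, h9, h10⟩ := of_int (P := fun x => N d x) hx
          have e : q = p + 1 / d := by field_simp; linarith
          subst e
          exact ⟨fun _ => p, fun _ => abs_le_max_abs_abs h6 h7, h6, h9, h10⟩)
      have e4 : 1 / d = 4 * (1 / (4 * d)) := by field_simp
      set η := 1 / (4 * d) with hη
      obtain ⟨x₄, hx₄⟩ := hU'3
      obtain ⟨w₄, -, h14, h15, h16, -⟩ := hm' x₄ hx₄
      have h17 := abs_le.1 (h14 ())
      rw [e4] at h16
      obtain ⟨x, hxU', hxO⟩ := hOdense U' hU'2 ⟨x₄, hx₄⟩ (fun z hz => by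
          have h2 : N d z := of_int (P := fun x => N d x) (hU'1 hz)
          exact (hbox₁ fun i => by
            have := h2.2.1 i
            linarith : z ∈ V ∩ _).1) (max a₀ (m () + η)) (min b₀ (m () + 3 * η)) (le_max_left _ _)
        (by
          refine max_lt (lt_min (by linarith) (by linarith)) (lt_min (by linarith) (by linarith)))
        (min_le_left _ _)
      obtain ⟨w, -, h3, h4, h5, h6⟩ := hm' x hxU'
      have h7 := abs_le.1 (h3 ())
      rw [e4] at h6
      refine h6 (hOmono x _ _ _ _ ?_ ?_ hxO)
      · exact le_max_of_le_right (by linarith)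
      · exact min_le_of_right_le (by linarith)
  obtain ⟨x, hxB, hxN⟩ : ∃ x : β → K, (∀ i, |x i - x₁ i| < r₁ / 2) ∧
      x ∉ closure {x | ∃ d, N d x} := by
    by_contra hcon
    push Not at hcon
    have h2 : {x : β → K | ∀ i, |x i - x₁ i| < r₁ / 2} ⊆ interior (closure {x | ∃ d, N d x}) :=
      interior_maximal hcon (isOpen_box _ _)
    rw [hNint] at h2
    exact h2 (show x₁ ∈ _ from fun i => by simpa using half_pos hr₁)
  have hfin : ∀ p q, a₀ ≤ p → p < q → q ≤ b₀ → ∃ t, ∃ y, p < y ∧ y < q ∧ F t (cons y x) := by
    intro p q hp hpq hq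
    have h2 : O x p q := by
      by_contra hcon
      refine hxN (subset_closure ⟨1 / (q - p), ?_, fun i => (hxB i).le, p, hp, by linarith, q, ?_,
        hq, hcon⟩)
      · exact one_div_pos.2 (by linarith)
      · exact one_div_mul_cancel (by linarith)
    obtain ⟨ε, hε, t, h3⟩ := h2
    obtain ⟨y, h4, h5, h6⟩ := h3 x (fun i => by simpa using hε)
    exact ⟨t, y, by linarith, by linarith, h6⟩
  have h1' := h1 (fun t y => F t (cons y x)) (by
      have : Df L (fun w : Fin 2 → K => F (w 0) (cons (w 1) (fun i => x i))) :=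
        hF' (Dvar _) (Dvar _) (fun i => Dconst _)
      exact this)
    (fun t => (hc t).preimage (continuous_cons (by fun_prop) (by fun_prop)))
    (fun t t' y htt h => hm t t' _ htt h) (fun t => hfib x (fun i => by
      have := hxB i
      linarith) t)
  have h2 : Ioo a₀ b₀ ⊆ interior (closure {y | ∃ t, F t (cons y x)}) := by
    refine interior_maximal ?_ isOpen_Ioo
    rintro y ⟨hy1, hy2⟩
    rw [mem_closure_ball]
    intro ε hε
    obtain ⟨t, z, h3, h4, h5⟩ := hfin (max a₀ (y - ε)) (min b₀ (y + ε)) (le_max_left _ _)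
      (max_lt (lt_min (by linarith) (by linarith)) (lt_min (by linarith) (by linarith)))
      (min_le_left _ _)
    refine ⟨z, ⟨t, h5⟩, abs_lt.2 ⟨?_, ?_⟩⟩
    · have := (le_max_right a₀ (y - ε)).trans_lt h3
      linarith
    · have := h4.trans_le (min_le_right _ _)
      linarith
  rw [h1'] at h2
  exact h2 (⟨by linarith, by linarith⟩ : v₀ none ∈ Ioo a₀ b₀)

theorem sr_of (h : SR1 L K) (β : Type) [Finite β] : SR L K β := by
  induction β using Finite.induction_empty_option with
  | @of_equiv γ₁ γ₂ e ih =>
    intro F hF hc hm he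
    set φ : (γ₂ → K) ≃ₜ (γ₁ → K) :=
      { toFun := fun x i => x (e i)
        invFun := fun x j => x (e.symm j)
        left_inv := fun x => by funext j; simp
        right_inv := fun x => by funext j; simp
        continuous_toFun := by fun_prop
        continuous_invFun := by fun_prop } with hφ
    have h2 := ih (fun t x => F t (φ.symm x))
      ((hF.relabel (fun o : Option γ₂ => o.map e.symm)).congr fun w => Iff.rfl)
      (fun t => (hc t).preimage φ.symm.continuous)
      (fun t t' x htt h => hm t t' _ htt h) (fun t => by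
        have : {x | F t (φ.symm x)} = φ.symm ⁻¹' {x | F t x} := rfl
        rw [this, ← φ.symm.preimage_interior, he t, preimage_empty])
    have h3 : {x | ∃ t, F t (φ.symm x)} = φ.symm ⁻¹' {x | ∃ t, F t x} := rfl
    rw [h3, ← φ.symm.preimage_closure, ← φ.symm.preimage_interior] at h2
    ext x
    simp only [mem_empty_iff_false, iff_false]
    intro hx
    have : φ x ∈ φ.symm ⁻¹' interior (closure {x | ∃ t, F t x}) := by
      simpa using hx
    rw [h2] at this
    exact this
  | h_empty =>
    intro F hF hc hm he
    have : {x | ∃ t, F t x} = ∅ := by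
      ext x
      simp only [mem_ofPred_eq, mem_empty_iff_false, iff_false]
      rintro ⟨t, ht⟩
      have h2 : {x | F t x} = univ := by
        ext y
        have : y = x := Subsingleton.elim _ _
        simp [this, ht]
      have h3 := he t
      rw [h2, interior_univ] at h3
      exact (h3 ▸ mem_univ x : x ∈ (∅ : Set (PEmpty → K)))
    rw [this, closure_empty, interior_empty]
  | @h_option γ _ ih => exact sr_step h ih

end Pool.Agent.K3h92.OC
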