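import Mathlib
import Pool.Agent.K3h92.OC.LocC

set_option autoImplicit false
set_option linter.unusedSectionVars false

/-! Existence of scales. -/

namespace Pool.Agent.K3h92.OC.Scl

open FirstOrder FirstOrder.Language Set Filter Topology
open Pool.Agent.K3h92.OC

variable {K : Type} [Field K] [LinearOrder K] [IsStrictOrderedRing K]
variable {L : FirstOrder.Language.{0, 0}} [L.Structure K] [DC L K]
variable [TopologicalSpace K] [OrderTopology K]

theorem nbd {C : Set K} (hC : IsClosed C) {y : K} (hy : y ∉ C) :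
    ∃ δ > 0, ∀ z, |z - y| ≤ δ → z ∉ C := by
  have h1 : ∀ᶠ z in 𝓝 y, z ∉ C := hC.isOpen_compl.mem_nhds hy
  obtain ⟨r, hr, h2⟩ := ev_ball.1 h1
  exact ⟨r / 2, by positivity, fun z hz => h2 z (by linarith)⟩

/-- A wide gap near the origin around `y`. -/
def Wr (C : Set K) (y R : K) : Prop :=
  ∃ a b, a < y ∧ y < b ∧ a < R ∧ -R < b ∧ 1 < R * (b - a) ∧ ∀ z, a ≤ z → z ≤ b → z ∉ C

theorem Wr.nm {C : Set K} {y R : K} (h : Wr C y R) : y ∉ C := by
  obtain ⟨a, b, h1, h2, -, -, -, h3⟩ := h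
  exact h3 y h1.le h2.le

theorem Wr.sat {C : Set K} (hC : IsClosed C) {y y' R : K} (h : Wr C y R)
    (hy : ∀ z ∈ uIcc y y', z ∉ C) : Wr C y' R := by
  obtain ⟨a, b, h1, h2, h3, h4, h5, h6⟩ := h
  obtain ⟨δ, hδ, hb⟩ := nbd hC (hy y' right_mem_uIcc)
  have hab : 0 < b - a := by linarith
  have hR : 0 < R := by
    by_contra hcon
    push Not at hcon
    nlinarith
  refine ⟨min a (y' - δ), max b (y' + δ), ?_, ?_, ?_, ?_, ?_, ?_⟩
  · exact (min_le_right _ _).trans_lt (by linarith)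
  · exact lt_of_lt_of_le (by linarith) (le_max_right _ _)
  · exact (min_le_left _ _).trans_lt h3
  · exact h4.trans_le (le_max_left _ _)
  · have g1 := min_le_left a (y' - δ)
    have g2 := le_max_left b (y' + δ)
    nlinarith
  · intro z hz1 hz2
    by_cases hza : a ≤ z ∧ z ≤ b
    · exact h6 z hza.1 hza.2
    by_cases hzd : |z - y'| ≤ δ
    · exact hb z hzd
    apply hy z
    rw [mem_uIcc]
    by_contra hcon
    push Not at hcon
    rw [not_and_or, not_le, not_le] at hza
    rw [not_le, lt_abs] at hzd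
    rw [min_le_iff] at hz1
    rw [le_max_iff] at hz2
    rcases hza with h | h
    · rcases hz1 with g | g
      · linarith
      · rcases hzd with k | k
        · exact absurd (hcon.2 (by linarith)) (not_lt.2 (by linarith))
        · linarith
    · rcases hz2 with g | g
      · linarith
      · rcases hzd with k | k
        · linarith
        · exact absurd (hcon.1 (by linarith)) (not_lt.2 (by linarith))

theorem exists_Wr {C : Set K} (hC : IsClosed C) {y : K} (hy : y ∉ C) :
    ∃ R₀, ∀ R, R₀ < R → Wr C y R := by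
  obtain ⟨δ, hδ, hb⟩ := nbd hC hy
  refine ⟨max (|y| + δ) (1 / (2 * δ)), fun R hR => ⟨y - δ, y + δ, by linarith, by linarith,
    ?_, ?_, ?_, ?_⟩⟩
  · have := (le_max_left (|y| + δ) (1 / (2 * δ))).trans_lt hR
    have := le_abs_self y
    linarith
  · have := (le_max_left (|y| + δ) (1 / (2 * δ))).trans_lt hR
    have := neg_abs_le y
    linarith
  · have h1 := (le_max_right (|y| + δ) (1 / (2 * δ))).trans_lt hR
    rw [div_lt_iff₀ (by positivity)] at h1
    linarith
  · intro z h1 h2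
    exact hb z (abs_le.2 ⟨by linarith, by linarith⟩)

theorem Wr.df' {α : Type} [Finite α] {C : (α → K) → Set K}
    (hC : Df L (fun w : Option α → K => w none ∈ C (fun i => w (some i))))
    {g k : (α → K) → K} (hg : DfF L g) (hk : DfF L k) : Df L (fun v => Wr (C v) (g v) (k v)) := by
  refine Df.ex1 (Q := fun a (v : α → K) => ∃ b, a < g v ∧ g v < b ∧ a < k v ∧ -k v < b ∧
    1 < k v * (b - a) ∧ ∀ z, a ≤ z → z ≤ b → z ∉ C v) ?_
  refine Df.ex1 (Q := fun b (v : Option α → K) => v none < g (fun i => v (some i)) ∧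
    g (fun i => v (some i)) < b ∧ v none < k (fun i => v (some i)) ∧
    -k (fun i => v (some i)) < b ∧ 1 < k (fun i => v (some i)) * (b - v none) ∧
    ∀ z, v none ≤ z → z ≤ b → z ∉ C (fun i => v (some i))) ?_
  refine (Dlt (Dvar _) (hg.relabel _)).and ((Dlt (hg.relabel _) (Dvar _)).and
    ((Dlt (Dvar _) (hk.relabel _)).and ((Dlt (Dneg (hk.relabel _)) (Dvar _)).and
    ((Dlt (Dconst _) (Dmul (hk.relabel _) (Dsub (Dvar _) (Dvar _)))).and ?_))))
  refine Df.all1 (Q := fun z (v : Option (Option α) → K) => v (some none) ≤ z → z ≤ v none →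
    z ∉ C (fun i => v (some (some i)))) ?_
  refine (Dle (Dvar _) (Dvar _)).imp ((Dle (Dvar _) (Dvar _)).imp (Df.not ?_))
  exact hC.relabel (fun o : Option α => (o.elim none (fun i => some (some (some i))) :
    Option (Option (Option α)))) |>.congr fun w => Iff.rfl

/-- The scale given by a discrete unbounded set. -/
def scD {D : Set K} (hD : D1 L D) (hiso : ∀ t, ∃ ε > 0, ∀ t' ∈ D, |t' - t| < ε → t' = t)
    (hun : ∀ R, ∃ d ∈ D, R < d) : Sc K L where
  D := {d | d ∈ D ∧ 1 ≤ d}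
  W := fun d C => {y | Wr C y d}
  hD := (hD.and (Dle (Dconst 1) (Dvar ())) : Df L (fun v : Unit → K => v () ∈ D ∧ 1 ≤ v ()))
  iso := fun t => by
    obtain ⟨ε, hε, h⟩ := hiso t
    exact ⟨ε, hε, fun t' ht' => h t' ht'.1⟩
  ne := by
    obtain ⟨d, hd, h⟩ := hun 1
    exact ⟨d, hd, h.le⟩
  pos := fun d hd => lt_of_lt_of_le one_pos hd.2
  sub := fun d C y hy => Wr.nm hy
  sat := fun d C y y' hC hy h => Wr.sat hC hy h
  mono := by
    rintro d d' C hdd y ⟨a, b, h1, h2, h3, h4, h5, h6⟩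
    exact ⟨a, b, h1, h2, h3.trans_le hdd, by linarith, by nlinarith, h6⟩
  anti := by
    rintro d C C' hCC y ⟨a, b, h1, h2, h3, h4, h5, h6⟩
    exact ⟨a, b, h1, h2, h3, h4, h5, fun z hz hz' h => h6 z hz hz' (hCC h)⟩
  exh := by
    intro C y hC hy
    obtain ⟨R₀, h⟩ := exists_Wr hC hy
    obtain ⟨d, hd, h2⟩ := hun (max R₀ 1)
    exact ⟨d, ⟨hd, ((le_max_right _ _).trans_lt h2).le⟩, h d ((le_max_left _ _).trans_lt h2)⟩
  df := fun α _ C f g hC hf hg => Wr.df' hC hf hg

/-- The trivial scale. -/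
def sc1 : Sc K L where
  D := {1}
  W := fun _ C => Cᶜ
  hD := Df.congr (Deq (Dvar ()) (Dconst 1)) fun w => Iff.rfl
  iso := fun t => by
    by_cases h : t = 1
    · exact ⟨1, one_pos, fun t' ht' _ => by rw [h]; exact ht'⟩
    · refine ⟨|1 - t|, abs_pos.2 (sub_ne_zero.2 (Ne.symm h)), fun t' ht' h' => ?_⟩
      rw [mem_singleton_iff] at ht'
      rw [ht'] at h'
      exact absurd h' (lt_irrefl _)
  ne := ⟨1, rfl⟩
  pos := fun d hd => by
    rw [mem_singleton_iff] at hd
    rw [hd]; exact one_pos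
  sub := fun d C y hy => hy
  sat := fun d C y y' _ _ h => h y' right_mem_uIcc
  mono := fun d d' C _ => subset_rfl
  anti := fun d C C' h => compl_subset_compl.2 h
  exh := fun C y _ hy => ⟨1, rfl, hy⟩
  df := fun α _ C f g hC hf _ => by
    have h1 : Df L (fun v => f v ∈ C v) := Df.subst (Q := fun y v => y ∈ C v) hC hf
    exact h1.not

/-- Wide gaps are open conditions. -/
theorem Wr.opn {β : Type} [Finite β] {E : (β → K) → Set K} (hE : Nice L E) {x : β → K} {y R : K}
    (h : Wr (E x) y R) : ∀ᶠ p in 𝓝 (x, y), Wr (E p.1) p.2 R := by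
  obtain ⟨a, b, h1, h2, h3, h4, h5, h6⟩ := h
  have g1 : ∀ᶠ y' in 𝓝 y, a < y' := lt_mem_nhds h1
  have g2 : ∀ᶠ y' in 𝓝 y, y' < b := gt_mem_nhds h2
  have g3 : ∀ᶠ x' in 𝓝 x, ∀ z, a ≤ z → z ≤ b → z ∉ E x' := by
    refine dcompact1 (L := L) (P := fun x' z => z ∉ E x') ?_ ?_
    · exact (hE.mem (Dvar _) fun i => Dvar _).not
    · intro z hz hz'
      exact hE.closed.isOpen_compl.mem_nhds (h6 z hz hz')
  rw [nhds_prod_eq]
  filter_upwards [g3.prod_mk (g1.and g2)] with p hp
  exact ⟨a, b, hp.2.1, hp.2.2, h3, h4, h5, hp.1⟩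

theorem isClosed_D {D : Set K} (hiso : ∀ t, ∃ ε > 0, ∀ t' ∈ D, |t' - t| < ε → t' = t) :
    IsClosed D := by
  refine isClosed_of_ball fun x hx => ?_
  obtain ⟨ε, hε, h⟩ := hiso x
  obtain ⟨y, hy, h'⟩ := hx ε hε
  rwa [← h y hy h']

/-- Wide gaps are locally constant off a small set, when there is a discrete scale. -/
theorem exists_Z2 (hNB : NB L K) {β : Type} [Finite β] {E : (β → K) → Set K} (hE : Nice L E)
    {D : Set K} (hDd : D1 L D) (hDi : ∀ t, ∃ ε > 0, ∀ t' ∈ D, |t' - t| < ε → t' = t) :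
    ∃ Z, Small L Z ∧ ∀ x, x ∉ Z → ∀ y, y ∉ E x → ∀ d ∈ D,
      ∀ᶠ p in 𝓝 (x, y), (Wr (E p.1) p.2 d ↔ Wr (E x) y d) := by
  set T : (β → K) → (Fin 2 → K) → Prop := fun x w => ¬ ∃ d, d ∈ D ∧ d < w 1 ∧
    (∀ d', d' ∈ D → d' < w 1 → d' ≤ d) ∧ Wr (E x) (w 0) d with hT
  have hiso : ∀ σ, σ ∉ D → ∀ᶠ σ' in 𝓝 σ, ∀ d ∈ D, (d < σ' ↔ d < σ) := by
    intro σ hσ
    obtain ⟨ε, hε, h⟩ := hDi σ
    refine ev_ball.2 ⟨ε, hε, fun σ' hσ' d hd => ?_⟩
    rw [abs_lt] at hσ'
    have h1 : ¬ |d - σ| < ε := fun h' => hσ (h d hd h' ▸ hd)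
    rw [not_lt, le_abs] at h1
    rcases h1 with h1 | h1
    · constructor <;> intro <;> linarith
    · constructor <;> intro <;> linarith
  obtain ⟨Z, hZ, hZ4⟩ := hNB β (Fin 2) (fun x w => w 0 ∉ E x ∧ w 1 ∉ D) T (by
      refine IsOpen.and ?_ ?_
      · exact hE.closed.isOpen_compl.preimage (by fun_prop :
          Continuous fun p : (β → K) × (Fin 2 → K) => (p.1, p.2 0))
      · exact (isClosed_D hDi).isOpen_compl.preimage (by fun_prop :
          Continuous fun p : (β → K) × (Fin 2 → K) => p.2 1))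
    ((hE.mem (Dvar _) (fun i => Dvar _)).not.and (hDd.mem (Dvar _)).not) (by
      refine Df.not (Df.ex1 (Q := fun d (w : β ⊕ Fin 2 → K) => d ∈ D ∧ d < w (Sum.inr 1) ∧
        (∀ d', d' ∈ D → d' < w (Sum.inr 1) → d' ≤ d) ∧
        Wr (E (fun i => w (Sum.inl i))) (w (Sum.inr 0)) d) ?_)
      refine (hDd.mem (Dvar _)).and ((Dlt (Dvar _) (Dvar _)).and (Df.and ?_
        (Wr.df' (C := fun w : Option (β ⊕ Fin 2) → K => E (fun i => w (some (Sum.inl i))))
          (hE.mem (Dvar _) fun i => Dvar _) (Dvar _) (Dvar _))))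
      refine Df.all1 (Q := fun d' (w : Option (β ⊕ Fin 2) → K) => d' ∈ D →
        d' < w (some (Sum.inr 1)) → d' ≤ w none) ?_
      exact (hDd.mem (Dvar _)).imp ((Dlt (Dvar _) (Dvar _)).imp (Dle (Dvar _) (Dvar _))))
    (by
      rintro x w ⟨hO1, hO2⟩ hnT
      simp only [hT, not_not] at hnT
      obtain ⟨d, hd1, hd2, hd3, hd4⟩ := hnT
      have hc1 : Tendsto (fun p : (β → K) × (Fin 2 → K) => (p.1, p.2 0)) (𝓝 (x, w))
          (𝓝 (x, w 0)) := by
        have : Continuous (fun p : (β → K) × (Fin 2 → K) => (p.1, p.2 0)) := by fun_prop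
        exact this.tendsto _
      have hc2 : Tendsto (fun p : (β → K) × (Fin 2 → K) => p.2 1) (𝓝 (x, w)) (𝓝 (w 1)) := by
        have : Continuous (fun p : (β → K) × (Fin 2 → K) => p.2 1) := by fun_prop
        exact this.tendsto _
      filter_upwards [hc1.eventually (Wr.opn hE hd4), hc2.eventually (hiso _ hO2)] with p h1 h2
      simp only [hT, not_not]
      exact ⟨d, hd1, (h2 d hd1).2 hd2, fun d' h3 h4 => hd3 d' h3 ((h2 d' h3).1 h4), h1⟩)
    (by
      rintro x w ⟨hO1, hO2⟩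
      obtain ⟨δ, hδ, hb⟩ := nbd (hE.fib x) hO1
      have hc2 : Tendsto (fun w' : Fin 2 → K => w' 1) (𝓝 w) (𝓝 (w 1)) :=
        (continuous_apply 1).tendsto _
      have hopen : IsOpen {w' : Fin 2 → K | |w' 0 - w 0| < δ} :=
        isOpen_lt (by fun_prop) continuous_const
      filter_upwards [hc2.eventually (hiso _ hO2), hopen.mem_nhds
        (show w ∈ {w' : Fin 2 → K | |w' 0 - w 0| < δ} by simpa using hδ)] with w' h2 h3
      have h3' : |w' 0 - w 0| < δ := h3
      have hu : ∀ z ∈ uIcc (w 0) (w' 0), z ∉ E x := by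
        intro z hz
        apply hb z
        have := abs_sub_left_of_mem_uIcc hz
        exact this.trans h3'.le
      simp only [hT, not_iff_not]
      constructor
      · rintro ⟨d, hd1, hd2, hd3, hd4⟩
        exact ⟨d, hd1, (h2 d hd1).1 hd2, fun d' h4 h5 => hd3 d' h4 ((h2 d' h4).2 h5),
          hd4.sat (hE.fib x) (by rwa [uIcc_comm])⟩
      · rintro ⟨d, hd1, hd2, hd3, hd4⟩
        exact ⟨d, hd1, (h2 d hd1).2 hd2, fun d' h4 h5 => hd3 d' h4 ((h2 d' h4).1 h5),
          hd4.sat (hE.fib x) hu⟩)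
  refine ⟨Z, hZ, fun x hx y hy d hd => ?_⟩
  obtain ⟨ε, hε, hiso'⟩ := hDi d
  have hσD : d + ε / 2 ∉ D := by
    intro h
    have := hiso' _ h (by rw [abs_lt]; constructor <;> linarith)
    linarith
  have hmax : ∀ d', d' ∈ D → d' < d + ε / 2 → d' ≤ d := by
    intro d' h1 h2
    by_contra hcon
    push Not at hcon
    have := hiso' d' h1 (by rw [abs_lt]; constructor <;> linarith)
    linarith
  have hTd : ∀ x' y', (T x' ![y', d + ε / 2] ↔ ¬ Wr (E x') y' d) := by
    intro x' y'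
    simp only [hT, not_iff_not, Matrix.cons_val_zero, Matrix.cons_val_one]
    constructor
    · rintro ⟨d', h1, h2, h3, h4⟩
      have : d' = d := le_antisymm (hmax d' h1 h2) (h3 d hd (by linarith))
      rwa [this] at h4
    · intro h
      exact ⟨d, hd, by linarith, hmax, h⟩
  have hc : Tendsto (fun p : (β → K) × K => (p.1, ![p.2, d + ε / 2])) (𝓝 (x, y))
      (𝓝 (x, ![y, d + ε / 2])) := by
    have : Continuous (fun p : (β → K) × K => (p.1, ![p.2, d + ε / 2])) := by
      refine continuous_fst.prodMk (continuous_pi fun i => ?_)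
      fin_cases i
      · exact continuous_snd
      · exact continuous_const
    exact this.tendsto _
  filter_upwards [hc.eventually (hZ4 x hx ![y, d + ε / 2] ⟨by simpa using hy,
    by simpa using hσD⟩)] with p hp
  rw [hTd, hTd, not_iff_not] at hp
  exact hp

/-- the bounded representative of a wide gap -/
theorem wr_bd {C : Set K} {y d : K} (hd : 1 ≤ d) (h : Wr C y d) :
    ∃ y', (∀ z ∈ uIcc y y', z ∉ C) ∧ |y'| ≤ d + 1 ∧ ∀ z, |z - y'| < 1 / (2 * d) → z ∉ C := by
  obtain ⟨a, b, h1, h2, h3, h4, h5, h6⟩ := h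
  have hd0 : 0 < d := by linarith
  set η : K := 1 / (2 * d) with hη
  have hη0 : 0 < η := by positivity
  have hη1 : η ≤ 1 / 2 := by
    rw [hη, div_le_div_iff₀ (by positivity) (by norm_num)]
    linarith
  have hab : a + η < b - η := by
    have : η * d = 1 / 2 := by
      rw [hη]; field_simp
    have h7 : (η + η) * d < (b - a) * d := by linarith
    have := lt_of_mul_lt_mul_right h7 hd0.le
    linarith
  obtain ⟨y', hy1, hy2, hy3⟩ : ∃ y', a + η ≤ y' ∧ y' ≤ b - η ∧ |y'| ≤ d + 1 := by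
    rcases le_or_gt 0 (a + η) with h | h
    · refine ⟨a + η, le_rfl, hab.le, ?_⟩
      rw [abs_of_nonneg h]
      linarith
    · rcases le_or_gt (b - η) 0 with h' | h'
      · refine ⟨b - η, hab.le, le_rfl, ?_⟩
        rw [abs_of_nonpos h']
        linarith
      · refine ⟨0, h.le, h'.le, ?_⟩
        rw [abs_zero]
        linarith
  refine ⟨y', fun z hz => ?_, hy3, fun z hz => ?_⟩
  · rw [mem_uIcc] at hz
    rcases hz with hz | hz
    · exact h6 z (by linarith) (by linarith)
    · exact h6 z (by linarith) (by linarith)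
  · rw [abs_lt] at hz
    exact h6 z (by linarith) (by linarith)

/-- the bounded representative of a gap of a separated bounded set -/
theorem sep_bd {C : Set K} (hCd : D1 L C) (hC : IsClosed C) {t : K} (ht : 0 < t)
    (hb : ∀ y ∈ C, |y| ≤ t) (hs : ∀ y ∈ C, ∀ y' ∈ C, y < y' → 1 ≤ t * (y' - y)) {y : K}
    (hy : y ∉ C) :
    ∃ y', (∀ z ∈ uIcc y y', z ∉ C) ∧ |y'| ≤ t + 1 ∧
      ∀ z, |z - y'| < min 1 (1 / (2 * t)) → z ∉ C := by
  have hlt : ∀ z : K, |z| < min 1 (1 / (2 * t)) → |z| < 1 ∧ |z| < 1 / (2 * t) := fun z hz =>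
    ⟨hz.trans_le (min_le_left _ _), hz.trans_le (min_le_right _ _)⟩
  have hmax : (C ∩ Iic y).Nonempty → ∃ a ∈ C, a < y ∧ ∀ z ∈ C, z < y → z ≤ a := by
    intro hne
    obtain ⟨a, ha, ha'⟩ := exists_max (L := L) (S := C ∩ Iic y)
      ((hCd.and (Dle (Dvar ()) (Dconst y)) : Df L (fun v : Unit → K => v () ∈ C ∧ v () ≤ y)))
      (hC.inter isClosed_Iic) hne ⟨y, fun z hz => hz.2⟩
    exact ⟨a, ha.1, lt_of_le_of_ne ha.2 (fun h => hy (h ▸ ha.1)), fun z hz hz' =>
      ha' z ⟨hz, hz'.le⟩⟩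
  have hmin : (C ∩ Ici y).Nonempty → ∃ b ∈ C, y < b ∧ ∀ z ∈ C, y < z → b ≤ z := by
    intro hne
    obtain ⟨a, ha, ha'⟩ := exists_min (L := L) (S := C ∩ Ici y)
      ((hCd.and (Dle (Dconst y) (Dvar ())) : Df L (fun v : Unit → K => v () ∈ C ∧ y ≤ v ())))
      (hC.inter isClosed_Ici) hne ⟨y, fun z hz => hz.2⟩
    exact ⟨a, ha.1, lt_of_le_of_ne ha.2 (fun h => hy (h ▸ ha.1)), fun z hz hz' =>
      ha' z ⟨hz, hz'.le⟩⟩
  by_cases h1 : (C ∩ Iic y).Nonempty
  · obtain ⟨a, haC, hay, ha⟩ := hmax h1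
    have ha0 := abs_le.1 (hb a haC)
    by_cases h2 : (C ∩ Ici y).Nonempty
    · obtain ⟨b, hbC, hyb, hb'⟩ := hmin h2
      have hb0 := abs_le.1 (hb b hbC)
      have hsep := hs a haC b hbC (hay.trans hyb)
      have hgap : ∀ z, a < z → z < b → z ∉ C := by
        intro z hz hz' hzC
        rcases lt_trichotomy z y with h | h | h
        · exact absurd (ha z hzC h) (not_le.2 hz)
        · exact hy (h ▸ hzC)
        · exact absurd (hb' z hzC h) (not_le.2 hz')
      refine ⟨(a + b) / 2, fun z hz => ?_, ?_, fun z hz => ?_⟩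
      · rw [mem_uIcc] at hz
        rcases hz with hz | hz
        · exact hgap z (by linarith) (by linarith)
        · exact hgap z (by linarith) (by linarith)
      · rw [abs_le]; constructor <;> linarith
      · have h3 := (hlt _ hz).2
        rw [lt_div_iff₀ (by positivity)] at h3
        have h4 := neg_abs_le (z - (a + b) / 2)
        have h5 := le_abs_self (z - (a + b) / 2)
        set m := |z - (a + b) / 2| with hm
        have h6 : m < (b - a) / 2 := by
          by_contra hcon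
          push Not at hcon
          nlinarith
        exact hgap z (by linarith) (by linarith)
    · have hgap : ∀ z, a < z → z ∉ C := by
        intro z hz hzC
        rcases lt_or_ge z y with h | h
        · exact absurd (ha z hzC h) (not_le.2 hz)
        · exact h2 ⟨z, hzC, h⟩
      refine ⟨a + 1, fun z hz => ?_, ?_, fun z hz => ?_⟩
      · rw [mem_uIcc] at hz
        rcases hz with hz | hz
        · exact hgap z (by linarith)
        · exact hgap z (by linarith)
      · rw [abs_le]; constructor <;> linarith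
      · have h3 := (abs_lt.1 (hlt _ hz).1).1
        exact hgap z (by linarith)
  · by_cases h2 : (C ∩ Ici y).Nonempty
    · obtain ⟨b, hbC, hyb, hb'⟩ := hmin h2
      have hb0 := abs_le.1 (hb b hbC)
      have hgap : ∀ z, z < b → z ∉ C := by
        intro z hz hzC
        rcases le_or_gt z y with h | h
        · exact h1 ⟨z, hzC, h⟩
        · exact absurd (hb' z hzC h) (not_le.2 hz)
      refine ⟨b - 1, fun z hz => ?_, ?_, fun z hz => ?_⟩
      · rw [mem_uIcc] at hz
        rcases hz with hz | hz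
        · exact hgap z (by linarith)
        · exact hgap z (by linarith)
      · rw [abs_le]; constructor <;> linarith
      · have h3 := (abs_lt.1 (hlt _ hz).1).2
        exact hgap z (by linarith)
    · have hgap : ∀ z, z ∉ C := by
        intro z hzC
        rcases le_or_gt z y with h | h
        · exact h1 ⟨z, hzC, h⟩
        · exact h2 ⟨z, hzC, h.le⟩
      exact ⟨0, fun z _ => hgap z, by rw [abs_zero]; linarith, fun z _ => hgap z⟩

/-- the fibre is bounded by `t` and `1/t`-separated -/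
def Gt {β : Type} (E : (β → K) → Set K) (t : K) (x : β → K) : Prop :=
  0 < t ∧ (∀ y ∈ E x, |y| ≤ t) ∧ ∀ y ∈ E x, ∀ y' ∈ E x, y < y' → 1 ≤ t * (y' - y)

theorem Gt.mono {β : Type} {E : (β → K) → Set K} {t t' : K} {x : β → K} (h : t ≤ t')
    (hx : Gt E t x) : Gt E t' x := by
  obtain ⟨h1, h2, h3⟩ := hx
  refine ⟨h1.trans_le h, fun y hy => (h2 y hy).trans h, fun y hy y' hy' hlt => ?_⟩
  have := h3 y hy y' hy' hlt
  nlinarith

theorem df_Gt {β : Type} [Finite β] {E : (β → K) → Set K} (hE : Nice L E) {γ : Type} [Finite γ]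
    {f : (γ → K) → K} {g : β → (γ → K) → K} (hf : DfF L f) (hg : ∀ i, DfF L (g i)) :
    Df L (fun w => Gt E (f w) (fun i => g i w)) := by
  refine (Dlt (Dconst _) hf).and (Df.and ?_ ?_)
  · refine Df.all1 (Q := fun y (w : γ → K) => y ∈ E (fun i => g i w) → |y| ≤ f w) ?_
    exact (hE.mem (Dvar _) fun i => (hg i).relabel _).imp (Dle (Dabs (Dvar _)) (hf.relabel _))
  · refine Df.all1 (Q := fun y (w : γ → K) => y ∈ E (fun i => g i w) → ∀ y' ∈ E (fun i => g i w),
      y < y' → 1 ≤ f w * (y' - y)) ?_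
    refine (hE.mem (Dvar _) fun i => (hg i).relabel _).imp ?_
    refine Df.all1 (Q := fun y' (w : Option γ → K) => y' ∈ E (fun i => g i (fun i => w (some i))) →
      w none < y' → 1 ≤ f (fun i => w (some i)) * (y' - w none)) ?_
    exact (hE.mem (Dvar _) fun i => (hg i).relabel _).imp ((Dlt (Dvar _) (Dvar _)).imp
      (Dle (Dconst _) (Dmul (hf.relabel _) (Dsub (Dvar _) (Dvar _)))))

end Pool.Agent.K3h92.OC.Scl

namespace Pool.Agent.K3h92.OC

open FirstOrder FirstOrder.Language Set Filter Topology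

variable {K : Type} [Field K] [LinearOrder K] [IsStrictOrderedRing K]
variable {L : FirstOrder.Language.{0, 0}} [L.Structure K] [DC L K]
variable [TopologicalSpace K] [OrderTopology K]

open Scl in
theorem tame_hasD (hNB : NB L K) (hT : T01 L K) (hD : HasD L K) : ∃ S : Sc K L, TameFor S := by
  obtain ⟨D, hDd, hiso, hun⟩ := hD
  refine ⟨scD hDd hiso hun, ?_⟩
  intro β _ E hE
  obtain ⟨Z, hZ, h1⟩ := hT β E hE
  obtain ⟨Z', hZ', h2⟩ := exists_Z2 hNB hE hDd hiso
  refine ⟨Z ∪ Z', hZ.union hZ', fun x hx => ?_⟩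
  obtain ⟨h3, h4⟩ := h1 x fun h => hx (Or.inl h)
  refine ⟨h3, h4, ?_, ?_⟩
  · intro d hd y hy
    exact h2 x (fun h => hx (Or.inr h)) y hy d hd.1
  · intro d hd
    have hd1 : 1 ≤ d := hd.2
    refine ⟨1 / (2 * d), by positivity, d + 1, Eventually.of_forall fun x' y hy => ?_⟩
    exact wr_bd hd.2 hy

open Scl in
theorem tame_fine (hSR : ∀ (β : Type) [Finite β], SR L K β) (hT : T01 L K) (hf : Fine L K) :
    ∃ S : Sc K L, TameFor S := by
  refine ⟨sc1, ?_⟩
  intro β _ E hE
  obtain ⟨Z, hZ, h1⟩ := hT β E hE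
  set Z3 : Set (β → K) := {x | ¬ ∃ t, x ∈ interior {x' | Gt E t x'}} with hZ3
  have hGt : ∀ x, x ∉ Z → ∃ t, Gt E t x := by
    intro x hx
    obtain ⟨t, ht, h2, h3⟩ := hf (E x) (hE.mem (Dvar ()) fun i => Dconst (x i)) (hE.fib x) (h1 x hx).1
    exact ⟨t, ht, h2, h3⟩
  have hZ3c : IsClosed Z3 := by
    rw [← isOpen_compl_iff]
    have : Z3ᶜ = ⋃ t, interior {x' | Gt E t x'} := by
      ext x
      simp [hZ3]
    rw [this]
    exact isOpen_iUnion fun t => isOpen_interior
  have hZ3d : Df L (fun x => x ∈ Z3) := by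
    have h2 : Df L (fun x : β → K => ¬ ∃ t, ∃ r, 0 < r ∧ ∀ x' : β → K, (∀ i, |x' i - x i| < r) →
        Gt E t x') := by
      refine Df.not (Df.ex1 (Q := fun t (x : β → K) => ∃ r, 0 < r ∧ ∀ x' : β → K,
        (∀ i, |x' i - x i| < r) → Gt E t x') ?_)
      refine Df.ex1 (Q := fun r (w : Option β → K) => 0 < r ∧ ∀ x' : β → K,
        (∀ i, |x' i - w (some i)| < r) → Gt E (w none) x') ?_
      refine (Dlt (Dconst _) (Dvar _)).and ?_
      refine Df.allT (Q := fun (x' : β → K) (w : Option (Option β) → K) =>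
        (∀ i, |x' i - w (some (some i))| < w none) → Gt E (w (some none)) x') ?_
      refine Df.imp (Df.all_fin fun i => Dlt (Dabs (Dsub (Dvar _) (Dvar _))) (Dvar _)) ?_
      exact df_Gt hE (Dvar _) fun i => Dvar _
    refine h2.congr fun x => ?_
    simp only [hZ3, mem_ofPred_eq]
    refine not_congr (exists_congr fun t => ?_)
    rw [mem_interior_iff_mem_nhds]
    exact (ev_box (x := x) (P := fun x' => Gt E t x')).symm
  have hZ3i : interior Z3 = ∅ := by
    by_contra hne
    have hne' : (interior Z3 \ Z).Nonempty := by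
      by_contra hcon
      have hsub : interior Z3 ⊆ Z := by
        intro x hx
        by_contra hxZ
        exact hcon ⟨x, hx, hxZ⟩
      have := interior_maximal hsub isOpen_interior
      rw [hZ.int] at this
      exact hne (subset_empty_iff.1 this)
    obtain ⟨x₁, hx₁⟩ := hne'
    have ho : IsOpen (interior Z3 \ Z) := isOpen_interior.sdiff hZ.closed
    obtain ⟨r, hr, hbox⟩ := ev_box.1 (ho.mem_nhds hx₁)
    have hB : ∀ x : β → K, (∀ i, |x i - x₁ i| ≤ r / 2) → x ∈ interior Z3 \ Z := fun x hx =>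
      hbox x fun i => (hx i).trans_lt (by linarith)
    have key := hSR β (fun t x => (∀ i, |x i - x₁ i| ≤ r / 2) ∧ Gt E t x) ?_ ?_ ?_ ?_
    · have h2 : {x : β → K | ∀ i, |x i - x₁ i| < r / 2} ⊆
          {x | ∃ t, (∀ i, |x i - x₁ i| ≤ r / 2) ∧ Gt E t x} := by
        intro x hx
        have hx' : ∀ i, |x i - x₁ i| ≤ r / 2 := fun i => (hx i).le
        obtain ⟨t, ht⟩ := hGt x (hB x hx').2
        exact ⟨t, hx', ht⟩
      have h3 := interior_maximal (h2.trans subset_closure) (isOpen_box x₁ (r / 2))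
      rw [key] at h3
      exact h3 (show x₁ ∈ {x : β → K | ∀ i, |x i - x₁ i| < r / 2} from fun i => by
        simpa using hr)
    · refine Df.and ?_ (df_Gt hE (Dvar _) fun i => Dvar _)
      exact Df.all_fin fun i => Dle (Dabs (Dsub (Dvar _) (Dconst _))) (Dconst _)
    · intro t
      rw [← closure_subset_iff_isClosed]
      intro x hx
      have hxB : ∀ i, |x i - x₁ i| ≤ r / 2 := by
        have h2 : closure {x | (∀ i, |x i - x₁ i| ≤ r / 2) ∧ Gt E t x} ⊆
            {x : β → K | ∀ i, |x i - x₁ i| ≤ r / 2} :=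
          closure_minimal (fun x hx => hx.1) (isClosed_box x₁ (r / 2))
        exact h2 hx
      have hxZ := (hB x hxB).2
      have hlsc := (h1 x hxZ).2
      have hfr := mem_closure_iff_frequently.1 hx
      obtain ⟨x', -, ht, -⟩ := hfr.exists
      refine ⟨hxB, ht, fun y hy => ?_, fun y hy y' hy' hlt => ?_⟩
      · by_contra hcon
        push Not at hcon
        obtain ⟨x'', ⟨-, -, h3, -⟩, z, hz, hz'⟩ :=
          (hfr.and_eventually (hlsc y hy (|y| - t) (by linarith))).exists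
        have h4 := h3 z hz
        have h5 := abs_sub_abs_le_abs_sub y z
        rw [abs_sub_comm] at h5
        linarith
      · by_contra hcon
        push Not at hcon
        set ε := min ((y' - y) / 3) ((1 - t * (y' - y)) / (3 * t)) with hε
        have hε0 : 0 < ε := lt_min (by linarith) (div_pos (by linarith) (by positivity))
        have hε1 : ε ≤ (y' - y) / 3 := min_le_left _ _
        have hε2 : ε * (3 * t) ≤ 1 - t * (y' - y) := by
          rw [← le_div_iff₀ (by positivity)]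
          exact min_le_right _ _
        obtain ⟨x'', ⟨-, -, -, h3⟩, ⟨z, hz, hz'⟩, z', hz1, hz1'⟩ :=
          (hfr.and_eventually ((hlsc y hy ε hε0).and (hlsc y' hy' ε hε0))).exists
        rw [abs_lt] at hz' hz1'
        have h4 := h3 z hz z' hz1 (by linarith)
        nlinarith
    · rintro t t' x htt ⟨h2, h3⟩
      exact ⟨h2, h3.mono htt⟩
    · intro t
      rw [← subset_empty_iff]
      intro x hx
      have hx1 := interior_subset hx
      have hx2 := interior_subset (hB x hx1.1).1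
      apply hx2
      exact ⟨t, interior_mono (fun x' hx' => hx'.2) hx⟩
  have hZ3s : Small L Z3 := ⟨hZ3c, hZ3i, hZ3d⟩
  refine ⟨Z ∪ Z3, hZ.union hZ3s, fun x hx => ?_⟩
  obtain ⟨h3, h4⟩ := h1 x fun h => hx (Or.inl h)
  have hx3 : ∃ t, x ∈ interior {x' | Gt E t x'} := by
    by_contra hcon
    exact hx (Or.inr hcon)
  obtain ⟨t, ht⟩ := hx3
  have hev : ∀ᶠ x' in 𝓝 x, Gt E t x' := mem_interior_iff_mem_nhds.1 ht
  have ht0 : 0 < t := hev.self_of_nhds.1
  refine ⟨h3, h4, ?_, ?_⟩
  · intro d _ y hy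
    have h5 : ∀ᶠ p in 𝓝 (x, y), p ∉ {p : (β → K) × K | p.2 ∈ E p.1} :=
      hE.closed.isOpen_compl.mem_nhds hy
    filter_upwards [h5] with p hp
    exact ⟨fun _ => hy, fun _ => hp⟩
  · intro d _
    refine ⟨min 1 (1 / (2 * t)), lt_min one_pos (by positivity), t + 1, ?_⟩
    filter_upwards [hev] with x' hx' y hy
    exact sep_bd (L := L) (hE.mem (Dvar ()) fun i => Dconst (x' i)) (hE.fib x') ht0 hx'.2.1
      hx'.2.2 hy

end Pool.Agent.K3h92.OC
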