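import Mathlib
import Pool.Agent.K3h92.OC.LocC
import Pool.Agent.K3h92.OC.Sel

set_option autoImplicit false

/-! `TAz` and `T01`: fibres of nice families off a small set. -/

namespace Pool.Agent.K3h92.OC

open FirstOrder FirstOrder.Language Set Filter Topology

variable {K : Type} [Field K] [LinearOrder K] [IsStrictOrderedRing K] [TopologicalSpace K]
  [OrderTopology K]
variable {L : FirstOrder.Language.{0, 0}} [L.Structure K] [DC L K]

namespace TmP

omit [DC L K] [LinearOrder K] [IsStrictOrderedRing K] [OrderTopology K] [Field K] in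
theorem ev {β : Type} {E : (β → K) → Set K} [Field K] [LinearOrder K] [IsStrictOrderedRing K]
    (hE : Nice L E) {x : β → K} {y : K} (h : y ∉ E x) :
    ∀ᶠ p in 𝓝 (x, y), p.2 ∉ E p.1 := hE.closed.isOpen_compl.mem_nhds h

omit [DC L K] in
theorem nbd {β : Type} {E : (β → K) → Set K} (hE : Nice L E) {x : β → K} {y : K} (h : y ∉ E x) :
    ∃ δ > 0, ∀ y', |y' - y| < δ → y' ∉ E x := by
  have hc : IsClosed (E x) := hE.closed.preimage (by fun_prop : Continuous fun y : K => (x, y))
  obtain ⟨δ, hδ, hb⟩ := (nhds_ball y).mem_iff.1 (hc.isOpen_compl.mem_nhds h)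
  exact ⟨δ, hδ, fun y' hy' => hb hy'⟩

end TmP

theorem df_closureT {β : Type} [Finite β] {P : (β → K) → Prop} (hP : Df L P) :
    Df L (fun x : β → K => x ∈ closure {x | P x}) := by
  have hP' : ∀ {α : Type} [Finite α] {f : β → (α → K) → K}, (∀ i, DfF L (f i)) →
      Df L (fun v => P (fun i => f i v)) := by
    intro α _ f hf
    exact Df.substT hP hf
  have h1 : Df L (fun x : β → K => ∀ ε, 0 < ε → ∃ y : β → K, P y ∧ ∀ i, |y i - x i| < ε) := by
    (repeat' (intros; beta_reduce; first | apply (hP') | exact Dvar _ | exact Dconst _ | assumption | apply Dadd | apply Dsub | apply Dmul | apply Dneg | apply Dabs | apply Dlt | apply Dle | apply Deq | apply Df.and | apply Df.or | apply Df.not | apply Df.iff | apply Df.imp | apply Df.ex1 | apply Df.all1 | apply Df.exT | apply Df.allT | apply Df.all_fin | apply Df.ex_fin | exact Df.const _))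
  exact h1.congr fun x => mem_closure_box.symm

/-- Fibres have empty interior off a small set. -/
theorem exists_Z0 {β : Type} [Finite β] (h : SR L K β) {E : (β → K) → Set K} (hE : Nice L E) :
    ∃ Z, Small L Z ∧ ∀ x, x ∉ Z → interior (E x) = ∅ := by
  set S : K → (β → K) → Prop := fun t x => 0 < t ∧ ∃ a, -t ≤ a ∧ a ≤ t ∧
    ∀ s, 0 ≤ s → t * s ≤ 1 → a + s ∈ E x with hS
  have hEm : ∀ {γ : Type} [Finite γ] {f : (γ → K) → K} {g : β → (γ → K) → K}, DfF L f →
      (∀ i, DfF L (g i)) → Df L (fun v => f v ∈ E (fun i => g i v)) := fun hf hg => hE.mem hf hg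
  have hSd : Df L (fun w : Option β → K => S (w none) (fun i => w (some i))) := by
    show Df L (fun w : Option β → K => 0 < w none ∧ ∃ a, -w none ≤ a ∧ a ≤ w none ∧
      ∀ s, 0 ≤ s → w none * s ≤ 1 → a + s ∈ E (fun i => w (some i)))
    (repeat' (intros; beta_reduce; first | apply (hEm) | exact Dvar _ | exact Dconst _ | assumption | apply Dadd | apply Dsub | apply Dmul | apply Dneg | apply Dabs | apply Dlt | apply Dle | apply Deq | apply Df.and | apply Df.or | apply Df.not | apply Df.iff | apply Df.imp | apply Df.ex1 | apply Df.all1 | apply Df.exT | apply Df.allT | apply Df.all_fin | apply Df.ex_fin | exact Df.const _))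
  have hYc : ∀ t : K, IsClosed {p : (β → K) × K | ∀ s, 0 ≤ s → t * s ≤ 1 → p.2 + s ∈ E p.1} := by
    intro t
    refine isClosed_all fun s => ?_
    by_cases h1 : 0 ≤ s
    · by_cases h2 : t * s ≤ 1
      · have : IsClosed {p : (β → K) × K | p.2 + s ∈ E p.1} :=
          hE.closed.preimage (by fun_prop : Continuous fun p : (β → K) × K => (p.1, p.2 + s))
        simpa [h1, h2] using this
      · simp [h2]
    · simp [h1]
  have hSc : ∀ t, IsClosed {x | S t x} := by
    intro t
    by_cases ht : 0 < t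
    · have h1 := proj_closed1 (L := L) (Y := fun (x : β → K) a =>
        ∀ s, 0 ≤ s → t * s ≤ 1 → a + s ∈ E x) (by (repeat' (intros; beta_reduce; first | apply (hEm) | exact Dvar _ | exact Dconst _ | assumption | apply Dadd | apply Dsub | apply Dmul | apply Dneg | apply Dabs | apply Dlt | apply Dle | apply Deq | apply Df.and | apply Df.or | apply Df.not | apply Df.iff | apply Df.imp | apply Df.ex1 | apply Df.all1 | apply Df.exT | apply Df.allT | apply Df.all_fin | apply Df.ex_fin | exact Df.const _))) (hYc t) (-t) t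
      simpa [hS, ht] using h1
    · simp [hS, ht]
  have hSm : ∀ t t' x, t ≤ t' → S t x → S t' x := by
    rintro t t' x htt' ⟨ht, a, ha1, ha2, ha3⟩
    refine ⟨ht.trans_le htt', a, by linarith, by linarith, fun s hs1 hs2 => ha3 s hs1 ?_⟩
    exact (mul_le_mul_of_nonneg_right htt' hs1).trans hs2
  have hSi : ∀ t, interior {x | S t x} = ∅ := by
    intro t
    by_contra hne
    obtain ⟨x0, hx0⟩ := nonempty_iff_ne_empty.2 hne
    have ht : 0 < t := (interior_subset (s := {x | S t x}) hx0 : S t x0).1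
    obtain ⟨U', hU'1, hU'2, hU'3, m, hm⟩ := sel (L := L) (β := β) (γ := Unit)
      (C := fun x w => ∀ s, 0 ≤ s → t * s ≤ 1 → w () + s ∈ E x)
      ((hYc t).preimage (by fun_prop : Continuous fun p : (β → K) × (Unit → K) => (p.1, p.2 ())))
      (by (repeat' (intros; beta_reduce; first | apply (hEm) | exact Dvar _ | exact Dconst _ | assumption | apply Dadd | apply Dsub | apply Dmul | apply Dneg | apply Dabs | apply Dlt | apply Dle | apply Deq | apply Df.and | apply Df.or | apply Df.not | apply Df.iff | apply Df.imp | apply Df.ex1 | apply Df.all1 | apply Df.exT | apply Df.allT | apply Df.all_fin | apply Df.ex_fin | exact Df.const _))) t (ε := 1 / (4 * t)) (by positivity) (isOpen_interior (s := {x | S t x}))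
      ⟨x0, hx0⟩ (by
        intro x hx
        obtain ⟨-, a, ha1, ha2, ha3⟩ := (interior_subset (s := {x | S t x}) hx : S t x)
        exact ⟨fun _ => a, fun _ => abs_le.2 ⟨ha1, ha2⟩, ha3⟩)
    obtain ⟨x1, hx1⟩ := hU'3
    have hV : IsOpen {v : (β → K) × K | v.1 ∈ U' ∧ (m () + 1 / (4 * t) < v.2 ∧
        v.2 < m () + 3 / (4 * t))} := by
      refine (hU'2.preimage continuous_fst).inter ?_
      exact (isOpen_lt continuous_const continuous_snd).inter
        (isOpen_lt continuous_snd continuous_const)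
    have hVA := interior_maximal (s := {p : (β → K) × K | p.2 ∈ E p.1}) (fun v hv => by
      obtain ⟨w, -, hw2, hw3⟩ := hm v.1 hv.1
      have h3 := abs_le.1 (hw2 ())
      have h4 := hw3 (v.2 - w ()) (by linarith [hv.2.1]) (by
        have h5 : v.2 - w () ≤ 1 / t := by
          have e1 : 1 / t = 3 / (4 * t) + 1 / (4 * t) := by field_simp; norm_num
          rw [e1]; linarith [hv.2.2]
        calc t * (v.2 - w ()) ≤ t * (1 / t) := mul_le_mul_of_nonneg_left h5 ht.le
          _ = 1 := by field_simp)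
      have h6 : w () + (v.2 - w ()) = v.2 := by ring
      rw [h6] at h4
      exact h4) hV
    rw [hE.nd] at hVA
    have h7 : 1 / (4 * t) < 3 / (4 * t) := by
      apply div_lt_div_of_pos_right _ (by positivity)
      norm_num
    exact hVA (show (x1, m () + (1 / (4 * t) + 3 / (4 * t)) / 2) ∈ {v : (β → K) × K | v.1 ∈ U' ∧
      (m () + 1 / (4 * t) < v.2 ∧ v.2 < m () + 3 / (4 * t))} from
        ⟨hx1, by show m () + 1 / (4 * t) < m () + (1 / (4 * t) + 3 / (4 * t)) / 2; linarith,
          by show m () + (1 / (4 * t) + 3 / (4 * t)) / 2 < m () + 3 / (4 * t); linarith⟩)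
  refine ⟨closure {x | ∃ t, S t x}, ⟨isClosed_closure, h S hSd hSc hSm hSi, ?_⟩, ?_⟩
  · refine df_closureT (P := fun x => ∃ t, S t x) ?_
    exact Df.ex1 (Q := fun t x => S t x) hSd
  · intro x hx
    by_contra hne
    obtain ⟨y, hy⟩ := nonempty_iff_ne_empty.2 hne
    obtain ⟨r, hr, hb⟩ := (nhds_ball y).mem_iff.1 (isOpen_interior.mem_nhds hy)
    have ht1 : |y| ≤ max |y| (1 / r) := le_max_left _ _
    have ht2 : 1 / r ≤ max |y| (1 / r) := le_max_right _ _
    have h1r : 0 < 1 / r := by positivity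
    have hy' := abs_le.1 ht1
    refine hx (subset_closure ⟨max |y| (1 / r) + 1, by linarith, y, by linarith [hy'.1],
      by linarith [hy'.2], fun s hs1 hs2 => ?_⟩)
    refine interior_subset (hb (show |y + s - y| < r from ?_))
    rw [add_sub_cancel_left, abs_of_nonneg hs1]
    by_contra hcon
    have h3 := not_lt.1 hcon
    have h4 : (max |y| (1 / r) + 1) * r ≤ (max |y| (1 / r) + 1) * s :=
      mul_le_mul_of_nonneg_left h3 (by linarith)
    have h5 : 1 / r * r = 1 := by field_simp
    have h6 : (1 / r) * r ≤ max |y| (1 / r) * r := mul_le_mul_of_nonneg_right ht2 hr.le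
    linarith

theorem exists_ZA {β : Type} [Finite β] (h' : NB L K) {E : (β → K) → Set K} (hE : Nice L E)
    {α : Type} [Finite α] {A : (α → K) → Prop} (hA : IsClosed {v | A v}) (hAd : Df L A) :
    ∃ Z, Small L Z ∧ ∀ x, x ∉ Z → ∀ u v : α → K, (∀ a, u a ∉ E x ∧ v a ∉ E x) →
      ∀ᶠ p in 𝓝 (x, (u, v)), (TA A E p.1 p.2.1 p.2.2 ↔ TA A E x u v) := by
  refine Exists.elim (h' β (α ⊕ α)
    (fun x w => ∀ a, w (Sum.inl a) ∉ E x ∧ w (Sum.inr a) ∉ E x)
    (fun x w => TA A E x (fun a => w (Sum.inl a)) (fun a => w (Sum.inr a)))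
    ?_ ?_ ?_ ?_ ?_) ?_
  · refine isOpen_all_fin fun a => IsOpen.and ?_ ?_
    · exact hE.closed.isOpen_compl.preimage (by fun_prop :
        Continuous fun p : (β → K) × (α ⊕ α → K) => (p.1, p.2 (Sum.inl a)))
    · exact hE.closed.isOpen_compl.preimage (by fun_prop :
        Continuous fun p : (β → K) × (α ⊕ α → K) => (p.1, p.2 (Sum.inr a)))
  · refine Df.all_fin fun a => Df.and ?_ ?_
    · exact (hE.mem (Dvar _) (fun i => Dvar _)).not
    · exact (hE.mem (Dvar _) (fun i => Dvar _)).not
  · refine Df.exT (Q := fun e (w : β ⊕ (α ⊕ α) → K) => A e ∧ ∀ a,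
      e a ∈ E (fun i => w (Sum.inl i)) ∧ w (Sum.inr (Sum.inl a)) < e a ∧
        e a < w (Sum.inr (Sum.inr a))) ?_
    refine (hAd.relabel Sum.inr).and (Df.all_fin fun a => Df.and ?_ (Df.and ?_ ?_))
    · exact hE.mem (Dvar _) (fun i => Dvar _)
    · exact Dlt (Dvar _) (Dvar _)
    · exact Dlt (Dvar _) (Dvar _)
  · intro x w hO hnT
    -- definable compactness
    obtain ⟨M, hM⟩ := Finite.exists_le (fun j : α ⊕ α => |w j|)
    have h1 := dcompact (L := L) (β := β ⊕ (α ⊕ α)) (γ := α) (x₀ := Sum.elim x w)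
      (P := fun (p : β ⊕ (α ⊕ α) → K) e => ¬ (A e ∧ ∀ a, e a ∈ E (fun i => p (Sum.inl i)) ∧
        p (Sum.inr (Sum.inl a)) < e a ∧ e a < p (Sum.inr (Sum.inr a)))) (t := M + 1) (by
        refine Df.not ((hAd.relabel Sum.inr).and (Df.all_fin fun a => Df.and ?_ (Df.and ?_ ?_)))
        · exact hE.mem (Dvar _) (fun i => Dvar _)
        · exact Dlt (Dvar _) (Dvar _)
        · exact Dlt (Dvar _) (Dvar _)) (by
      intro e _
      by_cases hAe : A e
      · have : ∃ a, ¬ (e a ∈ E x ∧ w (Sum.inl a) < e a ∧ e a < w (Sum.inr a)) := by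
          by_contra hcon
          push Not at hcon
          exact hnT ⟨e, hAe, hcon⟩
        obtain ⟨a, ha⟩ := this
        by_cases hEe : e a ∈ E x
        · have h2 : e a ≠ w (Sum.inl a) := fun h => (hO a).1 (h ▸ hEe)
          have h3 : e a ≠ w (Sum.inr a) := fun h => (hO a).2 (h ▸ hEe)
          rcases lt_or_gt_of_ne h2 with h4 | h4
          · have hopen : IsOpen {z : (β ⊕ (α ⊕ α) → K) × (α → K) |
                z.2 a < z.1 (Sum.inr (Sum.inl a))} := isOpen_lt (by fun_prop) (by fun_prop)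
            filter_upwards [hopen.mem_nhds (show (Sum.elim x w, e) ∈ {z : (β ⊕ (α ⊕ α) → K) ×
              (α → K) | z.2 a < z.1 (Sum.inr (Sum.inl a))} from h4)] with z hz hz'
            exact absurd (hz'.2 a).2.1 (not_lt.2 (le_of_lt hz))
          · rcases lt_or_gt_of_ne h3 with h5 | h5
            · exact absurd ⟨hEe, h4, h5⟩ ha
            · have hopen : IsOpen {z : (β ⊕ (α ⊕ α) → K) × (α → K) |
                  z.1 (Sum.inr (Sum.inr a)) < z.2 a} := isOpen_lt (by fun_prop) (by fun_prop)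
              filter_upwards [hopen.mem_nhds (show (Sum.elim x w, e) ∈ {z : (β ⊕ (α ⊕ α) → K) ×
                (α → K) | z.1 (Sum.inr (Sum.inr a)) < z.2 a} from h5)] with z hz hz'
              exact absurd (hz'.2 a).2.2 (not_lt.2 (le_of_lt hz))
        · have hc : Continuous (fun z : (β ⊕ (α ⊕ α) → K) × (α → K) =>
              ((fun i => z.1 (Sum.inl i)), z.2 a)) := by fun_prop
          have h6 : ∀ᶠ p in 𝓝 (x, e a), p.2 ∉ E p.1 := hE.closed.isOpen_compl.mem_nhds hEe
          have h7 : Tendsto (fun z : (β ⊕ (α ⊕ α) → K) × (α → K) =>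
              ((fun i => z.1 (Sum.inl i)), z.2 a)) (𝓝 (Sum.elim x w, e)) (𝓝 (x, e a)) :=
            hc.tendsto (Sum.elim x w, e)
          filter_upwards [h7.eventually h6] with z hz hz'
          exact hz (hz'.2 a).1
      · have hopen : IsOpen {z : (β ⊕ (α ⊕ α) → K) × (α → K) | ¬ A z.2} :=
          hA.isOpen_compl.preimage (by fun_prop :
            Continuous fun z : (β ⊕ (α ⊕ α) → K) × (α → K) => z.2)
        filter_upwards [hopen.mem_nhds (show (Sum.elim x w, e) ∈ {z : (β ⊕ (α ⊕ α) → K) ×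
          (α → K) | ¬ A z.2} from hAe)] with z hz hz'
        exact hz hz'.1)
    have hc2 : Tendsto (fun p : (β → K) × (α ⊕ α → K) => (Sum.elim p.1 p.2 : β ⊕ (α ⊕ α) → K))
        (𝓝 (x, w)) (𝓝 (Sum.elim x w)) := by
      have : Continuous (fun p : (β → K) × (α ⊕ α → K) =>
          (Sum.elim p.1 p.2 : β ⊕ (α ⊕ α) → K)) := by
        refine continuous_pi ?_
        rintro (i | j)
        · exact (continuous_apply i).comp continuous_fst
        · exact (continuous_apply j).comp continuous_snd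
      exact this.tendsto _
    have h2 : ∀ᶠ p : (β → K) × (α ⊕ α → K) in 𝓝 (x, w), ∀ j, |p.2 j - w j| ≤ 1 :=
      ev_box2.2 ⟨1, one_pos, fun _ w' _ h j => (h j).le⟩
    filter_upwards [hc2.eventually h1, h2] with p g1 g2
    rintro ⟨e, he1, he2⟩
    refine g1 e ?_ ⟨he1, he2⟩
    intro a
    have g3 := abs_le.1 (g2 (Sum.inl a))
    have g4 := abs_le.1 (g2 (Sum.inr a))
    have g5 := he2 a
    have g6 := abs_le.1 (hM (Sum.inl a))
    have g7 := abs_le.1 (hM (Sum.inr a))
    exact abs_le.2 ⟨by linarith [g5.2.1], by linarith [g5.2.2]⟩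
  · intro x w hO
    have h1 : ∀ j, ∀ᶠ w' in 𝓝 w, ∀ z ∈ E x, (z < w' j ↔ z < w j) ∧ (w' j < z ↔ w j < z) := by
      intro j
      have hj : w j ∉ E x := by
        rcases j with a | a
        · exact (hO a).1
        · exact (hO a).2
      obtain ⟨δ, hδ, hb⟩ := TmP.nbd hE hj
      have hopen : IsOpen {w' : α ⊕ α → K | |w' j - w j| < δ} :=
        isOpen_lt (by fun_prop) continuous_const
      filter_upwards [hopen.mem_nhds (show w ∈ {w' : α ⊕ α → K | |w' j - w j| < δ} by
        simpa using hδ)] with w' hw' z hz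
      have hw'' := abs_lt.1 (show |w' j - w j| < δ from hw')
      have hzn : δ ≤ |z - w j| := by
        by_contra hcon
        exact hb z (not_le.1 hcon) hz
      rcases le_abs.1 hzn with h | h
      · constructor <;> constructor <;> intro <;> linarith
      · constructor <;> constructor <;> intro <;> linarith
    filter_upwards [eventually_all.2 h1] with w' hw'
    constructor
    · rintro ⟨e, h2, h3⟩
      refine ⟨e, h2, fun a => ⟨(h3 a).1, ?_, ?_⟩⟩
      · exact (hw' (Sum.inl a) (e a) (h3 a).1).2.1 (h3 a).2.1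
      · exact (hw' (Sum.inr a) (e a) (h3 a).1).1.1 (h3 a).2.2
    · rintro ⟨e, h2, h3⟩
      refine ⟨e, h2, fun a => ⟨(h3 a).1, ?_, ?_⟩⟩
      · exact (hw' (Sum.inl a) (e a) (h3 a).1).2.2 (h3 a).2.1
      · exact (hw' (Sum.inr a) (e a) (h3 a).1).1.2 (h3 a).2.2
  · rintro Z ⟨hZ, hZ4⟩
    refine ⟨Z, hZ, fun x hx u v huv => ?_⟩
    have h1 := hZ4 x hx (Sum.elim u v) huv
    have hc : Tendsto (fun p : (β → K) × (α → K) × (α → K) =>
        (p.1, (Sum.elim p.2.1 p.2.2 : α ⊕ α → K)))
        (𝓝 (x, (u, v))) (𝓝 (x, Sum.elim u v)) := by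
      have : Continuous (fun p : (β → K) × (α → K) × (α → K) =>
          (p.1, (Sum.elim p.2.1 p.2.2 : α ⊕ α → K))) := by
        refine continuous_fst.prodMk (continuous_pi ?_)
        rintro (a | a)
        · exact (continuous_apply a).comp (continuous_fst.comp continuous_snd)
        · exact (continuous_apply a).comp (continuous_snd.comp continuous_snd)
      exact this.tendsto _
    exact hc.eventually h1

theorem taz_of (h' : NB L K) : TAz L K := by
  intro α β _ _ E hE A hA hAd
  exact exists_ZA h' hE hA hAd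

theorem t01_of (h : ∀ (β : Type) [Finite β], SR L K β) (h' : NB L K) : T01 L K := by
  intro β _ E hE
  obtain ⟨Z₀, hZ₀, h0⟩ := exists_Z0 (h β) hE
  obtain ⟨Z₁, hZ₁, h1⟩ := exists_ZA h' hE (α := Unit) (A := fun _ => True) isClosed_univ
    (Df.const True)
  refine ⟨Z₀ ∪ Z₁, hZ₀.union hZ₁, fun x hx => ?_⟩
  rw [mem_union, not_or] at hx
  refine ⟨h0 x hx.1, fun y hy ε hε => ?_⟩
  obtain ⟨u, hu1, hu2, hu⟩ := exists_notMem_of_interior (h0 x hx.1) (show y - ε < y by linarith)
  obtain ⟨v, hv1, hv2, hv⟩ := exists_notMem_of_interior (h0 x hx.1) (show y < y + ε by linarith)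
  have h2 := h1 x hx.2 (fun _ => u) (fun _ => v) (fun _ => ⟨hu, hv⟩)
  have h3 : TA (fun _ => True) E x (fun _ : Unit => u) (fun _ => v) :=
    ⟨fun _ => y, trivial, fun _ => ⟨hy, hu2, hv1⟩⟩
  have hc : Tendsto (fun x' : β → K => (x', ((fun _ : Unit => u), (fun _ : Unit => v))))
      (𝓝 x) (𝓝 (x, ((fun _ : Unit => u), (fun _ : Unit => v)))) := by
    have : Continuous (fun x' : β → K => (x', ((fun _ : Unit => u), (fun _ : Unit => v)))) := by
      fun_prop
    exact this.tendsto _
  filter_upwards [hc.eventually h2] with x' hx'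
  obtain ⟨e, -, he⟩ := hx'.2 h3
  refine ⟨e (), (he ()).1, abs_lt.2 ⟨?_, ?_⟩⟩
  · linarith [(he ()).2.1]
  · linarith [(he ()).2.2]

end Pool.Agent.K3h92.OC
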